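import Mathlib

/-!
# Pseudoline arrangements in the plane and alternating dual paths
-/

namespace PLA

/-- A (Euclidean) pseudoline arrangement of n pseudolines: n x-monotone curves (graphs of
continuous functions on the real line), every two of which meet in exactly one point and cross
there. -/
structure Arrangement (n : ℕ) where
  f : Fin n → ℝ → ℝ
  cont : ∀ i, Continuous (f i)
  cross : ∀ i j, i ≠ j → ∃ x₀, f i x₀ = f j x₀ ∧
    (((∀ x < x₀, f i x < f j x) ∧ (∀ x > x₀, f j x < f i x)) ∨
      ((∀ x < x₀, f j x < f i x) ∧ (∀ x > x₀, f i x < f j x)))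

variable {n : ℕ}

/-- The arrangement is simple: no point lies on three pseudolines. -/
def Arrangement.Simple (A : Arrangement n) : Prop :=
  ∀ i j k, i ≠ j → j ≠ k → i ≠ k → ∀ x, ¬ (A.f i x = A.f j x ∧ A.f j x = A.f k x)

/-- the union of the pseudolines -/
def Arrangement.lines (A : Arrangement n) : Set (ℝ × ℝ) := {p | ∃ i, A.f i p.1 = p.2}

/-- The faces: connected components of the complement of the union of the pseudolines. -/
def Arrangement.IsFace (A : Arrangement n) (F : Set (ℝ × ℝ)) : Prop :=
  ∃ p ∉ A.lines, F = connectedComponentIn A.linesᶜ p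

/-- The faces F and G share an edge contained in pseudoline i: some point of pseudoline i which
lies on no other pseudoline is in the closure of both. -/
def Arrangement.SharesEdge (A : Arrangement n) (i : Fin n) (F G : Set (ℝ × ℝ)) : Prop :=
  ∃ x, (∀ j, j ≠ i → A.f j x ≠ A.f i x) ∧ (x, A.f i x) ∈ closure F ∧ (x, A.f i x) ∈ closure G

/-- F 0, ..., F (M - 1) is a dual path (pairwise distinct faces, consecutive ones sharing an edge
of pseudoline e a) which is alternating for the colouring col. -/
def Arrangement.IsAlternatingPath (A : Arrangement n) (col : Fin n → Bool) (M : ℕ)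
    (F : ℕ → Set (ℝ × ℝ)) (e : ℕ → Fin n) : Prop :=
  (∀ a < M, A.IsFace (F a)) ∧ (∀ a < M, ∀ b < M, a ≠ b → F a ≠ F b) ∧
  (∀ a, a + 1 < M → A.SharesEdge (e a) (F a) (F (a + 1))) ∧
  (∀ a, a + 2 < M → col (e a) ≠ col (e (a + 1)))

end PLA
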