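import Pool.Agent.PLA.Defs

/-!
# Basic facts on sorting networks
-/

namespace PLA

open Finset

variable {n : ℕ} (N : Net n)

namespace Net

theorem ln_ge {t : ℕ} (ht : t ≤ N.T) {j : ℕ} (hj : n ≤ j) : N.ln t j = j := by
  induction t with
  | zero => exact N.ln_zero j
  | succ t ih =>
    have h := N.kp_lt t (by omega)
    rw [N.ln_ne t (by omega) j (by omega) (by omega)]
    exact ih (by omega)

theorem ln_inj {t : ℕ} (ht : t ≤ N.T) : Function.Injective (N.ln t) := by
  induction t with
  | zero => intro a b h; simpa [N.ln_zero] using h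
  | succ t ih =>
    have ih := ih (by omega)
    have key : ∀ j, N.ln (t + 1) j = N.ln t (Equiv.swap (N.kp t) (N.kp t + 1) j) := by
      intro j
      by_cases h1 : j = N.kp t
      · subst h1; rw [N.ln_lo t (by omega), Equiv.swap_apply_left]
      · by_cases h2 : j = N.kp t + 1
        · subst h2; rw [N.ln_hi t (by omega), Equiv.swap_apply_right]
        · rw [N.ln_ne t (by omega) j h1 h2, Equiv.swap_apply_of_ne_of_ne h1 h2]
    intro a b h
    rw [key, key] at h
    exact (Equiv.swap (N.kp t) (N.kp t + 1)).injective (ih h)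

theorem ln_surj {t : ℕ} (ht : t ≤ N.T) : Function.Surjective (N.ln t) := by
  induction t with
  | zero => intro b; exact ⟨b, N.ln_zero b⟩
  | succ t ih =>
    have ih := ih (by omega)
    intro b
    obtain ⟨a, ha⟩ := ih b
    by_cases h1 : a = N.kp t
    · exact ⟨N.kp t + 1, by rw [N.ln_hi t (by omega), ← h1, ha]⟩
    · by_cases h2 : a = N.kp t + 1
      · exact ⟨N.kp t, by rw [N.ln_lo t (by omega), ← h2, ha]⟩
      · exact ⟨a, by rw [N.ln_ne t (by omega) a h1 h2, ha]⟩

theorem ln_lt {t : ℕ} (ht : t ≤ N.T) {j : ℕ} (hj : j < n) : N.ln t j < n := by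
  by_contra h
  have h1 : N.ln t (N.ln t j) = N.ln t j := N.ln_ge ht (by omega)
  have h2 := N.ln_inj ht h1
  omega

theorem mem_F {t k a : ℕ} : a ∈ N.F t k ↔ ∃ j < k, N.ln t j = a := by
  simp [F]

theorem F_zero (t : ℕ) : N.F t 0 = ∅ := by simp [F]

theorem F_succ (t k : ℕ) : N.F t (k + 1) = insert (N.ln t k) (N.F t k) := by
  simp [F, Finset.range_add_one, Finset.image_insert]

theorem ln_notMem_F {t : ℕ} (ht : t ≤ N.T) {k j : ℕ} (h : k ≤ j) : N.ln t j ∉ N.F t k := by
  rw [mem_F]
  rintro ⟨i, hi, h1⟩
  have := N.ln_inj ht h1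
  omega

theorem ln_mem_F {t k j : ℕ} (h : j < k) : N.ln t j ∈ N.F t k := by
  rw [mem_F]; exact ⟨j, h, rfl⟩

theorem card_F {t : ℕ} (ht : t ≤ N.T) (k : ℕ) : (N.F t k).card = k := by
  rw [F, Finset.card_image_of_injective _ (N.ln_inj ht), Finset.card_range]

theorem F_subset_range {t : ℕ} (ht : t ≤ N.T) {k : ℕ} (hk : k ≤ n) : N.F t k ⊆ range n := by
  intro a ha
  rw [mem_F] at ha
  obtain ⟨j, hj, rfl⟩ := ha
  exact mem_range.mpr (N.ln_lt ht (by omega))

theorem F_top {t : ℕ} (ht : t ≤ N.T) : N.F t n = range n := by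
  apply Finset.eq_of_subset_of_card_le (N.F_subset_range ht le_rfl)
  rw [N.card_F ht, Finset.card_range]

theorem F_mono {t k k' : ℕ} (h : k ≤ k') : N.F t k ⊆ N.F t k' := by
  intro a ha
  rw [mem_F] at *
  obtain ⟨j, hj, rfl⟩ := ha
  exact ⟨j, by omega, rfl⟩

/-- a swap changes only the face in the gap of the swap -/
theorem F_step_ne {t : ℕ} (ht : t < N.T) {k : ℕ} (hk : k ≠ N.kp t + 1) :
    N.F (t + 1) k = N.F t k := by
  ext a
  rw [mem_F, mem_F]
  constructor
  · rintro ⟨j, hj, rfl⟩
    by_cases h1 : j = N.kp t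
    · exact ⟨N.kp t + 1, by omega, by rw [h1, N.ln_lo t ht]⟩
    · by_cases h2 : j = N.kp t + 1
      · exact ⟨N.kp t, by omega, by rw [h2, N.ln_hi t ht]⟩
      · exact ⟨j, hj, by rw [N.ln_ne t ht j h1 h2]⟩
  · rintro ⟨j, hj, rfl⟩
    by_cases h1 : j = N.kp t
    · exact ⟨N.kp t + 1, by omega, by rw [h1, N.ln_hi t ht]⟩
    · by_cases h2 : j = N.kp t + 1
      · exact ⟨N.kp t, by omega, by rw [h2, N.ln_lo t ht]⟩
      · exact ⟨j, hj, by rw [N.ln_ne t ht j h1 h2]⟩

theorem F_step {t : ℕ} (ht : t < N.T) :
    N.F (t + 1) (N.kp t + 1) = insert (N.ln t (N.kp t + 1)) (N.F t (N.kp t)) := by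
  rw [F_succ, N.ln_lo t ht, N.F_step_ne ht (by omega)]

/-- once a smaller label is above a bigger one, it was so forever after the crossing: an order
`a` below `b`, `a < b`, at a late time holds at all earlier times -/
theorem persist {t t' : ℕ} (htt : t ≤ t') (ht' : t' ≤ N.T) {a b : ℕ} (hab : a < b)
    {i j : ℕ} (hij : i < j) (hi : N.ln t' i = a) (hj : N.ln t' j = b) :
    ∃ i' j', i' < j' ∧ N.ln t i' = a ∧ N.ln t j' = b := by
  induction t' generalizing i j with
  | zero => 
    have : t = 0 := by omega
    subst this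
    exact ⟨i, j, hij, hi, hj⟩
  | succ s ih =>
    rcases Nat.lt_or_ge t (s + 1) with h | h
    · have hs : s < N.T := by omega
      have hasc := N.asc s hs
      -- positions at time s
      by_cases h1 : i = N.kp s
      · by_cases h2 : j = N.kp s + 1
        · exfalso
          rw [h1, N.ln_lo s hs] at hi
          rw [h2, N.ln_hi s hs] at hj
          omega
        · have h3 : j ≠ N.kp s := by omega
          rw [N.ln_ne s hs j h3 h2] at hj
          rw [h1, N.ln_lo s hs] at hi
          exact ih (by omega) (by omega) (by omega : N.kp s + 1 < j) hi hj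
      · by_cases h1' : i = N.kp s + 1
        · have h3 : j ≠ N.kp s := by omega
          have h4 : j ≠ N.kp s + 1 := by omega
          rw [N.ln_ne s hs j h3 h4] at hj
          rw [h1', N.ln_hi s hs] at hi
          exact ih (by omega) (by omega) (by omega : N.kp s < j) hi hj
        · rw [N.ln_ne s hs i h1 h1'] at hi
          by_cases h2 : j = N.kp s
          · rw [h2, N.ln_lo s hs] at hj
            exact ih (by omega) (by omega) (by omega : i < N.kp s + 1) hi hj
          · by_cases h2' : j = N.kp s + 1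
            · rw [h2', N.ln_hi s hs] at hj
              exact ih (by omega) (by omega) (by omega : i < N.kp s) hi hj
            · rw [N.ln_ne s hs j h2 h2'] at hj
              exact ih (by omega) (by omega) hij hi hj
    · have : t = s + 1 := by omega
      subst this
      exact ⟨i, j, hij, hi, hj⟩

/-- the number of crossings is at most n^2 -/
theorem T_le : N.T ≤ n * n := by
  classical
  let g : ℕ → ℕ × ℕ := fun t => (N.ln t (N.kp t), N.ln t (N.kp t + 1))
  have hinj : Set.InjOn g (range N.T : Finset ℕ) := by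
    have aux : ∀ t t', t < t' → t' < N.T → g t ≠ g t' := by
      intro t t' h h' hg
      have h1 : N.ln t (N.kp t) = N.ln t' (N.kp t') := congrArg Prod.fst hg
      have h2 : N.ln t (N.kp t + 1) = N.ln t' (N.kp t' + 1) := congrArg Prod.snd hg
      have hasc := N.asc t (by omega)
      obtain ⟨i, j, hij, hi, hj⟩ := N.persist (t := t + 1) (t' := t') (by omega) (by omega) hasc
        (i := N.kp t') (j := N.kp t' + 1) (by omega) h1.symm h2.symm
      rw [← N.ln_hi t (by omega)] at hi
      rw [← N.ln_lo t (by omega)] at hj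
      have := N.ln_inj (t := t + 1) (by omega) hi
      have := N.ln_inj (t := t + 1) (by omega) hj
      omega
    intro t ht t' ht' hg
    simp only [coe_range, Set.mem_Iio] at ht ht'
    rcases lt_trichotomy t t' with h | h | h
    · exact absurd hg (aux t t' h ht')
    · exact h
    · exact absurd hg.symm (aux t' t h ht)
  have hmaps : ∀ t ∈ range N.T, g t ∈ (range n) ×ˢ (range n) := by
    intro t ht
    have ht := mem_range.mp ht
    have := N.kp_lt t ht
    simp only [g, mem_product, mem_range]
    exact ⟨N.ln_lt (by omega) (by omega), N.ln_lt (by omega) (by omega)⟩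
  have := Finset.card_le_card_of_injOn g hmaps hinj
  simpa using this

theorem mem_allF {X : Finset ℕ} : X ∈ N.allF ↔ N.IsFace X := by
  simp only [allF, mem_image, mem_product, mem_range, Prod.exists, IsFace]
  constructor
  · rintro ⟨t, k, ⟨h1, h2⟩, rfl⟩; exact ⟨t, k, by omega, by omega, rfl⟩
  · rintro ⟨t, k, h1, h2, rfl⟩; exact ⟨t, k, ⟨by omega, by omega⟩, rfl⟩

/-- number of faces -/
theorem card_allF_le : N.allF.card ≤ n * n + n + 1 := by
  classical
  have key : ∀ s, s ≤ N.T →
      (((range (s + 1)) ×ˢ (range (n + 1))).image (fun p : ℕ × ℕ => N.F p.1 p.2)).card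
        ≤ s + n + 1 := by
    intro s hs
    induction s with
    | zero =>
      calc _ ≤ ((range (0 + 1)) ×ˢ (range (n + 1))).card := Finset.card_image_le
        _ = 0 + n + 1 := by simp
    | succ s ih =>
      have hsub : ((range (s + 1 + 1)) ×ˢ (range (n + 1))).image (fun p : ℕ × ℕ => N.F p.1 p.2) ⊆
          insert (N.F (s + 1) (N.kp s + 1))
            (((range (s + 1)) ×ˢ (range (n + 1))).image (fun p : ℕ × ℕ => N.F p.1 p.2)) := by
        intro X hX
        simp only [mem_image, mem_product, mem_range, Prod.exists, mem_insert] at hX ⊢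
        obtain ⟨t, k, ⟨h1, h2⟩, rfl⟩ := hX
        rcases Nat.lt_or_ge t (s + 1) with h | h
        · right; exact ⟨t, k, ⟨h, h2⟩, rfl⟩
        · have : t = s + 1 := by omega
          subst this
          by_cases hk : k = N.kp s + 1
          · left; rw [hk]
          · right; exact ⟨s, k, ⟨by omega, h2⟩, (N.F_step_ne (by omega) hk).symm⟩
      calc _ ≤ _ := Finset.card_le_card hsub
        _ ≤ _ := Finset.card_insert_le _ _
        _ ≤ _ := by have := ih (by omega); omega
  have := key N.T le_rfl
  have h2 := N.T_le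
  unfold allF
  omega

/-! ### Coordinates -/

theorem ca_empty (m : ℕ) : ca m ∅ = 0 := by simp [ca]

theorem ca_succ (m : ℕ) {t k : ℕ} (ht : t ≤ N.T) :
    ca m (N.F t (k + 1)) = ca m (N.F t k) + (if m ≤ N.ln t k then 1 else 0) := by
  rw [F_succ, ca, Finset.filter_insert]
  split_ifs with h
  · rw [Finset.card_insert_of_notMem]
    · rfl
    · intro h'
      exact N.ln_notMem_F ht le_rfl (Finset.mem_filter.mp h').1
  · simp [ca]

/-- relation between the coordinates of F t k and k -/
theorem ca_add (m : ℕ) {t : ℕ} (ht : t ≤ N.T) (k : ℕ) :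
    ca m (N.F t k) + m = k + cb m (N.F t k) := by
  classical
  have h1 : (N.F t k).card = k := N.card_F ht k
  have h2 : ((N.F t k).filter (fun i => m ≤ i)).card + ((N.F t k).filter (fun i => ¬ m ≤ i)).card
      = (N.F t k).card := Finset.card_filter_add_card_filter_not _
  have h3 : (range m \ N.F t k).card + (range m ∩ N.F t k).card = (range m).card :=
    Finset.card_sdiff_add_card_inter _ _
  have h4 : (range m ∩ N.F t k) = (N.F t k).filter (fun i => ¬ m ≤ i) := by
    ext a; simp only [mem_inter, mem_range, mem_filter]; constructor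
    · rintro ⟨h, h'⟩; exact ⟨h', by omega⟩
    · rintro ⟨h, h'⟩; exact ⟨by omega, h⟩
  rw [h4, card_range] at h3
  unfold ca cb
  omega

theorem cb_succ (m : ℕ) {t : ℕ} (ht : t ≤ N.T) (k : ℕ) :
    cb m (N.F t k) = cb m (N.F t (k + 1)) + (if N.ln t k < m then 1 else 0) := by
  have h1 := N.ca_add m ht k
  have h2 := N.ca_add m ht (k + 1)
  have h3 := N.ca_succ m ht (k := k)
  split_ifs at * <;> omega

theorem ca_le {X Y : Finset ℕ} (m : ℕ) : ca m X ≤ ca m Y + (symmDiff X Y).card := by
  classical
  unfold ca
  have : X.filter (fun i => m ≤ i) ⊆ Y.filter (fun i => m ≤ i) ∪ symmDiff X Y := by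
    intro a ha
    simp only [mem_filter, mem_union, Finset.mem_symmDiff] at *
    by_cases h : a ∈ Y
    · left; exact ⟨h, ha.2⟩
    · right; left; exact ⟨ha.1, h⟩
  exact (Finset.card_le_card this).trans (Finset.card_union_le _ _)

theorem cb_le {X Y : Finset ℕ} (m : ℕ) : cb m X ≤ cb m Y + (symmDiff X Y).card := by
  classical
  unfold cb
  have : range m \ X ⊆ (range m \ Y) ∪ symmDiff X Y := by
    intro a ha
    simp only [mem_sdiff, mem_union, Finset.mem_symmDiff] at *
    by_cases h : a ∈ Y
    · right; right; exact ⟨h, ha.2⟩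
    · left; exact ⟨ha.1, h⟩
  exact (Finset.card_le_card this).trans (Finset.card_union_le _ _)

/-- along the time, at a fixed gap, the first coordinate changes by 0 or 1 -/
theorem ca_step (m : ℕ) {t : ℕ} (ht : t < N.T) (k : ℕ) :
    ca m (N.F t k) ≤ ca m (N.F (t + 1) k) ∧ ca m (N.F (t + 1) k) ≤ ca m (N.F t k) + 1 := by
  by_cases hk : k = N.kp t + 1
  · subst hk
    have h1 := N.ca_succ m (t := t) (k := N.kp t) (by omega)
    have h2 := N.ca_succ m (t := t + 1) (k := N.kp t) (by omega)
    rw [N.F_step_ne ht (k := N.kp t) (by omega), N.ln_lo t ht] at h2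
    have hasc := N.asc t ht
    rw [h1, h2]
    constructor
    · split_ifs <;> omega
    · split_ifs <;> omega
  · rw [N.F_step_ne ht hk]; omega

theorem ca_mono_time (m : ℕ) {t t' : ℕ} (htt : t ≤ t') (ht' : t' ≤ N.T) (k : ℕ) :
    ca m (N.F t k) ≤ ca m (N.F t' k) := by
  induction t' with
  | zero => have : t = 0 := by omega
            subst this; exact le_rfl
  | succ s ih =>
    rcases Nat.lt_or_ge t (s + 1) with h | h
    · exact (ih (by omega) (by omega)).trans (N.ca_step m (by omega) k).1
    · have : t = s + 1 := by omega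
      subst this; exact le_rfl

theorem ca_mono {m t k k' : ℕ} (h : k ≤ k') : ca m (N.F t k) ≤ ca m (N.F t k') := by
  unfold ca
  exact Finset.card_le_card (Finset.filter_subset_filter _ (N.F_mono h))

theorem cb_anti {m t k k' : ℕ} (h : k ≤ k') : cb m (N.F t k') ≤ cb m (N.F t k) := by
  unfold cb
  exact Finset.card_le_card (Finset.sdiff_subset_sdiff le_rfl (N.F_mono h))

/-- the faces of the initial time are on the axes -/
theorem start_axes (m k : ℕ) : ca m (N.F 0 k) = 0 ∨ cb m (N.F 0 k) = 0 := by
  have hF : N.F 0 k = range k := by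
    ext a; rw [mem_F]; simp [N.ln_zero]
  rw [hF]
  rcases Nat.lt_or_ge k (m + 1) with h | h
  · left
    unfold ca
    rw [Finset.card_eq_zero, Finset.filter_eq_empty_iff]
    intro a ha; have := mem_range.mp ha; omega
  · right
    unfold cb
    rw [Finset.card_eq_zero, Finset.sdiff_eq_empty_iff_subset]
    exact Finset.range_subset_range.mpr (by omega)

/-- every lattice point of the domain carries a face -/
theorem exists_face {m : ℕ} (hm : m ≤ n) {p q : ℕ} (hp : p ≤ n - m) (hq : q ≤ m) :
    ∃ t k, t ≤ N.T ∧ k ≤ n ∧ cd m (N.F t k) = (p, q) := by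
  -- gap k = p + m - q
  set k := p + m - q with hk
  have hkn : k ≤ n := by omega
  have h0 : ca m (N.F 0 k) ≤ p := by
    have hF : N.F 0 k = range k := by
      ext a; rw [mem_F]; simp [N.ln_zero]
    rw [hF]
    unfold ca
    have : (range k).filter (fun i => m ≤ i) ⊆ Finset.Ico m k := by
      intro a ha; simp only [mem_filter, mem_range, mem_Ico] at *; omega
    have := Finset.card_le_card this
    simp only [Nat.card_Ico] at this
    omega
  have h1 : p ≤ ca m (N.F N.T k) := by
    unfold ca
    -- lines at time T at position j < k are n - 1 - j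
    have : (Finset.Ico (n - min k (n - m)) n) ⊆ (N.F N.T k).filter (fun i => m ≤ i) := by
      intro a ha
      simp only [mem_filter, mem_Ico] at *
      refine ⟨?_, by omega⟩
      rw [mem_F]
      refine ⟨n - 1 - a, by omega, ?_⟩
      rw [N.ln_top _ (by omega)]
      omega
    have := Finset.card_le_card this
    simp only [Nat.card_Ico] at this
    omega
  have key : ∀ s, s ≤ N.T → p ≤ ca m (N.F s k) → ∃ t, t ≤ s ∧ ca m (N.F t k) = p := by
    intro s
    induction s with
    | zero => intro _ h; exact ⟨0, le_rfl, by omega⟩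
    | succ s ih =>
      intro hs h
      have hst := N.ca_step m (t := s) (by omega) k
      by_cases h2 : p ≤ ca m (N.F s k)
      · obtain ⟨t, ht, h3⟩ := ih (by omega) h2
        exact ⟨t, by omega, h3⟩
      · exact ⟨s + 1, le_rfl, by omega⟩
  obtain ⟨t, ht, hc⟩ := key N.T le_rfl h1
  refine ⟨t, k, ht, hkn, ?_⟩
  have h3 := N.ca_add m ht k
  unfold cd
  rw [hc]
  rw [hc] at h3
  congr 1
  omega

theorem isFace_F {t k : ℕ} (ht : t ≤ N.T) (hk : k ≤ n) : N.IsFace (N.F t k) :=
  ⟨t, k, ht, hk, rfl⟩

/-- symmetric difference of two faces of the same time slice -/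
theorem card_symmDiff_succ {X : Finset ℕ} {t k : ℕ} (ht : t ≤ N.T) :
    (symmDiff X (N.F t (k + 1))).card ≤ (symmDiff X (N.F t k)).card + 1 ∧
    (symmDiff X (N.F t k)).card ≤ (symmDiff X (N.F t (k + 1))).card + 1 := by
  classical
  have hd : (symmDiff (N.F t k) (N.F t (k + 1))).card = 1 := by
    rw [F_succ]
    have : symmDiff (N.F t k) (insert (N.ln t k) (N.F t k)) = {N.ln t k} := by
      ext a
      simp only [Finset.mem_symmDiff, mem_insert, mem_singleton]
      have := N.ln_notMem_F ht (k := k) (j := k) le_rfl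
      constructor
      · rintro (⟨h1, h2⟩ | ⟨h1 | h1, h2⟩)
        · exact absurd (Or.inr h1) h2
        · exact h1
        · exact absurd h1 h2
      · rintro rfl
        exact Or.inr ⟨Or.inl rfl, this⟩
    rw [this, card_singleton]
  have tri : ∀ A B C : Finset ℕ, (symmDiff A C).card ≤ (symmDiff A B).card + (symmDiff B C).card := by
    intro A B C
    refine (Finset.card_le_card ?_).trans (Finset.card_union_le _ _)
    intro a ha
    simp only [Finset.mem_symmDiff, mem_union] at *
    tauto
  constructor
  · have := tri X (N.F t k) (N.F t (k + 1)); omega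
  · have := tri X (N.F t (k + 1)) (N.F t k)
    rw [symmDiff_comm (N.F t (k + 1))] at this; omega

end Net

end PLA
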