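import Pool.Agent.PLA.Arr
import Pool.Agent.PLA.Basic

/-!
# The sorting network of a simple pseudoline arrangement
-/

namespace PLA

open Finset

variable {n : ℕ}

/-! ### Sorting networks from families of linear orders -/

/-- the position of the label `a` in the arrangement `l` of the labels -/
noncomputable def posOf (l : ℕ → ℕ) (a : ℕ) : ℕ := sInf {i | l i = a}

/-- the labels at the positions at time `t`, if at time `t` the label `pa t` changes places with
its upper neighbour -/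
noncomputable def lnr (pa : ℕ → ℕ) : ℕ → ℕ → ℕ
  | 0 => fun j => j
  | t + 1 => fun j => lnr pa t (Equiv.swap (posOf (lnr pa t) (pa t)) (posOf (lnr pa t) (pa t) + 1) j)

/-- families of linear orders in which adjacent elements are exchanged one pair at a time -/
structure OrdFam (n T : ℕ) (lt : ℕ → ℕ → ℕ → Prop) (pa pb : ℕ → ℕ) : Prop where
  h0 : ∀ a b, a < n → b < n → (lt 0 a b ↔ a < b)
  hT : ∀ a b, a < n → b < n → (lt T a b ↔ b < a)
  asym : ∀ t, t ≤ T → ∀ a b, a < n → b < n → lt t a b → ¬ lt t b a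
  tot : ∀ t, t ≤ T → ∀ a b, a < n → b < n → a ≠ b → lt t a b ∨ lt t b a
  trans : ∀ t, t ≤ T → ∀ a b c, a < n → b < n → c < n → lt t a b → lt t b c → lt t a c
  lab : ∀ t, t < T → pa t < pb t ∧ pb t < n
  bef : ∀ t, t < T → lt t (pa t) (pb t)
  aft : ∀ t, t < T → lt (t + 1) (pb t) (pa t)
  same : ∀ t, t < T → ∀ a b, a < n → b < n → ¬ (a = pa t ∧ b = pb t) →
    ¬ (a = pb t ∧ b = pa t) → (lt (t + 1) a b ↔ lt t a b)

/-- the invariants of the arrangement of the labels at time `t` -/
structure Inv (n : ℕ) (lt : ℕ → ℕ → Prop) (l : ℕ → ℕ) : Prop where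
  ge : ∀ j, n ≤ j → l j = j
  lt_n : ∀ j, j < n → l j < n
  inj : Function.Injective l
  surj : ∀ a, a < n → ∃ j, j < n ∧ l j = a
  srt : ∀ i j, i < j → j < n → lt (l i) (l j)

theorem posOf_spec {l : ℕ → ℕ} {a : ℕ} (h : ∃ j, j < n ∧ l j = a) (hi : Function.Injective l) :
    posOf l a < n ∧ l (posOf l a) = a := by
  obtain ⟨j, hj, h⟩ := h
  have h1 : posOf l a ∈ {i | l i = a} := Nat.sInf_mem ⟨j, h⟩
  have h2 : l (posOf l a) = a := h1
  have h3 : posOf l a = j := hi (h2.trans h.symm)
  exact ⟨h3 ▸ hj, h2⟩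

variable {T : ℕ} {lt : ℕ → ℕ → ℕ → Prop} {pa pb : ℕ → ℕ}

theorem OrdFam.adj (H : OrdFam n T lt pa pb) {t : ℕ} (ht : t < T) {l : ℕ → ℕ}
    (I : Inv n (lt t) l) :
    posOf l (pa t) + 1 < n ∧ l (posOf l (pa t)) = pa t ∧ l (posOf l (pa t) + 1) = pb t := by
  have hl := H.lab t ht
  obtain ⟨h1, h2⟩ := posOf_spec (n := n) (I.surj (pa t) (by omega)) I.inj
  obtain ⟨j, hj, hj2⟩ := I.surj (pb t) hl.2
  set i := posOf l (pa t) with hi
  have hij : i < j := by
    rcases lt_trichotomy i j with h | h | h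
    · exact h
    · exfalso
      rw [h, hj2] at h2
      omega
    · exfalso
      have := I.srt j i h h1
      rw [h2, hj2] at this
      exact H.asym t (by omega) _ _ (by omega) hl.2 (H.bef t ht) this
  have hj' : i + 1 = j := by
    by_contra hne
    have hlt : i + 1 < j := by omega
    have hc : l (i + 1) < n := I.lt_n _ (by omega)
    have e1 := I.srt i (i + 1) (by omega) (by omega)
    have e2 := I.srt (i + 1) j hlt hj
    rw [h2] at e1
    rw [hj2] at e2
    have n1 : l (i + 1) ≠ pa t := by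
      intro h; rw [← h2] at h; have := I.inj h; omega
    have n2 : l (i + 1) ≠ pb t := by
      intro h; rw [← hj2] at h; have := I.inj h; omega
    have e3 : lt (t + 1) (pa t) (l (i + 1)) :=
      (H.same t ht _ _ (by omega) hc (fun h => n2 h.2) (fun h => n1 h.2)).2 e1
    have e4 : lt (t + 1) (l (i + 1)) (pb t) :=
      (H.same t ht _ _ hc hl.2 (fun h => n1 h.1) (fun h => n2 h.1)).2 e2
    have e5 := H.trans (t + 1) ht _ _ _ (by omega) hc hl.2 e3 e4
    exact H.asym (t + 1) ht _ _ (by omega) hl.2 e5 (H.aft t ht)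
  exact ⟨by omega, h2, by rw [hj']; exact hj2⟩

theorem OrdFam.inv (H : OrdFam n T lt pa pb) : ∀ t, t ≤ T → Inv n (lt t) (lnr pa t) := by
  intro t
  induction t with
  | zero =>
    intro _
    refine ⟨fun j _ => rfl, fun j hj => hj, fun a b h => h, fun a ha => ⟨a, ha, rfl⟩, ?_⟩
    intro i j hij hj
    exact (H.h0 i j (by omega) hj).2 hij
  | succ t ih =>
    intro ht
    have I := ih (by omega)
    obtain ⟨h1, h2, h3⟩ := H.adj (t := t) (by omega) I
    set k := posOf (lnr pa t) (pa t) with hk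
    have hlab := H.lab t (by omega)
    have hdef : ∀ j, lnr pa (t + 1) j = lnr pa t (Equiv.swap k (k + 1) j) := fun j => rfl
    have hlo : lnr pa (t + 1) k = pb t := by rw [hdef, Equiv.swap_apply_left, h3]
    have hhi : lnr pa (t + 1) (k + 1) = pa t := by rw [hdef, Equiv.swap_apply_right, h2]
    have hne : ∀ j, j ≠ k → j ≠ k + 1 → lnr pa (t + 1) j = lnr pa t j := by
      intro j e1 e2
      rw [hdef, Equiv.swap_apply_of_ne_of_ne e1 e2]
    have hltn : ∀ j, j < n → lnr pa (t + 1) j < n := by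
      intro j hj
      by_cases e1 : j = k
      · rw [e1, hlo]; exact hlab.2
      · by_cases e2 : j = k + 1
        · rw [e2, hhi]; omega
        · rw [hne j e1 e2]; exact I.lt_n j hj
    have hinj : Function.Injective (lnr pa (t + 1)) := by
      intro a b h
      rw [hdef, hdef] at h
      exact (Equiv.swap k (k + 1)).injective (I.inj h)
    refine ⟨?_, hltn, hinj, ?_, ?_⟩
    · intro j hj
      rw [hne j (by omega) (by omega)]
      exact I.ge j hj
    · intro a ha
      obtain ⟨j, hj, hja⟩ := I.surj a ha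
      by_cases e1 : j = k
      · exact ⟨k + 1, h1, by rw [hhi, ← hja, e1, h2]⟩
      · by_cases e2 : j = k + 1
        · exact ⟨k, by omega, by rw [hlo, ← hja, e2, h3]⟩
        · exact ⟨j, hj, by rw [hne j e1 e2, hja]⟩
    · intro i j hij hj
      by_cases hspec : i = k ∧ j = k + 1
      · rw [hspec.1, hspec.2, hlo, hhi]
        exact H.aft t (by omega)
      have hsw : Equiv.swap k (k + 1) i < Equiv.swap k (k + 1) j := by
        simp only [Equiv.swap_apply_def]
        split_ifs <;> omega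
      have hswn : Equiv.swap k (k + 1) j < n := by
        simp only [Equiv.swap_apply_def]
        split_ifs <;> omega
      have e := I.srt _ _ hsw hswn
      rw [← hdef, ← hdef] at e
      refine (H.same t (by omega) _ _ (hltn i (by omega)) (hltn j hj) ?_ ?_).2 e
      · rintro ⟨e1, e2⟩
        rw [← hhi] at e1
        rw [← hlo] at e2
        have := hinj e1
        have := hinj e2
        omega
      · rintro ⟨e1, e2⟩
        rw [← hlo] at e1
        rw [← hhi] at e2
        have := hinj e1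
        have := hinj e2
        exact hspec ⟨by omega, by omega⟩

theorem OrdFam.exists_net (H : OrdFam n T lt pa pb) :
    ∃ N : Net n, N.T = T ∧ ∀ t, t ≤ T → Inv n (lt t) (N.ln t) := by
  have hstep : ∀ t, t < T →
      lnr pa (t + 1) (posOf (lnr pa t) (pa t)) = lnr pa t (posOf (lnr pa t) (pa t) + 1) := by
    intro t _
    show lnr pa t (Equiv.swap _ _ _) = _
    rw [Equiv.swap_apply_left]
  refine ⟨Net.mk T (lnr pa) (fun t => posOf (lnr pa t) (pa t)) ?_ (fun j => rfl) hstep ?_ ?_ ?_ ?_,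
    rfl, H.inv⟩
  · intro t ht
    exact (H.adj ht (H.inv t (by omega))).1
  · intro t _
    show lnr pa t (Equiv.swap _ _ _) = _
    rw [Equiv.swap_apply_right]
  · intro t _ j h1 h2
    show lnr pa t (Equiv.swap _ _ _) = _
    rw [Equiv.swap_apply_of_ne_of_ne h1 h2]
  · intro t ht
    obtain ⟨_, h2, h3⟩ := H.adj ht (H.inv t (by omega))
    show lnr pa t (posOf (lnr pa t) (pa t)) < lnr pa t (posOf (lnr pa t) (pa t) + 1)
    rw [h2, h3]
    exact (H.lab t ht).1
  · have I := H.inv T le_rfl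
    have hdec : ∀ i j, i < j → j < n → lnr pa T j < lnr pa T i := by
      intro i j hij hj
      exact (H.hT _ _ (I.lt_n i (by omega)) (I.lt_n j hj)).1 (I.srt i j hij hj)
    have up : ∀ j, j < n → lnr pa T j + j ≤ n - 1 := by
      intro j
      induction j with
      | zero => intro h; have := I.lt_n 0 h; omega
      | succ j ih =>
        intro h
        have := ih (by omega)
        have := hdec j (j + 1) (by omega) h
        omega
    have dn : ∀ d j, j < n → n - 1 - j = d → d ≤ lnr pa T j := by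
      intro d
      induction d with
      | zero => intro j _ _; omega
      | succ d ih =>
        intro j hj hd
        have := ih (j + 1) (by omega) (by omega)
        have := hdec j (j + 1) (by omega) (by omega)
        omega
    intro j hj
    have := up j hj
    have := dn (n - 1 - j) j hj rfl
    omega

/-! ### The orders of an arrangement -/

theorem Arrangement.exists_labels (A : Arrangement n) :
    ∃ (e : Fin n ≃ Fin n) (C : Fin n → Fin n → ℝ), ∀ a b : Fin n, a < b →
      A.f (e a) (C a b) = A.f (e b) (C a b) ∧ (∀ x < C a b, A.f (e a) x < A.f (e b) x) ∧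
      (∀ x > C a b, A.f (e b) x < A.f (e a) x) := by
  classical
  choose c hc using A.cross
  obtain ⟨Cs, hCs⟩ : ∃ Cs : Finset ℝ, ∀ (i j : Fin n) (h : i ≠ j), c i j h ∈ Cs :=
    ⟨(univ : Finset (Fin n × Fin n)).image
      (fun p : Fin n × Fin n => if h : p.1 ≠ p.2 then c p.1 p.2 h else 0),
      fun i j h => mem_image.2 ⟨(i, j), mem_univ _, by simp [h]⟩⟩
  obtain ⟨x0, -, hx0⟩ := Order.exists_between_finsets (∅ : Finset ℝ) Cs (by simp)
  have hx : ∀ i j (h : i ≠ j), x0 < c i j h := fun i j h => hx0 _ (hCs i j h)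
  refine ⟨Tuple.sort (fun i => A.f i x0), fun a b => if h : (Tuple.sort (fun i => A.f i x0)) a ≠
    (Tuple.sort (fun i => A.f i x0)) b then c _ _ h else 0, fun a b hab => ?_⟩
  set e := Tuple.sort (fun i => A.f i x0) with he
  have hne : e a ≠ e b := fun h => hab.ne (e.injective h)
  have hmono : A.f (e a) x0 ≤ A.f (e b) x0 :=
    Tuple.monotone_sort (fun i => A.f i x0) hab.le
  simp only [hne, ne_eq, not_false_eq_true, dite_true]
  obtain ⟨h1, h2 | h2⟩ := hc (e a) (e b) hne
  · exact ⟨h1, h2.1, h2.2⟩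
  · exact absurd (h2.1 x0 (hx _ _ hne)) (not_lt.2 hmono)

section

variable (g : Fin n → ℝ → ℝ) (C : Fin n → Fin n → ℝ)

/-- the pairs `a < b` -/
def prs (n : ℕ) : Finset (Fin n × Fin n) := univ.filter (fun p => p.1 < p.2)

/-- the key of a pair: the abscissa of its crossing, and a tie breaker -/
noncomputable def key (p : Fin n × Fin n) : ℝ ×ₗ ℕ := toLex (C p.1 p.2, (p.1 : ℕ) * n + p.2)

open Classical in
/-- the number of a pair -/
noncomputable def rk (p : Fin n × Fin n) : ℕ := ((prs n).filter (fun q => key C q < key C p)).card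

theorem key_inj : Function.Injective (key C) := by
  intro p q h
  have h1 : (p.1 : ℕ) * n + p.2 = (q.1 : ℕ) * n + q.2 := by
    have := congrArg (fun z => (ofLex z).2) h
    simpa [key] using this
  have hp := p.2.2
  have hq := q.2.2
  have h2 : (p.1 : ℕ) = q.1 := by
    have e1 : ((p.1 : ℕ) * n + p.2) / n = p.1 := by
      rw [Nat.add_comm, Nat.add_mul_div_right _ _ (by omega), Nat.div_eq_of_lt hp, Nat.zero_add]
    have e2 : ((q.1 : ℕ) * n + q.2) / n = q.1 := by
      rw [Nat.add_comm, Nat.add_mul_div_right _ _ (by omega), Nat.div_eq_of_lt hq, Nat.zero_add]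
    rw [← e1, ← e2, h1]
  have h3 : (p.2 : ℕ) = q.2 := by
    rw [h2] at h1; omega
  exact Prod.ext (Fin.ext h2) (Fin.ext h3)

theorem rk_lt_iff {p q : Fin n × Fin n} (hp : p ∈ prs n) :
    rk C p < rk C q ↔ key C p < key C q := by
  classical
  constructor
  · intro h
    by_contra hc
    have : rk C q ≤ rk C p := by
      apply Finset.card_le_card
      intro z hz
      rw [mem_filter] at hz ⊢
      exact ⟨hz.1, hz.2.trans_le (not_lt.1 hc)⟩
    omega
  · intro h
    apply Finset.card_lt_card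
    rw [Finset.ssubset_iff_of_subset]
    · exact ⟨p, mem_filter.2 ⟨hp, h⟩, fun h' => lt_irrefl _ (mem_filter.1 h').2⟩
    · intro z hz
      rw [mem_filter] at hz ⊢
      exact ⟨hz.1, hz.2.trans h⟩

theorem rk_inj {p q : Fin n × Fin n} (hp : p ∈ prs n) (hq : q ∈ prs n) (h : rk C p = rk C q) :
    p = q := by
  rcases lt_trichotomy (key C p) (key C q) with h1 | h1 | h1
  · have := (rk_lt_iff C hp).2 h1; omega
  · exact key_inj C h1
  · have := (rk_lt_iff C hq).2 h1; omega

theorem rk_lt {p : Fin n × Fin n} (hp : p ∈ prs n) : rk C p < (prs n).card := by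
  classical
  apply Finset.card_lt_card
  rw [Finset.ssubset_iff_of_subset (filter_subset _ _)]
  exact ⟨p, hp, fun h' => lt_irrefl _ (mem_filter.1 h').2⟩

theorem exists_rk {t : ℕ} (ht : t < (prs n).card) : ∃ p ∈ prs n, rk C p = t := by
  classical
  have h1 : (prs n).image (rk C) ⊆ range (prs n).card := by
    intro t ht
    obtain ⟨p, hp, rfl⟩ := mem_image.1 ht
    exact mem_range.2 (rk_lt C hp)
  have h2 : ((prs n).image (rk C)).card = (prs n).card :=
    Finset.card_image_of_injOn (fun p hp q hq h => rk_inj C hp hq h)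
  have h3 : (prs n).image (rk C) = range (prs n).card :=
    Finset.eq_of_subset_of_card_le h1 (by rw [h2, card_range])
  have h4 : t ∈ (prs n).image (rk C) := by rw [h3]; exact mem_range.2 ht
  obtain ⟨p, hp, h⟩ := mem_image.1 h4
  exact ⟨p, hp, h⟩

/-- the order at time `t` -/
def ltF (t : ℕ) (a b : Fin n) : Prop :=
  (a < b ∧ ¬ rk C (a, b) < t) ∨ (b < a ∧ rk C (b, a) < t)

theorem ltF_asym {t : ℕ} {a b : Fin n} (h : ltF C t a b) : ¬ ltF C t b a := by
  rintro (h' | h') <;> rcases h with h | h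
  · exact absurd h.1 (not_lt.2 h'.1.le)
  · exact h'.2 h.2
  · exact h.2 h'.2
  · exact absurd h.1 (not_lt.2 h'.1.le)

theorem ltF_tot {t : ℕ} {a b : Fin n} (h : a ≠ b) : ltF C t a b ∨ ltF C t b a := by
  rcases lt_or_gt_of_ne h with h1 | h1
  · by_cases h2 : rk C (a, b) < t
    · exact Or.inr (Or.inr ⟨h1, h2⟩)
    · exact Or.inl (Or.inl ⟨h1, h2⟩)
  · by_cases h2 : rk C (b, a) < t
    · exact Or.inl (Or.inr ⟨h1, h2⟩)
    · exact Or.inr (Or.inl ⟨h1, h2⟩)

/-- crossings in the right order -/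
def Good : Prop := ∀ a b : Fin n, a < b → g a (C a b) = g b (C a b) ∧
  (∀ x < C a b, g a x < g b x) ∧ (∀ x > C a b, g b x < g a x)

variable {g C}

theorem Good.le_left (H : Good g C) {a b : Fin n} (hab : a < b) {x : ℝ} (hx : x ≤ C a b) :
    g a x ≤ g b x := by
  rcases eq_or_lt_of_le hx with h | h
  · rw [h]; exact (H a b hab).1.le
  · exact ((H a b hab).2.1 x h).le

theorem Good.le_right (H : Good g C) {a b : Fin n} (hab : a < b) {x : ℝ} (hx : C a b ≤ x) :
    g b x ≤ g a x := by
  rcases eq_or_lt_of_le hx with h | h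
  · rw [← h]; exact (H a b hab).1.ge
  · exact ((H a b hab).2.2 x h).le

theorem C_le_of_key {p q : Fin n × Fin n} (h : key C p ≤ key C q) : C p.1 p.2 ≤ C q.1 q.2 := by
  rcases (Prod.Lex.le_iff).1 h with h | h
  · exact le_of_lt h
  · exact h.1.le

/-- at every time there is a reference abscissa -/
theorem Good.exists_ref (H : Good g C) (t : ℕ) :
    ∃ x, ∀ a b : Fin n, ltF C t a b → g a x ≤ g b x := by
  classical
  rcases Nat.lt_or_ge t (prs n).card with ht | ht
  · obtain ⟨p, hp, hpt⟩ := exists_rk C ht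
    refine ⟨C p.1 p.2, fun a b hab => ?_⟩
    rcases hab with ⟨h1, h2⟩ | ⟨h1, h2⟩
    · apply H.le_left h1
      have h3 : ¬ key C (a, b) < key C p := fun h =>
        h2 (hpt ▸ (rk_lt_iff C (by simpa [prs] using h1)).2 h)
      exact C_le_of_key (not_lt.1 h3)
    · apply H.le_right h1
      have h3 : key C (b, a) < key C p := (rk_lt_iff C (by simpa [prs] using h1)).1 (hpt ▸ h2)
      exact C_le_of_key h3.le
  · obtain ⟨x, hx, -⟩ := Order.exists_between_finsets
      ((univ : Finset (Fin n × Fin n)).image (fun p => C p.1 p.2)) (∅ : Finset ℝ) (by simp)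
    refine ⟨x, fun a b hab => ?_⟩
    rcases hab with ⟨h1, h2⟩ | ⟨h1, h2⟩
    · exact absurd ((rk_lt C (by simpa [prs] using h1)).trans_le ht) h2
    · exact H.le_right h1 (hx _ (mem_image.2 ⟨(b, a), mem_univ _, rfl⟩)).le

theorem Good.trans (H : Good g C)
    (S : ∀ i j k : Fin n, i ≠ j → j ≠ k → i ≠ k → ∀ x, ¬ (g i x = g j x ∧ g j x = g k x))
    {t : ℕ} {a b c : Fin n} (h1 : ltF C t a b) (h2 : ltF C t b c) : ltF C t a c := by
  have hab : a ≠ b := by
    rintro rfl; exact ltF_asym C h1 h1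
  have hbc : b ≠ c := by
    rintro rfl; exact ltF_asym C h2 h2
  have hac : a ≠ c := by
    rintro rfl; exact ltF_asym C h1 h2
  rcases ltF_tot C (t := t) hac with h | h
  · exact h
  · exfalso
    obtain ⟨x, hx⟩ := H.exists_ref t
    have e1 := hx a b h1
    have e2 := hx b c h2
    have e3 := hx c a h
    exact S a b c hab hbc hac x ⟨by linarith, by linarith⟩

/-- the unordered version of `C` -/
theorem Good.realize (H : Good g C)
    (S : ∀ i j k : Fin n, i ≠ j → j ≠ k → i ≠ k → ∀ x, ¬ (g i x = g j x ∧ g j x = g k x))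
    (t : ℕ) (l : Fin n) :
    ∃ x, ∀ i : Fin n, (ltF C t i l → g i x < g l x) ∧ (ltF C t l i → g l x < g i x) := by
  classical
  -- the crossing abscissa with `l`, and the pair
  let pr : Fin n → Fin n × Fin n := fun i => if i < l then (i, l) else (l, i)
  have hpr : ∀ i, i ≠ l → pr i ∈ prs n := by
    intro i hi
    simp only [pr]
    split_ifs with h
    · simpa [prs] using h
    · simpa [prs] using lt_of_le_of_ne (not_lt.1 h) (Ne.symm hi)
  have heq : ∀ i, i ≠ l → g i (C (pr i).1 (pr i).2) = g l (C (pr i).1 (pr i).2) := by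
    intro i hi
    simp only [pr]
    split_ifs with h
    · exact (H i l h).1
    · exact (H l i (lt_of_le_of_ne (not_lt.1 h) (Ne.symm hi))).1.symm
  obtain ⟨x, hx1, hx2⟩ := Order.exists_between_finsets
    (((univ : Finset (Fin n)).filter (fun i => i ≠ l ∧ rk C (pr i) < t)).image
      (fun i => C (pr i).1 (pr i).2))
    (((univ : Finset (Fin n)).filter (fun i => i ≠ l ∧ ¬ rk C (pr i) < t)).image
      (fun i => C (pr i).1 (pr i).2)) (by
        intro x hx y hy
        obtain ⟨i, hi, rfl⟩ := mem_image.1 hx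
        obtain ⟨j, hj, rfl⟩ := mem_image.1 hy
        obtain ⟨-, hil, hit⟩ := mem_filter.1 hi
        obtain ⟨-, hjl, hjt⟩ := mem_filter.1 hj
        have h1 : rk C (pr i) < rk C (pr j) := by omega
        have h2 := (rk_lt_iff C (hpr i hil)).1 h1
        refine lt_of_le_of_ne (C_le_of_key h2.le) (fun h3 => ?_)
        have hij : i ≠ j := by rintro rfl; exact hjt hit
        have e1 := heq i hil
        have e2 := heq j hjl
        rw [← h3] at e2
        exact S i l j hil (Ne.symm hjl) hij _ ⟨e1, e2.symm⟩)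
  refine ⟨x, fun i => ?_⟩
  have m1 : i ≠ l → rk C (pr i) < t → C (pr i).1 (pr i).2 < x := fun h1 h2 =>
    hx1 _ (mem_image.2 ⟨i, mem_filter.2 ⟨mem_univ _, h1, h2⟩, rfl⟩)
  have m2 : i ≠ l → ¬ rk C (pr i) < t → x < C (pr i).1 (pr i).2 := fun h1 h2 =>
    hx2 _ (mem_image.2 ⟨i, mem_filter.2 ⟨mem_univ _, h1, h2⟩, rfl⟩)
  constructor
  · rintro (⟨h1, h2⟩ | ⟨h1, h2⟩)
    · have hp : pr i = (i, l) := by simp [pr, h1]
      have := m2 h1.ne (by rw [hp]; exact h2)
      rw [hp] at this
      exact (H i l h1).2.1 x this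
    · have hp : pr i = (l, i) := by simp [pr, not_lt.2 h1.le]
      have := m1 h1.ne' (by rw [hp]; exact h2)
      rw [hp] at this
      exact (H l i h1).2.2 x this
  · rintro (⟨h1, h2⟩ | ⟨h1, h2⟩)
    · have hp : pr i = (l, i) := by simp [pr, not_lt.2 h1.le]
      have := m2 h1.ne' (by rw [hp]; exact h2)
      rw [hp] at this
      exact (H l i h1).2.1 x this
    · have hp : pr i = (i, l) := by simp [pr, h1]
      have := m1 h1.ne (by rw [hp]; exact h2)
      rw [hp] at this
      exact (H i l h1).2.2 x this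

/-- the order at time `t`, for natural numbers as labels -/
def ltN (C : Fin n → Fin n → ℝ) (t : ℕ) (a b : ℕ) : Prop :=
  ∃ (ha : a < n) (hb : b < n), ltF C t ⟨a, ha⟩ ⟨b, hb⟩

theorem Good.ordFam (H : Good g C)
    (S : ∀ i j k : Fin n, i ≠ j → j ≠ k → i ≠ k → ∀ x, ¬ (g i x = g j x ∧ g j x = g k x)) :
    ∃ pa pb, OrdFam n (prs n).card (ltN C) pa pb := by
  classical
  have hch : ∀ t, ∃ p : ℕ × ℕ, t < (prs n).card → ∃ (h1 : p.1 < n) (h2 : p.2 < n), p.1 < p.2 ∧
      rk C (⟨p.1, h1⟩, ⟨p.2, h2⟩) = t := by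
    intro t
    by_cases ht : t < (prs n).card
    · obtain ⟨p, hp, h⟩ := exists_rk C ht
      exact ⟨(p.1, p.2), fun _ => ⟨p.1.2, p.2.2, by simpa [prs] using hp, h⟩⟩
    · exact ⟨(0, 0), fun h => absurd h ht⟩
  choose pr hpr using hch
  refine ⟨fun t => (pr t).1, fun t => (pr t).2, ?_, ?_, ?_, ?_, ?_, ?_, ?_, ?_, ?_⟩
  · intro a b ha hb
    constructor
    · rintro ⟨_, _, h | h⟩
      · exact h.1
      · exact absurd h.2 (Nat.not_lt_zero _)
    · intro h
      exact ⟨ha, hb, Or.inl ⟨h, Nat.not_lt_zero _⟩⟩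
  · intro a b ha hb
    constructor
    · rintro ⟨_, _, h | h⟩
      · exact absurd (rk_lt C (by simpa [prs] using h.1)) h.2
      · exact h.1
    · intro h
      exact ⟨ha, hb, Or.inr ⟨h, rk_lt C (by simpa [prs] using h)⟩⟩
  · rintro t _ a b _ _ ⟨_, _, h⟩ ⟨_, _, h'⟩
    exact ltF_asym C h h'
  · intro t _ a b ha hb hab
    rcases ltF_tot C (t := t) (a := ⟨a, ha⟩) (b := ⟨b, hb⟩) (fun h => hab (by simpa using h))
      with h | h
    · exact Or.inl ⟨ha, hb, h⟩
    · exact Or.inr ⟨hb, ha, h⟩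
  · rintro t _ a b c _ _ _ ⟨ha, hb, h⟩ ⟨_, hc, h'⟩
    exact ⟨ha, hc, H.trans S h h'⟩
  · intro t ht
    obtain ⟨h1, h2, h3, h4⟩ := hpr t ht
    exact ⟨h3, h2⟩
  · intro t ht
    obtain ⟨h1, h2, h3, h4⟩ := hpr t ht
    exact ⟨h1, h2, Or.inl ⟨h3, by rw [h4]; exact lt_irrefl _⟩⟩
  · intro t ht
    obtain ⟨h1, h2, h3, h4⟩ := hpr t ht
    exact ⟨h2, h1, Or.inr ⟨h3, by rw [h4]; exact Nat.lt_succ_self _⟩⟩
  · intro t ht a b ha hb n1 n2
    obtain ⟨h1, h2, h3, h4⟩ := hpr t ht
    -- a pair with number t is the pair number t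
    have key1 : ∀ (u v : Fin n), u < v → ¬ ((u : ℕ) = (pr t).1 ∧ (v : ℕ) = (pr t).2) →
        (rk C (u, v) < t + 1 ↔ rk C (u, v) < t) := by
      intro u v huv hne
      have : rk C (u, v) ≠ t := by
        intro h5
        have := rk_inj C (p := (u, v)) (q := (⟨(pr t).1, h1⟩, ⟨(pr t).2, h2⟩))
          (by simpa [prs] using huv) (by simpa [prs] using h3) (h5.trans h4.symm)
        rw [Prod.mk.injEq] at this
        exact hne ⟨congrArg Fin.val this.1, congrArg Fin.val this.2⟩
      omega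
    constructor
    · rintro ⟨_, _, h | h⟩
      · exact ⟨ha, hb, Or.inl ⟨h.1, fun h' => h.2 ((key1 _ _ h.1 n1).2 h')⟩⟩
      · exact ⟨ha, hb, Or.inr ⟨h.1, (key1 _ _ h.1 (fun h' => n2 ⟨h'.2, h'.1⟩)).1 h.2⟩⟩
    · rintro ⟨_, _, h | h⟩
      · exact ⟨ha, hb, Or.inl ⟨h.1, fun h' => h.2 ((key1 _ _ h.1 n1).1 h')⟩⟩
      · exact ⟨ha, hb, Or.inr ⟨h.1, (key1 _ _ h.1 (fun h' => n2 ⟨h'.2, h'.1⟩)).2 h.2⟩⟩

end

/-- Every simple arrangement has a sorting network: e i is the pseudoline with label i, and for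
every time t and position k there is a point x at which the pseudoline at position k has exactly
the pseudolines of F t k (strictly) below it and all the others strictly above it. -/
theorem bridge (A : Arrangement n) (hA : A.Simple) :
    ∃ (N : Net n) (e : Fin n ≃ Fin n), ∀ t k, t ≤ N.T → k < n → ∀ l : Fin n, (l : ℕ) = N.ln t k →
      ∃ x, ∀ i : Fin n, ((i : ℕ) ∈ N.F t k → A.f (e i) x < A.f (e l) x) ∧
        ((i : ℕ) ∉ N.F t (k + 1) → A.f (e l) x < A.f (e i) x) := by
  obtain ⟨e, C, hC⟩ := A.exists_labels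
  have H : Good (fun a => A.f (e a)) C := hC
  have S : ∀ i j k : Fin n, i ≠ j → j ≠ k → i ≠ k → ∀ x,
      ¬ (A.f (e i) x = A.f (e j) x ∧ A.f (e j) x = A.f (e k) x) := by
    intro i j k h1 h2 h3 x
    exact hA _ _ _ (fun h => h1 (e.injective h)) (fun h => h2 (e.injective h))
      (fun h => h3 (e.injective h)) x
  obtain ⟨pa, pb, O⟩ := H.ordFam S
  obtain ⟨N, hN, hI⟩ := O.exists_net
  refine ⟨N, e, fun t k ht hk l hl => ?_⟩
  obtain ⟨x, hx⟩ := H.realize S t l
  have I := hI t (hN ▸ ht)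
  refine ⟨x, fun i => ⟨fun hi => ?_, fun hi => ?_⟩⟩
  · obtain ⟨j, hj, hji⟩ := (N.mem_F).1 hi
    have h := I.srt j k hj hk
    rw [hji, ← hl] at h
    obtain ⟨_, _, h⟩ := h
    exact (hx i).1 h
  · obtain ⟨j, hj, hji⟩ := I.surj i i.2
    have hkj : k < j := by
      by_contra hc
      exact hi ((N.mem_F).2 ⟨j, by omega, hji⟩)
    have h := I.srt k j hkj hj
    rw [hji, ← hl] at h
    obtain ⟨_, _, h⟩ := h
    exact (hx i).2 h

end PLA
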