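import Pool.Agent.PLA.Basic

/-!
# Monochromatic cells
-/

namespace PLA

open Finset

variable {n : ℕ} (N : Net n)

namespace Net

/-- the four faces around the crossing number t -/
def Around (N : Net n) (t : ℕ) (X : Finset ℕ) : Prop :=
  X = N.F t (N.kp t) ∨ X = N.F t (N.kp t + 1) ∨ X = N.F (t + 1) (N.kp t + 1) ∨
    X = N.F t (N.kp t + 2)

private theorem cycle4 {α : Type*} {R : α → α → Prop} {a b c d : α} (h1 : R a b) (h2 : R b c)
    (h3 : R c d) (h4 : R d a) {x y : α} (hx : x = a ∨ x = b ∨ x = c ∨ x = d)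
    (hy : y = a ∨ y = b ∨ y = c ∨ y = d) : Relation.ReflTransGen R x y := by
  have r1 : Relation.ReflTransGen R a b := .single h1
  have r2 : Relation.ReflTransGen R b c := .single h2
  have r3 : Relation.ReflTransGen R c d := .single h3
  have r4 : Relation.ReflTransGen R d a := .single h4
  have hxa : Relation.ReflTransGen R x a := by
    rcases hx with rfl | rfl | rfl | rfl
    · exact .refl
    · exact (r2.trans r3).trans r4
    · exact r3.trans r4
    · exact r4
  have hay : Relation.ReflTransGen R a y := by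
    rcases hy with rfl | rfl | rfl | rfl
    · exact .refl
    · exact r1
    · exact r1.trans r2
    · exact (r1.trans r2).trans r3
  exact hxa.trans hay

/-- The four faces around a red-blue crossing form a directed 4-cycle. -/
theorem four_cycle {m : ℕ} {ω : Finset ℕ} {S : Set (ℕ × ℕ)} {t : ℕ} (ht : t < N.T)
    (hc : N.ln t (N.kp t) ∈ ω ↔ N.ln t (N.kp t + 1) ∉ ω)
    (hS : ∀ X, N.Around t X → cd m X ∈ S) {X Y : Finset ℕ} (hX : N.Around t X)
    (hY : N.Around t Y) : N.Reach m ω S X Y := by
  have hk := N.kp_lt t ht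
  have sa := hS _ (Or.inl rfl)
  have sb := hS _ (Or.inr (Or.inl rfl))
  have sc := hS _ (Or.inr (Or.inr (Or.inl rfl)))
  have sd := hS _ (Or.inr (Or.inr (Or.inr rfl)))
  have eA : N.F (t + 1) (N.kp t) = N.F t (N.kp t) := N.F_step_ne ht (by omega)
  have eD : N.F (t + 1) (N.kp t + 2) = N.F t (N.kp t + 2) := N.F_step_ne ht (by omega)
  have lo := N.ln_lo t ht
  have hi := N.ln_hi t ht
  have hev : Even (N.kp t + 1) ↔ ¬ Even (N.kp t) := Nat.even_add_one
  unfold Around at hX hY
  by_cases P : (Even (N.kp t) ↔ N.ln t (N.kp t) ∉ ω)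
  · -- a → b → d → c → a
    have h1 : N.RA m ω S (N.F t (N.kp t)) (N.F t (N.kp t + 1)) :=
      ⟨⟨t, N.kp t, by omega, by omega, Or.inl ⟨rfl, rfl, P⟩⟩, sa, sb⟩
    have h2 : N.RA m ω S (N.F t (N.kp t + 1)) (N.F t (N.kp t + 2)) :=
      ⟨⟨t, N.kp t + 1, by omega, by omega, Or.inl ⟨rfl, rfl, by tauto⟩⟩, sb, sd⟩
    have h3 : N.RA m ω S (N.F t (N.kp t + 2)) (N.F (t + 1) (N.kp t + 1)) :=
      ⟨⟨t + 1, N.kp t + 1, by omega, by omega, Or.inr ⟨eD.symm, rfl, by rw [hi]; tauto⟩⟩, sd, sc⟩
    have h4 : N.RA m ω S (N.F (t + 1) (N.kp t + 1)) (N.F t (N.kp t)) :=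
      ⟨⟨t + 1, N.kp t, by omega, by omega, Or.inr ⟨rfl, eA.symm, by rw [lo]; tauto⟩⟩, sc, sa⟩
    exact cycle4 h1 h2 h3 h4 (by tauto) (by tauto)
  · have h1 : N.RA m ω S (N.F t (N.kp t + 1)) (N.F t (N.kp t)) :=
      ⟨⟨t, N.kp t, by omega, by omega, Or.inr ⟨rfl, rfl, by tauto⟩⟩, sb, sa⟩
    have h2 : N.RA m ω S (N.F t (N.kp t)) (N.F (t + 1) (N.kp t + 1)) :=
      ⟨⟨t + 1, N.kp t, by omega, by omega, Or.inl ⟨eA.symm, rfl, by rw [lo]; tauto⟩⟩, sa, sc⟩
    have h3 : N.RA m ω S (N.F (t + 1) (N.kp t + 1)) (N.F t (N.kp t + 2)) :=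
      ⟨⟨t + 1, N.kp t + 1, by omega, by omega, Or.inl ⟨rfl, eD.symm, by rw [hi]; tauto⟩⟩, sc, sd⟩
    have h4 : N.RA m ω S (N.F t (N.kp t + 2)) (N.F t (N.kp t + 1)) :=
      ⟨⟨t, N.kp t + 1, by omega, by omega, Or.inr ⟨rfl, rfl, by tauto⟩⟩, sd, sb⟩
    exact cycle4 h1 h2 h3 h4 (by tauto) (by tauto)

private theorem insert_sdiff_red {ω A : Finset ℕ} {x : ℕ} (hx : x ∈ ω) :
    insert x A \ ω = A \ ω := Finset.insert_sdiff_of_mem _ hx

private theorem isFace_around {t : ℕ} (ht : t < N.T) {X : Finset ℕ} (h : N.Around t X) :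
    N.IsFace X := by
  have hk := N.kp_lt t ht
  rcases h with rfl | rfl | rfl | rfl
  · exact ⟨t, _, by omega, by omega, rfl⟩
  · exact ⟨t, _, by omega, by omega, rfl⟩
  · exact ⟨t + 1, _, by omega, by omega, rfl⟩
  · exact ⟨t, _, by omega, by omega, rfl⟩

private theorem card_around {t : ℕ} (ht : t < N.T) {X Y : Finset ℕ} (hX : N.Around t X)
    (hY : N.Around t Y) : (symmDiff X Y).card ≤ 2 := by
  have key : ∀ Z, N.Around t Z → N.F t (N.kp t) ⊆ Z ∧ Z ⊆ N.F t (N.kp t + 2) := by
    intro Z hZ
    rcases hZ with rfl | rfl | rfl | rfl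
    · exact ⟨le_rfl, N.F_mono (by omega)⟩
    · exact ⟨N.F_mono (by omega), N.F_mono (by omega)⟩
    · rw [N.F_step ht]
      refine ⟨Finset.subset_insert _ _, ?_⟩
      intro a ha
      rcases Finset.mem_insert.mp ha with rfl | ha
      · exact N.ln_mem_F (by omega)
      · exact N.F_mono (by omega) ha
    · exact ⟨N.F_mono (by omega), le_rfl⟩
  obtain ⟨x1, x2⟩ := key X hX
  obtain ⟨y1, y2⟩ := key Y hY
  have hsub : symmDiff X Y ⊆ {N.ln t (N.kp t), N.ln t (N.kp t + 1)} := by
    intro a ha
    have ha2 : a ∈ N.F t (N.kp t + 2) ∧ a ∉ N.F t (N.kp t) := by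
      rcases Finset.mem_symmDiff.mp ha with ⟨h1, h2⟩ | ⟨h1, h2⟩
      · exact ⟨x2 h1, fun h => h2 (y1 h)⟩
      · exact ⟨y2 h1, fun h => h2 (x1 h)⟩
    obtain ⟨j, hj, rfl⟩ := (N.mem_F).mp ha2.1
    have hj2 : ¬ j < N.kp t := fun h => ha2.2 (N.ln_mem_F h)
    have : j = N.kp t ∨ j = N.kp t + 1 := by omega
    rcases this with rfl | rfl <;> simp
  exact (Finset.card_le_card hsub).trans Finset.card_le_two

/-- All faces with a blue edge in one cell of the blue arrangement are mutually reachable (the
cell is given by the set C of blue lines below it; S contains the neighbourhood of the cell; the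
cell does not reach time 0).

Proof: let t0 be the first time at which a face of the cell is present. By induction on t, all
faces F t k of the cell with ln t k blue, or with ln t (k - 1) blue, are mutually reachable with
the face F t0 (kp (t0 - 1) + 1): at time t - 1 look at the position of the swap; the face either
keeps its blue edge, or it shares the red-blue crossing number t - 1 with a face of the cell
having a blue edge at time t - 1, or both lines of the swap are blue and then (Net.persist) the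
cell was not present before t, i.e. t = t0. -/
theorem phi_conn {m : ℕ} {ω : Finset ℕ} {S : Set (ℕ × ℕ)} {C : Finset ℕ}
    (h0 : ∀ k ≤ n, N.F 0 k \ ω ≠ C)
    (hS : ∀ Y, N.IsFace Y → Y \ ω = C → ∀ Z, N.IsFace Z → (symmDiff Y Z).card ≤ 2 → cd m Z ∈ S)
    {Y Y' : Finset ℕ} (hY : N.HasEdge (fun i => i ∉ ω) Y) (hY' : N.HasEdge (fun i => i ∉ ω) Y')
    (eY : Y \ ω = C) (eY' : Y' \ ω = C) : N.Reach m ω S Y Y' := by
  classical
  -- existence of a birth time
  have hex : ∃ t, ∃ k ≤ n, N.F t k \ ω = C := by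
    obtain ⟨t, k, ht, hk, rfl, -⟩ := hY
    exact ⟨t, k, hk, eY⟩
  set t0 := Nat.find hex with ht0
  obtain ⟨k1, hk1, e1⟩ := Nat.find_spec hex
  rw [← ht0] at e1
  have hmin : ∀ t k, k ≤ n → N.F t k \ ω = C → t0 ≤ t := by
    intro t k hk e
    exact Nat.find_min' hex ⟨k, hk, e⟩
  set B := N.F t0 k1 with hB
  -- the faces of the cell at time t0
  have hpos : t0 ≠ 0 := by
    intro h
    rw [hB, h] at e1
    exact h0 k1 hk1 e1
  -- the connection statement at a crossing
  have hcross : ∀ t, t < N.T → (N.ln t (N.kp t) ∈ ω ↔ N.ln t (N.kp t + 1) ∉ ω) →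
      ∀ X X', N.Around t X → N.Around t X' → X \ ω = C → N.Reach m ω S X X' ∧
        N.Reach m ω S X' X := by
    intro t ht hc X X' hX hX' eX
    have hS' : ∀ Z, N.Around t Z → cd m Z ∈ S := fun Z hZ =>
      hS X (isFace_around N ht hX) eX Z (isFace_around N ht hZ) (card_around N ht hX hZ)
    exact ⟨N.four_cycle ht hc hS' hX hX', N.four_cycle ht hc hS' hX' hX⟩
  -- induction over time
  have main : ∀ t, t0 ≤ t → t ≤ N.T → ∀ k ≤ n, N.F t k \ ω = C →
      ((k < n ∧ N.ln t k ∉ ω) ∨ (0 < k ∧ N.ln t (k - 1) ∉ ω)) →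
      N.Reach m ω S (N.F t k) B ∧ N.Reach m ω S B (N.F t k) := by
    intro t ht
    induction t, ht using Nat.le_induction with
    | base =>
      intro htT k hk e _
      -- only one face of the cell at time t0
      obtain ⟨s, hs⟩ : ∃ s, t0 = s + 1 := ⟨t0 - 1, by omega⟩
      have hst : s < N.T := by omega
      have uniq : ∀ k ≤ n, N.F t0 k \ ω = C → k = N.kp s + 1 := by
        intro k hk e
        by_contra hne
        rw [hs, N.F_step_ne hst hne] at e
        have := hmin s k hk e
        omega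
      have a1 := uniq k hk e
      have a2 := uniq k1 hk1 e1
      rw [hB, a1, a2]
      exact ⟨.refl, .refl⟩
    | succ t ht ih =>
      intro htT k hk e hE
      have htlt : t < N.T := by omega
      have ih := ih (by omega)
      have hkp := N.kp_lt t htlt
      have lo := N.ln_lo t htlt
      have hi := N.ln_hi t htlt
      have hasc := N.asc t htlt
      by_cases h1 : k = N.kp t + 1
      · subst h1
        have hstep := N.F_step htlt
        have hE' : N.ln t (N.kp t) ∉ ω ∨ N.ln t (N.kp t + 1) ∉ ω := by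
          rcases hE with ⟨_, h⟩ | ⟨_, h⟩
          · left; rwa [hi] at h
          · right
            rw [Nat.add_sub_cancel, lo] at h
            exact h
        have hA : N.Around t (N.F (t + 1) (N.kp t + 1)) := Or.inr (Or.inr (Or.inl rfl))
        by_cases hx : N.ln t (N.kp t) ∈ ω
        · have hy : N.ln t (N.kp t + 1) ∉ ω := by tauto
          -- the face above
          have hA2 : N.Around t (N.F t (N.kp t + 2)) := Or.inr (Or.inr (Or.inr rfl))
          have e2 : N.F t (N.kp t + 2) \ ω = C := by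
            rw [← e, hstep, N.F_succ, N.F_succ, Finset.insert_comm, insert_sdiff_red hx]
          have hr := hcross t htlt (by tauto) _ _ hA2 hA e2
          have hi2 := ih (N.kp t + 2) (by omega) e2 (Or.inr ⟨by omega, hy⟩)
          exact ⟨hr.2.trans hi2.1, hi2.2.trans hr.1⟩
        · by_cases hy : N.ln t (N.kp t + 1) ∈ ω
          · have hA2 : N.Around t (N.F t (N.kp t)) := Or.inl rfl
            have e2 : N.F t (N.kp t) \ ω = C := by
              rw [← e, hstep, insert_sdiff_red hy]
            have hr := hcross t htlt (by tauto) _ _ hA2 hA e2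
            have hi2 := ih (N.kp t) (by omega) e2 (Or.inl ⟨by omega, hx⟩)
            exact ⟨hr.2.trans hi2.1, hi2.2.trans hr.1⟩
          · -- both lines blue: impossible, since the cell was born at t0 ≤ t
            exfalso
            have hyC : N.ln t (N.kp t + 1) ∈ C := by
              rw [← e, hstep]
              exact Finset.mem_sdiff.mpr ⟨Finset.mem_insert_self _ _, hy⟩
            have hxC : N.ln t (N.kp t) ∉ C := by
              rw [← e]
              intro h
              have h := (Finset.mem_sdiff.mp h).1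
              rw [← hi] at h
              exact N.ln_notMem_F (t := t + 1) (by omega) le_rfl h
            obtain ⟨i', j', hij, hi', hj'⟩ := N.persist (t := t0) (t' := t) ht (by omega) hasc
              (i := N.kp t) (j := N.kp t + 1) (by omega) rfl rfl
            rw [← e1, hB] at hyC hxC
            have hy2 := (Finset.mem_sdiff.mp hyC).1
            rw [← hj', N.mem_F] at hy2
            obtain ⟨j2, hj2, hj3⟩ := hy2
            have hj4 := N.ln_inj (t := t0) (by omega) hj3
            apply hxC
            refine Finset.mem_sdiff.mpr ⟨?_, hx⟩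
            rw [← hi']
            exact N.ln_mem_F (by omega)
      · have eF : N.F (t + 1) k = N.F t k := N.F_step_ne htlt h1
        rw [eF] at e ⊢
        by_cases h2 : k = N.kp t
        · subst h2
          rcases hE with ⟨_, h⟩ | ⟨hk0, h⟩
          · rw [lo] at h
            by_cases hx : N.ln t (N.kp t) ∈ ω
            · have hA1 : N.Around t (N.F t (N.kp t)) := Or.inl rfl
              have hA2 : N.Around t (N.F t (N.kp t + 1)) := Or.inr (Or.inl rfl)
              have e2 : N.F t (N.kp t + 1) \ ω = C := by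
                rw [← e, N.F_succ, insert_sdiff_red hx]
              have hr := hcross t htlt (by tauto) _ _ hA2 hA1 e2
              have hi2 := ih (N.kp t + 1) (by omega) e2 (Or.inl ⟨by omega, h⟩)
              exact ⟨hr.2.trans hi2.1, hi2.2.trans hr.1⟩
            · exact ih _ hk e (Or.inl ⟨by omega, hx⟩)
          · rw [N.ln_ne t htlt _ (by omega) (by omega)] at h
            exact ih _ hk e (Or.inr ⟨hk0, h⟩)
        · by_cases h3 : k = N.kp t + 2
          · subst h3
            rcases hE with ⟨hk0, h⟩ | ⟨hk0, h⟩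
            · rw [N.ln_ne t htlt _ (by omega) (by omega)] at h
              exact ih _ hk e (Or.inl ⟨hk0, h⟩)
            · have h4 : N.kp t + 2 - 1 = N.kp t + 1 := by omega
              rw [h4, hi] at h
              by_cases hy : N.ln t (N.kp t + 1) ∈ ω
              · have hA1 : N.Around t (N.F t (N.kp t + 2)) := Or.inr (Or.inr (Or.inr rfl))
                have hA2 : N.Around t (N.F t (N.kp t + 1)) := Or.inr (Or.inl rfl)
                have e2 : N.F t (N.kp t + 1) \ ω = C := by
                  rw [← e, N.F_succ t (N.kp t + 1), insert_sdiff_red hy]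
                have hr := hcross t htlt (by tauto) _ _ hA2 hA1 e2
                have hi2 := ih (N.kp t + 1) (by omega) e2
                  (Or.inr ⟨by omega, by rw [Nat.add_sub_cancel]; exact h⟩)
                exact ⟨hr.2.trans hi2.1, hi2.2.trans hr.1⟩
              · exact ih _ hk e (Or.inr ⟨hk0, by rw [h4]; exact hy⟩)
          · rcases hE with ⟨hk0, h⟩ | ⟨hk0, h⟩
            · rw [N.ln_ne t htlt _ h2 h1] at h
              exact ih _ hk e (Or.inl ⟨hk0, h⟩)
            · rw [N.ln_ne t htlt _ (by omega) (by omega)] at h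
              exact ih _ hk e (Or.inr ⟨hk0, h⟩)
  obtain ⟨t, k, ht, hk, rfl, hE⟩ := hY
  obtain ⟨t', k', ht', hk', rfl, hE'⟩ := hY'
  have r1 := (main t (hmin t k hk eY) ht k hk eY hE).1
  have r2 := (main t' (hmin t' k' hk' eY') ht' k' hk' eY' hE').2
  exact r1.trans r2

end Net

end PLA
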