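import Pool.Agent.PLA.Basic

/-!
# Monochromatic cells are connected, and small under the event Ev
-/

namespace PLA

open Finset

variable {n : ℕ} (N : Net n)

namespace Net

/-- crossing a red edge -/
def RedStep (N : Net n) (ω : Finset ℕ) (X Y : Finset ℕ) : Prop :=
  ∃ t k, t ≤ N.T ∧ k < n ∧ N.ln t k ∈ ω ∧
    ((X = N.F t k ∧ Y = N.F t (k + 1)) ∨ (X = N.F t (k + 1) ∧ Y = N.F t k))

private theorem redStep_symm {ω X Y : Finset ℕ} (h : N.RedStep ω X Y) : N.RedStep ω Y X := by
  obtain ⟨t, k, h1, h2, h3, h4⟩ := h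
  refine ⟨t, k, h1, h2, h3, ?_⟩
  rcases h4 with ⟨h4, h5⟩ | ⟨h4, h5⟩
  · exact Or.inr ⟨h5, h4⟩
  · exact Or.inl ⟨h5, h4⟩

private theorem reach_symm {ω X Y : Finset ℕ} (h : Relation.ReflTransGen (N.RedStep ω) X Y) :
    Relation.ReflTransGen (N.RedStep ω) Y X := by
  induction h with
  | refl => exact Relation.ReflTransGen.refl
  | tail _ h2 ih => exact Relation.ReflTransGen.head (N.redStep_symm h2) ih

private theorem sdiff_succ {ω : Finset ℕ} {t k : ℕ} (h : N.ln t k ∈ ω) :
    N.F t (k + 1) \ ω = N.F t k \ ω := by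
  rw [F_succ]
  ext a
  simp only [mem_sdiff, mem_insert]
  constructor
  · rintro ⟨h1 | h1, h2⟩
    · rw [h1] at h2; exact absurd h h2
    · exact ⟨h1, h2⟩
  · rintro ⟨h1, h2⟩; exact ⟨Or.inr h1, h2⟩

/-- The position of a line below a face. -/
private theorem pos_lt {t k i : ℕ} (ht : t ≤ N.T) (h : N.ln t i ∈ N.F t k) : i < k := by
  by_contra h1
  exact N.ln_notMem_F ht (by omega) h

/-- The cell is present at all times between two times at which it is present. -/
private theorem present {ω : Finset ℕ} {t t' s k k' : ℕ} (hts : t ≤ s) (hst : s ≤ t')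
    (ht' : t' ≤ N.T) (hk : k ≤ n) (hk' : k' ≤ n) (e : N.F t k \ ω = N.F t' k' \ ω) :
    ∃ j ≤ n, N.F s j \ ω = N.F t k \ ω := by
  classical
  set c := N.F t k \ ω with hc
  set Pos := (range n).filter (fun i => N.ln s i ∈ c) with hPos
  set j := Pos.sup (fun i => i + 1) with hj
  have hjn : j ≤ n := by
    rw [hj]
    refine Finset.sup_le fun i hi => ?_
    rw [hPos, mem_filter, mem_range] at hi
    omega
  refine ⟨j, hjn, ?_⟩
  ext a
  constructor
  · intro ha
    rw [mem_sdiff] at ha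
    obtain ⟨ha1, ha2⟩ := ha
    rw [mem_F] at ha1
    obtain ⟨i, hij, rfl⟩ := ha1
    by_contra hv
    rw [hj] at hij
    obtain ⟨i0, hi0, hlt⟩ := (Finset.lt_sup_iff).mp hij
    rw [hPos, mem_filter, mem_range] at hi0
    have hne : i ≠ i0 := by
      intro h; rw [h] at hv; exact hv hi0.2
    have hii : i < i0 := by omega
    -- v = ln s i is not in c, u = ln s i0 is in c
    have hu1 : N.ln s i0 ∈ N.F t k := (mem_sdiff.mp (hc ▸ hi0.2)).1
    have hu2 : N.ln s i0 ∈ N.F t' k' := by
      have := hi0.2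
      rw [e] at this
      exact (mem_sdiff.mp this).1
    have hv1 : N.ln s i ∉ N.F t k := by
      intro h; exact hv (hc ▸ mem_sdiff.mpr ⟨h, ha2⟩)
    have hv2 : N.ln s i ∉ N.F t' k' := by
      intro h
      apply hv
      rw [e]
      exact mem_sdiff.mpr ⟨h, ha2⟩
    rcases lt_trichotomy (N.ln s i0) (N.ln s i) with h | h | h
    · obtain ⟨p, hp⟩ := N.ln_surj ht' (N.ln s i0)
      obtain ⟨q, hq⟩ := N.ln_surj ht' (N.ln s i)
      have hp1 : p < k' := N.pos_lt ht' (by rw [hp]; exact hu2)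
      have hq1 : k' ≤ q := by
        by_contra h1
        apply hv2
        rw [← hq]
        exact N.ln_mem_F (by omega)
      obtain ⟨i', j', h1, h2, h3⟩ := N.persist hst ht' h (by omega : p < q) hp hq
      have h4 := N.ln_inj (hst.trans ht') h2
      have h5 := N.ln_inj (hst.trans ht') h3
      omega
    · have := N.ln_inj (hst.trans ht') h
      omega
    · obtain ⟨i', j', h1, h2, h3⟩ := N.persist hts (hst.trans ht') h hii rfl rfl
      have h4 : j' < k := N.pos_lt ((hts.trans hst).trans ht') (by rw [h3]; exact hu1)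
      apply hv1
      rw [← h2]
      exact N.ln_mem_F (by omega)
  · intro ha
    have ha1 := mem_sdiff.mp (hc ▸ ha)
    rw [mem_sdiff]
    refine ⟨?_, ha1.2⟩
    obtain ⟨p, hp⟩ := N.ln_surj (hst.trans ht') a
    have hpn : p < n := by
      by_contra h
      have h1 : a < n := mem_range.mp (N.F_subset_range ((hts.trans hst).trans ht') hk ha1.1)
      have h2 := N.ln_ge (hst.trans ht') (j := p) (by omega)
      omega
    have hpj : p + 1 ≤ j := by
      rw [hj]
      refine Finset.le_sup (f := fun i => i + 1) ?_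
      rw [hPos, mem_filter, mem_range]
      exact ⟨hpn, by rw [hp]; exact ha⟩
    rw [← hp]
    exact N.ln_mem_F (by omega)

private theorem slice {ω : Finset ℕ} {s k k' : ℕ} (hs : s ≤ N.T) (hkk : k ≤ k') (hk' : k' ≤ n)
    (e : N.F s k \ ω = N.F s k' \ ω) :
    Relation.ReflTransGen (N.RedStep ω) (N.F s k) (N.F s k') := by
  induction k', hkk using Nat.le_induction with
  | base => exact Relation.ReflTransGen.refl
  | succ j hj ih =>
    have h1 : N.ln s j ∈ ω := by
      by_contra h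
      have h2 : N.ln s j ∈ N.F s (j + 1) \ ω := mem_sdiff.mpr ⟨N.ln_mem_F (by omega), h⟩
      rw [← e] at h2
      exact N.ln_notMem_F hs hj (mem_sdiff.mp h2).1
    have h2 := N.sdiff_succ h1
    exact (ih (by omega) (e.trans h2)).tail ⟨s, j, hs, by omega, h1, Or.inl ⟨rfl, rfl⟩⟩

private theorem slice' {ω : Finset ℕ} {s k k' : ℕ} (hs : s ≤ N.T) (hk : k ≤ n) (hk' : k' ≤ n)
    (e : N.F s k \ ω = N.F s k' \ ω) :
    Relation.ReflTransGen (N.RedStep ω) (N.F s k) (N.F s k') := by
  rcases le_total k k' with h | h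
  · exact N.slice hs h hk' e
  · exact N.reach_symm (N.slice hs h hk e.symm)

private theorem conn_aux {ω : Finset ℕ} {t t' k k' : ℕ} (htt : t ≤ t') (ht' : t' ≤ N.T)
    (hk : k ≤ n) (hk' : k' ≤ n) (e : N.F t k \ ω = N.F t' k' \ ω) :
    ∀ s, t ≤ s → s ≤ t' → ∀ j ≤ n, N.F s j \ ω = N.F t k \ ω →
      Relation.ReflTransGen (N.RedStep ω) (N.F t k) (N.F s j) := by
  intro s hts
  induction s, hts using Nat.le_induction with
  | base =>
    intro _ j hj h
    exact N.slice' (htt.trans ht') hk hj h.symm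
  | succ s hts ih =>
    intro hs j hj h
    have ih := ih (by omega)
    have hsT : s < N.T := by omega
    by_cases hjp : j = N.kp s + 1
    · have hkp := N.kp_lt s hsT
      subst hjp
      by_cases hb : N.ln s (N.kp s + 1) ∈ ω
      · -- go down
        have hb' : N.ln (s + 1) (N.kp s) ∈ ω := by rw [N.ln_lo s hsT]; exact hb
        have h1 := N.sdiff_succ hb'
        have h2 : N.F (s + 1) (N.kp s) = N.F s (N.kp s) := N.F_step_ne hsT (by omega)
        have h3 := ih (N.kp s) (by omega) (by rw [← h2, ← h1, h])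
        rw [← h2] at h3
        exact h3.tail ⟨s + 1, N.kp s, by omega, by omega, hb', Or.inl ⟨rfl, rfl⟩⟩
      · by_cases ha : N.ln s (N.kp s) ∈ ω
        · have ha' : N.ln (s + 1) (N.kp s + 1) ∈ ω := by rw [N.ln_hi s hsT]; exact ha
          have h1 := N.sdiff_succ ha'
          have h2 : N.F (s + 1) (N.kp s + 1 + 1) = N.F s (N.kp s + 1 + 1) :=
            N.F_step_ne hsT (by omega)
          have h3 := ih (N.kp s + 1 + 1) (by omega) (by rw [← h2, h1, h])
          rw [← h2] at h3
          exact h3.tail ⟨s + 1, N.kp s + 1, by omega, by omega, ha', Or.inr ⟨rfl, rfl⟩⟩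
        · exfalso
          obtain ⟨i, hi, h1⟩ := N.present (s := s) hts (by omega) ht' hk hk' e
          have h2 : N.ln s (N.kp s + 1) ∈ N.F (s + 1) (N.kp s + 1) \ ω := by
            rw [mem_sdiff, ← N.ln_lo s hsT]
            exact ⟨N.ln_mem_F (by omega), by rw [N.ln_lo s hsT]; exact hb⟩
          have h3 : N.ln s (N.kp s) ∉ N.F (s + 1) (N.kp s + 1) \ ω := by
            rw [mem_sdiff, ← N.ln_hi s hsT]
            rintro ⟨h4, _⟩
            exact N.ln_notMem_F (by omega) (le_refl _) h4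
          rw [h, ← h1] at h2 h3
          have h4 : N.kp s + 1 < i := N.pos_lt hsT.le (mem_sdiff.mp h2).1
          exact h3 (mem_sdiff.mpr ⟨N.ln_mem_F (by omega), ha⟩)
    · have h2 : N.F (s + 1) j = N.F s j := N.F_step_ne hsT hjp
      rw [h2] at h ⊢
      exact ih j hj h

/-- A cell of the blue arrangement is connected through red edges. -/
theorem cell_conn {ω : Finset ℕ} {X Y : Finset ℕ} (hX : N.IsFace X) (hY : N.IsFace Y)
    (e : X \ ω = Y \ ω) : Relation.ReflTransGen (N.RedStep ω) X Y := by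
  obtain ⟨t, k, ht, hk, rfl⟩ := hX
  obtain ⟨t', k', ht', hk', rfl⟩ := hY
  rcases le_total t t' with h | h
  · exact N.conn_aux h ht' hk hk' e t' h le_rfl k' hk' e.symm
  · exact N.reach_symm (N.conn_aux h ht hk' hk e.symm t h le_rfl k hk e)

/-- Under the event Ev, cells of the blue arrangement are small. -/
theorem cell_small {m : ℕ} {ω : Finset ℕ} {a1 a2 b1 b2 s : ℕ} (hs : 1 ≤ s)
    (E : N.Ev m (Rc a1 a2 b1 b2) s ω) {h : Finset ℕ} (hh : N.IsFace h)
    (ch : cd m h ∈ Rc (a1 + s) (a2 - s) (b1 + s) (b2 - s)) {Y : Finset ℕ} (hY : N.IsFace Y)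
    (e : Y \ ω = h \ ω) : (symmDiff h Y).card < s := by
  have hconn := N.cell_conn hh hY e.symm
  obtain ⟨c1, c2, c3, c4⟩ := ch
  simp only [cd] at c1 c2 c3 c4
  have key : ∀ Z, Relation.ReflTransGen (N.RedStep ω) h Z →
      N.IsFace Z ∧ Z \ ω = h \ ω ∧ (symmDiff h Z).card < s := by
    intro Z hZ
    induction hZ with
    | refl => exact ⟨hh, rfl, by rw [symmDiff_self]; simp only [Finset.bot_eq_empty, card_empty]; omega⟩
    | tail _ hstep ih =>
      rename_i Z Z' _
      obtain ⟨hZ, eZ, cZ⟩ := ih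
      obtain ⟨t, k, ht, hk, hω, h1⟩ := hstep
      have hsd := N.sdiff_succ hω
      have hcard := N.card_symmDiff_succ (X := h) (k := k) ht
      have hZ' : N.IsFace Z' ∧ Z' \ ω = h \ ω ∧ (symmDiff h Z').card ≤ s := by
        rcases h1 with ⟨h1, h2⟩ | ⟨h1, h2⟩
        · subst h1; subst h2
          exact ⟨N.isFace_F ht (by omega), hsd.trans eZ, by omega⟩
        · subst h1; subst h2
          exact ⟨N.isFace_F ht (by omega), hsd.symm.trans eZ, by omega⟩
      refine ⟨hZ'.1, hZ'.2.1, lt_of_le_of_ne hZ'.2.2 fun heq => ?_⟩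
      have d1 := ca_le (X := h) (Y := Z') m
      have d2 := ca_le (X := Z') (Y := h) m
      have d3 := cb_le (X := h) (Y := Z') m
      have d4 := cb_le (X := Z') (Y := h) m
      rw [symmDiff_comm Z' h] at d2 d4
      rw [heq] at d1 d2 d3 d4
      have hin : cd m Z' ∈ Rc a1 a2 b1 b2 := by
        refine ⟨?_, ?_, ?_, ?_⟩ <;> simp only [cd] <;> omega
      have hin' : cd m h ∈ Rc a1 a2 b1 b2 := by
        refine ⟨?_, ?_, ?_, ?_⟩ <;> simp only [cd] <;> omega
      refine (E h Z' hh hZ'.1 hin' hin heq).1 ?_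
      intro a ha
      by_contra haω
      rw [Finset.mem_symmDiff] at ha
      rcases ha with ⟨h2, h3⟩ | ⟨h2, h3⟩
      · have : a ∈ h \ ω := mem_sdiff.mpr ⟨h2, haω⟩
        rw [← hZ'.2.1] at this
        exact h3 (mem_sdiff.mp this).1
      · have : a ∈ Z' \ ω := mem_sdiff.mpr ⟨h2, haω⟩
        rw [hZ'.2.1] at this
        exact h3 (mem_sdiff.mp this).1
  exact (key Y hconn).2.2

end Net

end PLA
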