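import Pool.Agent.PLA.Basic

/-!
# Sweeping a rectangle of lattice points

At every time the faces form a monotone staircase of lattice points (ca nondecreasing, cb
nonincreasing along the gaps, Net.ca_succ, Net.cb_succ); a swap at position kp t changes only the
face in gap kp t + 1.
-/

namespace PLA

open Finset

variable {n : ℕ} (N : Net n)

namespace Net

private theorem Sweep.mem_Rc {m v1 v2 w1 w2 : ℕ} {X : Finset ℕ} :
    cd m X ∈ Rc v1 v2 w1 w2 ↔ v1 ≤ ca m X ∧ ca m X < v2 ∧ w1 ≤ cb m X ∧ cb m X < w2 :=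
  Iff.rfl

/-- at one time the property is constant -/
private theorem Sweep.slice {m v1 v2 w1 w2 : ℕ} (P : Finset ℕ → Prop)
    (hP : ∀ t k, t ≤ N.T → k < n → cd m (N.F t k) ∈ Rc v1 v2 w1 w2 →
      cd m (N.F t (k + 1)) ∈ Rc v1 v2 w1 w2 → (P (N.F t k) ↔ P (N.F t (k + 1))))
    {t : ℕ} (ht : t ≤ N.T) {k1 k2 : ℕ} (h12 : k1 ≤ k2) (hk2 : k2 ≤ n)
    (h1 : cd m (N.F t k1) ∈ Rc v1 v2 w1 w2) (h2 : cd m (N.F t k2) ∈ Rc v1 v2 w1 w2) :
    P (N.F t k1) ↔ P (N.F t k2) := by
  induction k2, h12 using Nat.le_induction with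
  | base => rfl
  | succ k hk ih =>
    have hmid : cd m (N.F t k) ∈ Rc v1 v2 w1 w2 := by
      rw [Sweep.mem_Rc] at *
      have a1 := N.ca_mono (m := m) (t := t) hk
      have a2 := N.ca_mono (m := m) (t := t) (Nat.le_succ k)
      have b1 := N.cb_anti (m := m) (t := t) hk
      have b2 := N.cb_anti (m := m) (t := t) (Nat.le_succ k)
      simp only [Nat.succ_eq_add_one] at a2 b2
      omega
    exact (ih (by omega) hmid).trans (hP t k ht (by omega) hmid h2)

/-- at one time the property is constant -/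
private theorem Sweep.slice' {m v1 v2 w1 w2 : ℕ} (P : Finset ℕ → Prop)
    (hP : ∀ t k, t ≤ N.T → k < n → cd m (N.F t k) ∈ Rc v1 v2 w1 w2 →
      cd m (N.F t (k + 1)) ∈ Rc v1 v2 w1 w2 → (P (N.F t k) ↔ P (N.F t (k + 1))))
    {t : ℕ} (ht : t ≤ N.T) {k1 k2 : ℕ} (hk1 : k1 ≤ n) (hk2 : k2 ≤ n)
    (h1 : cd m (N.F t k1) ∈ Rc v1 v2 w1 w2) (h2 : cd m (N.F t k2) ∈ Rc v1 v2 w1 w2) :
    P (N.F t k1) ↔ P (N.F t k2) := by
  rcases le_total k1 k2 with h | h
  · exact Sweep.slice N P hP ht h hk2 h1 h2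
  · exact (Sweep.slice N P hP ht h hk1 h2 h1).symm

private theorem Sweep.ivt_ca (m : ℕ) {t : ℕ} (ht : t ≤ N.T) {k k' v : ℕ} (hk : k ≤ k')
    (h1 : ca m (N.F t k) ≤ v) (h2 : v ≤ ca m (N.F t k')) :
    ∃ j, k ≤ j ∧ j ≤ k' ∧ ca m (N.F t j) = v := by
  induction k', hk using Nat.le_induction with
  | base => exact ⟨k, le_rfl, le_rfl, by omega⟩
  | succ l hl ih =>
    by_cases h3 : v ≤ ca m (N.F t l)
    · obtain ⟨j, a, b, c⟩ := ih h3
      exact ⟨j, a, by omega, c⟩
    · have h4 := N.ca_succ m ht (k := l)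
      refine ⟨l + 1, by omega, le_rfl, ?_⟩
      split_ifs at h4 <;> omega

private theorem Sweep.ivt_cb (m : ℕ) {t : ℕ} (ht : t ≤ N.T) {k k' v : ℕ} (hk : k ≤ k')
    (h1 : v ≤ cb m (N.F t k)) (h2 : cb m (N.F t k') ≤ v) :
    ∃ j, k ≤ j ∧ j ≤ k' ∧ cb m (N.F t j) = v := by
  induction k', hk using Nat.le_induction with
  | base => exact ⟨k, le_rfl, le_rfl, by omega⟩
  | succ l hl ih =>
    by_cases h3 : cb m (N.F t l) ≤ v
    · obtain ⟨j, a, b, c⟩ := ih h3
      exact ⟨j, a, by omega, c⟩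
    · have h4 := N.cb_succ m ht l
      refine ⟨l + 1, by omega, le_rfl, ?_⟩
      split_ifs at h4 <;> omega

/-- between two times at which there is a face in the rectangle there is one at all times -/
private theorem Sweep.between {m v1 v2 w1 w2 : ℕ} (hv : v1 + 2 ≤ v2) (hw : w1 + 2 ≤ w2)
    {t s t' k k' : ℕ} (hts : t ≤ s) (hst : s ≤ t') (ht' : t' ≤ N.T) (hk : k ≤ n) (hk' : k' ≤ n)
    (h : cd m (N.F t k) ∈ Rc v1 v2 w1 w2) (h' : cd m (N.F t' k') ∈ Rc v1 v2 w1 w2) :
    ∃ j, j ≤ n ∧ cd m (N.F s j) ∈ Rc v1 v2 w1 w2 := by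
  by_cases c1 : cd m (N.F s k) ∈ Rc v1 v2 w1 w2
  · exact ⟨k, hk, c1⟩
  by_cases c2 : cd m (N.F s k') ∈ Rc v1 v2 w1 w2
  · exact ⟨k', hk', c2⟩
  have hs : s ≤ N.T := by omega
  have a1 := N.ca_mono_time m hts (by omega) k
  have a2 := N.ca_mono_time m hst ht' k'
  have e1 := N.ca_add m (t := t) (by omega) k
  have e2 := N.ca_add m (t := s) (by omega) k
  have e3 := N.ca_add m (t := s) (by omega) k'
  have e4 := N.ca_add m (t := t') (by omega) k'
  rw [Sweep.mem_Rc] at h h' c1 c2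
  by_cases A : v2 ≤ ca m (N.F s k)
  · -- k' is below k
    have hkk : k' ≤ k := by
      by_contra hc
      have := N.ca_mono (m := m) (t := s) (k := k) (k' := k') (by omega)
      omega
    have b1 := N.cb_anti (m := m) (t := s) hkk
    have hlt : ca m (N.F s k') < v1 := by omega
    obtain ⟨j, j1, j2, j3⟩ := Sweep.ivt_ca N m hs (v := v1) hkk (by omega) (by omega)
    have b2 := N.cb_anti (m := m) (t := s) j1
    have b3 := N.cb_anti (m := m) (t := s) j2
    refine ⟨j, by omega, ?_⟩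
    rw [Sweep.mem_Rc]
    omega
  · have B : w2 ≤ cb m (N.F s k) := by omega
    have hkk : k ≤ k' := by
      by_contra hc
      have := N.cb_anti (m := m) (t := s) (k := k') (k' := k) (by omega)
      omega
    have b1 := N.ca_mono (m := m) (t := s) hkk
    have hlt : cb m (N.F s k') < w1 := by omega
    obtain ⟨j, j1, j2, j3⟩ := Sweep.ivt_cb N m hs (v := w1) hkk (by omega) (by omega)
    have b2 := N.ca_mono (m := m) (t := s) j1
    have b3 := N.ca_mono (m := m) (t := s) j2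
    refine ⟨j, by omega, ?_⟩
    rw [Sweep.mem_Rc]
    omega

/-- from one time to the next -/
private theorem Sweep.step {m v1 v2 w1 w2 : ℕ} (hv : v1 + 2 ≤ v2) (hw : w1 + 2 ≤ w2)
    (P : Finset ℕ → Prop)
    (hP : ∀ t k, t ≤ N.T → k < n → cd m (N.F t k) ∈ Rc v1 v2 w1 w2 →
      cd m (N.F t (k + 1)) ∈ Rc v1 v2 w1 w2 → (P (N.F t k) ↔ P (N.F t (k + 1))))
    {s k k' : ℕ} (hs : s < N.T) (hk : k ≤ n) (hk' : k' ≤ n)
    (h : cd m (N.F s k) ∈ Rc v1 v2 w1 w2) (h' : cd m (N.F (s + 1) k') ∈ Rc v1 v2 w1 w2) :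
    P (N.F s k) ↔ P (N.F (s + 1) k') := by
  by_cases H : ∃ j, j ≤ n ∧ j ≠ N.kp s + 1 ∧ cd m (N.F s j) ∈ Rc v1 v2 w1 w2
  · obtain ⟨j, j1, j2, j3⟩ := H
    have e := N.F_step_ne hs j2
    have x1 := Sweep.slice' N P hP (t := s) (by omega) hk j1 h j3
    have x2 := Sweep.slice' N P hP (t := s + 1) (by omega) j1 hk' (by rw [e]; exact j3) h'
    rw [e] at x2
    exact x1.trans x2
  · exfalso
    push Not at H
    have hkg : k = N.kp s + 1 := by
      by_contra hc
      exact H k hk hc h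
    have hkg' : k' = N.kp s + 1 := by
      by_contra hc
      refine H k' hk' hc ?_
      rw [← N.F_step_ne hs hc]
      exact h'
    subst hkg
    subst hkg'
    have hkp := N.kp_lt s hs
    have H1 := H (N.kp s) (by omega) (by omega)
    have H2 := H (N.kp s + 1 + 1) (by omega) (by omega)
    have hasc := N.asc s hs
    have A1 := N.ca_succ m (t := s) (k := N.kp s) (by omega)
    have A2 := N.ca_succ m (t := s) (k := N.kp s + 1) (by omega)
    have B1 := N.cb_succ m (t := s) (by omega) (N.kp s)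
    have B2 := N.cb_succ m (t := s) (by omega) (N.kp s + 1)
    have A3 := N.ca_succ m (t := s + 1) (k := N.kp s) (by omega)
    have B3 := N.cb_succ m (t := s + 1) (by omega) (N.kp s)
    rw [N.F_step_ne hs (k := N.kp s) (by omega), N.ln_lo s hs] at A3 B3
    rw [Sweep.mem_Rc] at h h' H1 H2
    split_ifs at A1 A2 B1 B2 A3 B3 <;> omega

/-- forward in time -/
private theorem Sweep.fwd {m v1 v2 w1 w2 : ℕ} (hv : v1 + 2 ≤ v2) (hw : w1 + 2 ≤ w2)
    (P : Finset ℕ → Prop)
    (hP : ∀ t k, t ≤ N.T → k < n → cd m (N.F t k) ∈ Rc v1 v2 w1 w2 →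
      cd m (N.F t (k + 1)) ∈ Rc v1 v2 w1 w2 → (P (N.F t k) ↔ P (N.F t (k + 1))))
    {t t' k k' : ℕ} (htt : t ≤ t') (ht' : t' ≤ N.T) (hk : k ≤ n) (hk' : k' ≤ n)
    (h : cd m (N.F t k) ∈ Rc v1 v2 w1 w2) (h' : cd m (N.F t' k') ∈ Rc v1 v2 w1 w2) :
    P (N.F t k) ↔ P (N.F t' k') := by
  have key : ∀ s, t ≤ s → s ≤ t' → ∀ j, j ≤ n → cd m (N.F s j) ∈ Rc v1 v2 w1 w2 →
      (P (N.F t k) ↔ P (N.F s j)) := by
    intro s hs
    induction s, hs using Nat.le_induction with
    | base =>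
      intro _ j hj hc
      exact Sweep.slice' N P hP (by omega) hk hj h hc
    | succ s hs ih =>
      intro hst j hj hc
      obtain ⟨i, hi, hci⟩ := Sweep.between N hv hw hs (by omega : s ≤ t') ht' hk hk' h h'
      exact (ih (by omega) i hi hci).trans (Sweep.step N hv hw P hP (by omega) hi hj hci hc)
  exact key t' htt le_rfl k' hk' h'

/-- A property of faces which does not change between vertically adjacent faces of a rectangle
(of side at least 2) is constant on the rectangle.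

Proof. (a) At one time the gaps k with cd (F t k) in the rectangle form an interval. (b) Let X be
present at time t and Y at time t', t ≤ t'. For every time in between some face is in the
rectangle: for the gaps k of X and k' of Y use Net.ca_mono_time and Net.ca_add (k is determined by
ca - cb): if no face is in the rectangle at time t'' then the point of gap k is beyond the
rectangle (ca ≥ v2 or cb ≥ w2) and that of gap k' before it, and the staircase between them has
to pass through the rectangle. (c) From t'' to t''+1: a gap different from kp t'' + 1 keeps its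
face; if only the gap kp t'' + 1 is in the rectangle at time t'' then, as the neighbouring gaps
are not, the swap is of a line with label < m below a line with label ≥ m and the point is the
corner (v2 - 1, w2 - 1), so that no face is in the rectangle at time t'' + 1. -/
theorem sweep {m v1 v2 w1 w2 : ℕ} (hv : v1 + 2 ≤ v2) (hw : w1 + 2 ≤ w2)
    (P : Finset ℕ → Prop)
    (hP : ∀ t k, t ≤ N.T → k < n → cd m (N.F t k) ∈ Rc v1 v2 w1 w2 →
      cd m (N.F t (k + 1)) ∈ Rc v1 v2 w1 w2 → (P (N.F t k) ↔ P (N.F t (k + 1))))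
    {X Y : Finset ℕ} (hX : N.IsFace X) (hY : N.IsFace Y) (cX : cd m X ∈ Rc v1 v2 w1 w2)
    (cY : cd m Y ∈ Rc v1 v2 w1 w2) (h : P X) : P Y := by
  obtain ⟨t, k, ht, hk, rfl⟩ := hX
  obtain ⟨t', k', ht', hk', rfl⟩ := hY
  rcases le_total t t' with htt | htt
  · exact (Sweep.fwd N hv hw P hP htt ht' hk hk' cX cY).mp h
  · exact (Sweep.fwd N hv hw P hP htt ht hk' hk cY cX).mpr h

end Net

end PLA
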