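import Pool.Agent.PLA.Cell
import Pool.Agent.PLA.Small
import Pool.Agent.PLA.Sweep

/-!
# Reachability inside a rectangle
-/

namespace PLA

open Finset

variable {n : ℕ} (N : Net n)

namespace Net

/-! ### The complementary colouring -/

private theorem co_sdiff {ω Y : Finset ℕ} (hY : N.IsFace Y) : Y \ (range n \ ω) = Y ∩ ω := by
  obtain ⟨t, k, ht, hk, rfl⟩ := hY
  ext a
  have h1 := N.F_subset_range ht hk
  simp only [mem_sdiff, mem_inter]
  constructor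
  · rintro ⟨h2, h3⟩
    refine ⟨h2, ?_⟩
    by_contra h4
    exact h3 ⟨h1 h2, h4⟩
  · rintro ⟨h2, h3⟩
    exact ⟨h2, fun h4 => h4.2 h3⟩

private theorem mem_co {ω : Finset ℕ} {t k : ℕ} (ht : t ≤ N.T) (hk : k < n) :
    N.ln t k ∈ range n \ ω ↔ N.ln t k ∉ ω := by
  simp [N.ln_lt ht hk]

private theorem arc_co {ω X Y : Finset ℕ} (h : N.Arc (range n \ ω) X Y) : N.Arc ω Y X := by
  obtain ⟨t, k, ht, hk, h⟩ := h
  refine ⟨t, k, ht, hk, ?_⟩
  have h1 := N.mem_co (ω := ω) ht hk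
  rcases h with ⟨hX, hY, h⟩ | ⟨hX, hY, h⟩
  · right
    refine ⟨hY, hX, ?_⟩
    rw [h, h1, not_not]
  · left
    refine ⟨hY, hX, ?_⟩
    rw [h, h1]

private theorem reach_co {m : ℕ} {ω X Y : Finset ℕ} {S : Set (ℕ × ℕ)}
    (h : N.Reach m (range n \ ω) S X Y) : N.Reach m ω S Y X := by
  unfold Reach at h ⊢
  induction h with
  | refl => exact Relation.ReflTransGen.refl
  | tail _ hbc ih => exact Relation.ReflTransGen.head ⟨N.arc_co hbc.1, hbc.2.2, hbc.2.1⟩ ih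

private theorem symm_sub {X Y : Finset ℕ} (hX : N.IsFace X) (hY : N.IsFace Y) :
    symmDiff X Y ⊆ range n := by
  obtain ⟨t, k, ht, hk, rfl⟩ := hX
  obtain ⟨t', k', ht', hk', rfl⟩ := hY
  intro a ha
  rcases Finset.mem_symmDiff.mp ha with h | h
  · exact N.F_subset_range ht hk h.1
  · exact N.F_subset_range ht' hk' h.1

private theorem ev_co {m s : ℕ} {ω : Finset ℕ} {S : Set (ℕ × ℕ)} (E : N.Ev m S s ω) :
    N.Ev m S s (range n \ ω) := by
  intro X Y hX hY cX cY hc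
  obtain ⟨h1, h2⟩ := E X Y hX hY cX cY hc
  have hsub := N.symm_sub hX hY
  constructor
  · intro h
    apply h2
    rw [Finset.disjoint_left]
    intro a ha ha'
    exact (mem_sdiff.mp (h ha)).2 ha'
  · intro h
    apply h1
    intro a ha
    by_contra h3
    exact (Finset.disjoint_left.mp h) ha (mem_sdiff.mpr ⟨hsub ha, h3⟩)

private theorem edge_congr {P Q : ℕ → Prop} (h : ∀ i, i < n → (P i → Q i)) {X : Finset ℕ}
    (hX : N.HasEdge P X) : N.HasEdge Q X := by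
  obtain ⟨t, k, ht, hk, rfl, h1⟩ := hX
  refine ⟨t, k, ht, hk, rfl, ?_⟩
  rcases h1 with ⟨h2, h3⟩ | ⟨h2, h3⟩
  · left; exact ⟨h2, h _ (N.ln_lt ht h2) h3⟩
  · right; exact ⟨h2, h _ (N.ln_lt ht (by omega)) h3⟩

private theorem bi_co {ω X : Finset ℕ} (h : N.Bi ω X) : N.Bi (range n \ ω) X := by
  refine ⟨N.edge_congr ?_ h.2, N.edge_congr ?_ h.1⟩
  · intro i hi h1; exact mem_sdiff.mpr ⟨mem_range.mpr hi, h1⟩
  · intro i hi h1 h2; exact (mem_sdiff.mp h2).2 h1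

private theorem bi_of_co {ω X : Finset ℕ} (h : N.Bi (range n \ ω) X) : N.Bi ω X := by
  refine ⟨N.edge_congr ?_ h.2, N.edge_congr ?_ h.1⟩
  · intro i hi h1
    by_contra h2
    exact h1 (mem_sdiff.mpr ⟨mem_range.mpr hi, h2⟩)
  · intro i hi h1; exact (mem_sdiff.mp h1).2

/-! ### Going up to the first blue line -/

private theorem F_sdiff {ω : Finset ℕ} {t k j : ℕ} (hkj : k ≤ j)
    (h : ∀ i, k ≤ i → i < j → N.ln t i ∈ ω) : N.F t j \ ω = N.F t k \ ω := by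
  induction j with
  | zero =>
    have : k = 0 := by omega
    rw [this]
  | succ j ih =>
    rcases Nat.lt_or_ge k (j + 1) with h1 | h1
    · rw [F_succ, Finset.insert_sdiff_of_mem _ (h j (by omega) (by omega))]
      exact ih (by omega) (fun i hi hi' => h i hi (by omega))
    · have : k = j + 1 := by omega
      rw [this]

private theorem m_lt {m : ℕ} {h : Finset ℕ} (hh : N.IsFace h) (hc : 1 ≤ ca m h) : m < n := by
  obtain ⟨t, k, ht, hk, rfl⟩ := hh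
  unfold ca at hc
  obtain ⟨a, ha⟩ := Finset.card_pos.mp hc
  have h1 := mem_filter.mp ha
  have h2 := mem_range.mp (N.F_subset_range ht hk h1.1)
  omega

private theorem bi_up {m : ℕ} {ω : Finset ℕ} {a1 a2 b1 b2 s : ℕ} (hs : 1 ≤ s)
    (E : N.Ev m (Rc a1 a2 b1 b2) s ω) {t k : ℕ} (ht : t ≤ N.T) (hk : k < n)
    (ch : cd m (N.F t k) ∈ Rc (a1 + s) (a2 - s) (b1 + s) (b2 - s)) (hr : N.ln t k ∈ ω) :
    ∃ j, k < j ∧ j < n ∧ N.Bi ω (N.F t j) ∧ N.F t j \ ω = N.F t k \ ω := by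
  classical
  have hface : N.IsFace (N.F t k) := ⟨t, k, ht, hk.le, rfl⟩
  have hex : ∃ j, k ≤ j ∧ j < n ∧ N.ln t j ∉ ω := by
    by_contra hcon
    push Not at hcon
    have h1 : N.F t n \ ω = N.F t k \ ω := N.F_sdiff hk.le hcon
    have h2 := N.cell_small hs E hface ch (N.isFace_F ht le_rfl) h1
    have h3 := cb_le (X := N.F t k) (Y := N.F t n) m
    have h4 : cb m (N.F t n) = 0 := by
      rw [N.F_top ht]
      unfold cb
      rw [Finset.card_eq_zero, Finset.sdiff_eq_empty_iff_subset]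
      have : 1 ≤ ca m (N.F t k) := by
        have := ch.1
        simp only [cd] at this
        omega
      have := N.m_lt hface this
      exact Finset.range_subset_range.mpr this.le
    have h5 := ch.2.2.1
    simp only [cd] at h5
    omega
  have hspec := Nat.find_spec hex
  set j := Nat.find hex with hj
  have hmin : ∀ i, k ≤ i → i < j → N.ln t i ∈ ω := by
    intro i hi hij
    by_contra h
    exact Nat.find_min hex hij ⟨hi, by omega, h⟩
  have hkj : k < j := by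
    rcases Nat.lt_or_ge k j with h | h
    · exact h
    · exfalso
      have : j = k := by omega
      rw [this] at hspec
      exact hspec.2.2 hr
  refine ⟨j, hkj, hspec.2.1, ⟨⟨t, j, ht, by omega, rfl, Or.inr ⟨by omega, ?_⟩⟩,
    ⟨t, j, ht, by omega, rfl, Or.inl ⟨hspec.2.1, hspec.2.2⟩⟩⟩, N.F_sdiff hkj.le hmin⟩
  exact hmin (j - 1) (by omega) (by omega)

/-! ### Reachability inside the cells of a face of the core -/

private theorem cell_reach {m : ℕ} {ω : Finset ℕ} {a1 a2 b1 b2 s : ℕ} (hs : 1 ≤ s)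
    (E : N.Ev m (Rc a1 a2 b1 b2) s ω) {h : Finset ℕ} (hh : N.IsFace h)
    (ch : cd m h ∈ Rc (a1 + s + 2) (a2 - s - 2) (b1 + s + 2) (b2 - s - 2))
    {Y Y' : Finset ℕ} (hY : N.HasEdge (fun i => i ∉ ω) Y) (hY' : N.HasEdge (fun i => i ∉ ω) Y')
    (eY : Y \ ω = h \ ω) (eY' : Y' \ ω = h \ ω) : N.Reach m ω (Rc a1 a2 b1 b2) Y Y' := by
  have c1 := ch.1
  have c2 := ch.2.1
  have c3 := ch.2.2.1
  have c4 := ch.2.2.2
  simp only [cd] at c1 c2 c3 c4
  have ch' : cd m h ∈ Rc (a1 + s) (a2 - s) (b1 + s) (b2 - s) := by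
    refine ⟨?_, ?_, ?_, ?_⟩ <;> simp only [cd] <;> omega
  refine N.phi_conn (C := h \ ω) ?_ ?_ hY hY' eY eY'
  · intro k hk e
    have h1 := N.cell_small hs E hh ch' (N.isFace_F (Nat.zero_le _) hk) e
    have h2 := ca_le (X := h) (Y := N.F 0 k) m
    have h3 := cb_le (X := h) (Y := N.F 0 k) m
    rcases N.start_axes m k with h4 | h4 <;> omega
  · intro Y hYf eY Z hZf hYZ
    have h1 := N.cell_small hs E hh ch' hYf eY
    have d1 := ca_le (X := h) (Y := Y) m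
    have d2 := ca_le (X := Y) (Y := Z) m
    have d3 := ca_le (X := Y) (Y := h) m
    have d4 := ca_le (X := Z) (Y := Y) m
    have f1 := cb_le (X := h) (Y := Y) m
    have f2 := cb_le (X := Y) (Y := Z) m
    have f3 := cb_le (X := Y) (Y := h) m
    have f4 := cb_le (X := Z) (Y := Y) m
    rw [symmDiff_comm Y h] at d3 f3
    rw [symmDiff_comm Z Y] at d4 f4
    refine ⟨?_, ?_, ?_, ?_⟩ <;> simp only [cd] <;> omega

private theorem lone {ω h Y : Finset ℕ} (hh : N.IsFace h) (hY : N.IsFace Y)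
    (hno : ¬ N.HasEdge (fun i => i ∈ ω) h) (e : Y \ ω = h \ ω) : Y = h := by
  have h1 := N.cell_conn hh hY e.symm
  rcases Relation.ReflTransGen.cases_head h1 with h2 | ⟨c, ⟨t, k, ht, hk, hm, h2⟩, -⟩
  · exact h2.symm
  · exfalso
    apply hno
    rcases h2 with ⟨h3, -⟩ | ⟨h3, -⟩
    · exact ⟨t, k, ht, hk.le, h3, Or.inl ⟨hk, hm⟩⟩
    · exact ⟨t, k + 1, ht, hk, h3, Or.inr ⟨by omega, by simpa using hm⟩⟩

private theorem isFace_of_edge {P : ℕ → Prop} {X : Finset ℕ} (h : N.HasEdge P X) :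
    N.IsFace X := by
  obtain ⟨t, k, ht, hk, rfl, -⟩ := h
  exact ⟨t, k, ht, hk, rfl⟩

/-- bicoloured faces in one of the two cells of h -/
private def Cl (N : Net n) (ω h b : Finset ℕ) : Prop :=
  N.Bi ω b ∧ (b \ ω = h \ ω ∨ b ∩ ω = h ∩ ω)

private theorem cl_reach {m : ℕ} {ω : Finset ℕ} {a1 a2 b1 b2 s : ℕ} (hs : 1 ≤ s)
    (E : N.Ev m (Rc a1 a2 b1 b2) s ω) {h : Finset ℕ} (hh : N.IsFace h)
    (ch : cd m h ∈ Rc (a1 + s + 2) (a2 - s - 2) (b1 + s + 2) (b2 - s - 2))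
    {b b' : Finset ℕ} (hb : N.Cl ω h b) (hb' : N.Cl ω h b') :
    N.Reach m ω (Rc a1 a2 b1 b2) b b' := by
  have blue : ∀ {b b' : Finset ℕ}, N.Bi ω b → N.Bi ω b' → b \ ω = h \ ω → b' \ ω = h \ ω →
      N.Reach m ω (Rc a1 a2 b1 b2) b b' := by
    intro b b' h1 h2 h3 h4
    exact N.cell_reach hs E hh ch h1.2 h2.2 h3 h4
  have red : ∀ {b b' : Finset ℕ}, N.Bi ω b → N.Bi ω b' → b ∩ ω = h ∩ ω → b' ∩ ω = h ∩ ω →
      N.Reach m ω (Rc a1 a2 b1 b2) b b' := by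
    intro b b' h1 h2 h3 h4
    apply N.reach_co
    refine N.cell_reach hs (N.ev_co E) hh ch (N.bi_co h2).2 (N.bi_co h1).2 ?_ ?_
    · rw [N.co_sdiff (N.isFace_of_edge h2.1), N.co_sdiff hh, h4]
    · rw [N.co_sdiff (N.isFace_of_edge h1.1), N.co_sdiff hh, h3]
  have noblue : ∀ {b : Finset ℕ}, N.Bi ω b → b ∩ ω = h ∩ ω → N.HasEdge (fun i => i ∉ ω) h := by
    intro b h1 h2
    by_contra h3
    have h4 : b = h := by
      refine N.lone (ω := range n \ ω) hh (N.isFace_of_edge h1.1) ?_ ?_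
      · intro h5
        exact h3 (N.edge_congr (fun i hi h6 => (mem_sdiff.mp h6).2) h5)
      · rw [N.co_sdiff (N.isFace_of_edge h1.1), N.co_sdiff hh, h2]
    exact h3 (h4 ▸ h1.2)
  have nored : ∀ {b : Finset ℕ}, N.Bi ω b → b \ ω = h \ ω → N.HasEdge (fun i => i ∈ ω) h := by
    intro b h1 h2
    by_contra h3
    have h4 : b = h := N.lone hh (N.isFace_of_edge h1.1) h3 h2
    exact h3 (h4 ▸ h1.1)
  obtain ⟨h1, h2⟩ := hb
  obtain ⟨h3, h4⟩ := hb'
  rcases h2 with h2 | h2 <;> rcases h4 with h4 | h4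
  · exact blue h1 h3 h2 h4
  · have hbi : N.Bi ω h := ⟨nored h1 h2, noblue h3 h4⟩
    exact (blue h1 hbi h2 rfl).trans (red hbi h3 rfl h4)
  · have hbi : N.Bi ω h := ⟨nored h3 h4, noblue h1 h2⟩
    exact (red h1 hbi h2 rfl).trans (blue hbi h3 rfl h4)
  · exact red h1 h3 h2 h4

private theorem core_sub {m : ℕ} {a1 a2 b1 b2 s : ℕ} {h : Finset ℕ}
    (ch : cd m h ∈ Rc (a1 + s + 2) (a2 - s - 2) (b1 + s + 2) (b2 - s - 2)) :
    cd m h ∈ Rc (a1 + s) (a2 - s) (b1 + s) (b2 - s) := by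
  have c1 := ch.1
  have c2 := ch.2.1
  have c3 := ch.2.2.1
  have c4 := ch.2.2.2
  simp only [cd] at c1 c2 c3 c4
  refine ⟨?_, ?_, ?_, ?_⟩ <;> simp only [cd] <;> omega

/-- a common member of the classes of two adjacent faces -/
private theorem common {m : ℕ} {ω : Finset ℕ} {a1 a2 b1 b2 s : ℕ} (hs : 1 ≤ s)
    (E : N.Ev m (Rc a1 a2 b1 b2) s ω) {t k : ℕ} (ht : t ≤ N.T) (hk : k < n)
    (ch : cd m (N.F t k) ∈ Rc (a1 + s + 2) (a2 - s - 2) (b1 + s + 2) (b2 - s - 2)) :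
    ∃ b, N.Cl ω (N.F t k) b ∧ N.Cl ω (N.F t (k + 1)) b := by
  by_cases hr : N.ln t k ∈ ω
  · obtain ⟨j, -, -, hbi, e⟩ := N.bi_up hs E ht hk (core_sub ch) hr
    refine ⟨N.F t j, ⟨hbi, Or.inl e⟩, ⟨hbi, Or.inl ?_⟩⟩
    rw [e, F_succ, Finset.insert_sdiff_of_mem _ hr]
  · have hr' : N.ln t k ∈ range n \ ω := (N.mem_co ht hk).mpr hr
    obtain ⟨j, -, hj, hbi, e⟩ := N.bi_up hs (N.ev_co E) ht hk (core_sub ch) hr'
    have e' : N.F t j ∩ ω = N.F t k ∩ ω := by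
      rw [← N.co_sdiff (N.isFace_F ht hj.le), ← N.co_sdiff (N.isFace_F ht hk.le), e]
    refine ⟨N.F t j, ⟨N.bi_of_co hbi, Or.inr e'⟩, ⟨N.bi_of_co hbi, Or.inr ?_⟩⟩
    rw [e', F_succ, Finset.insert_inter_of_notMem hr]

/-- Under the event Ev for a rectangle, any two bicoloured faces of its core are reachable from
each other inside the rectangle. -/
theorem conn_rect {m : ℕ} {ω : Finset ℕ} {a1 a2 b1 b2 s : ℕ} (hs : 1 ≤ s)
    (ha1 : 1 ≤ a1) (hb1 : 1 ≤ b1) (E : N.Ev m (Rc a1 a2 b1 b2) s ω)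
    (ha : a1 + 2 * s + 6 ≤ a2) (hb : b1 + 2 * s + 6 ≤ b2)
    {z z' : Finset ℕ} (hz : N.Bi ω z) (hz' : N.Bi ω z')
    (cz : cd m z ∈ Rc (a1 + s + 2) (a2 - s - 2) (b1 + s + 2) (b2 - s - 2))
    (cz' : cd m z' ∈ Rc (a1 + s + 2) (a2 - s - 2) (b1 + s + 2) (b2 - s - 2)) :
    N.Reach m ω (Rc a1 a2 b1 b2) z z' := by
  have hzf := N.isFace_of_edge hz.1
  have hzf' := N.isFace_of_edge hz'.1
  have key : ∀ b, N.Cl ω z' b → N.Reach m ω (Rc a1 a2 b1 b2) z b := by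
    refine N.sweep (m := m) (v1 := a1 + s + 2) (v2 := a2 - s - 2) (w1 := b1 + s + 2)
      (w2 := b2 - s - 2) (by omega) (by omega)
      (fun h => ∀ b, N.Cl ω h b → N.Reach m ω (Rc a1 a2 b1 b2) z b) ?_ hzf hzf' cz cz' ?_
    · intro t k ht hk c1 c2
      obtain ⟨b0, h1, h2⟩ := N.common hs E ht hk c1
      constructor
      · intro h b hb
        exact (h b0 h1).trans (N.cl_reach hs E (N.isFace_F ht hk) c2 h2 hb)
      · intro h b hb
        exact (h b0 h2).trans (N.cl_reach hs E (N.isFace_F ht hk.le) c1 h1 hb)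
    · intro b hb
      exact N.cl_reach hs E hzf cz ⟨hz, Or.inl rfl⟩ hb
  exact key z' ⟨hz', Or.inl rfl⟩

/-- Under the event Ev there is a bicoloured face near every lattice point of the core. -/
theorem anchor {m : ℕ} (hm : m ≤ n) {ω : Finset ℕ} {a1 a2 b1 b2 s : ℕ} (hs : 1 ≤ s)
    (ha1 : 1 ≤ a1) (hb1 : 1 ≤ b1) (E : N.Ev m (Rc a1 a2 b1 b2) s ω) {p q : ℕ}
    (hp1 : a1 + s + 2 ≤ p) (hp2 : p + s + 2 < a2) (hq1 : b1 + s + 2 ≤ q) (hq2 : q + s + 2 < b2)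
    (hpn : p ≤ n - m) (hqm : q ≤ m) :
    ∃ z, N.Bi ω z ∧ cd m z ∈ Rc (p - s) (p + s + 1) (q - s) (q + s + 1) := by
  obtain ⟨t, k, ht, hkn, hc⟩ := N.exists_face hm hpn hqm
  have hca : ca m (N.F t k) = p := congrArg Prod.fst hc
  have hcb : cb m (N.F t k) = q := congrArg Prod.snd hc
  have hk : k < n := by
    rcases Nat.lt_or_ge k n with h | h
    · exact h
    · exfalso
      have hkn' : k = n := by omega
      rw [hkn', N.F_top ht] at hcb
      have : cb m (range n) = 0 := by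
        unfold cb
        rw [Finset.card_eq_zero, Finset.sdiff_eq_empty_iff_subset]
        exact Finset.range_subset_range.mpr hm
      omega
  have ch : cd m (N.F t k) ∈ Rc (a1 + s) (a2 - s) (b1 + s) (b2 - s) := by
    rw [hc]
    refine ⟨?_, ?_, ?_, ?_⟩ <;> dsimp only <;> omega
  have fin : ∀ {j : ℕ}, j < n → (symmDiff (N.F t k) (N.F t j)).card < s →
      cd m (N.F t j) ∈ Rc (p - s) (p + s + 1) (q - s) (q + s + 1) := by
    intro j hj h1
    have d1 := ca_le (X := N.F t k) (Y := N.F t j) m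
    have d2 := ca_le (X := N.F t j) (Y := N.F t k) m
    have f1 := cb_le (X := N.F t k) (Y := N.F t j) m
    have f2 := cb_le (X := N.F t j) (Y := N.F t k) m
    rw [symmDiff_comm (N.F t j)] at d2 f2
    refine ⟨?_, ?_, ?_, ?_⟩ <;> simp only [cd] <;> omega
  by_cases hr : N.ln t k ∈ ω
  · obtain ⟨j, -, hj, hbi, e⟩ := N.bi_up hs E ht hk ch hr
    exact ⟨N.F t j, hbi, fin hj (N.cell_small hs E (N.isFace_F ht hkn) ch
      (N.isFace_F ht hj.le) e)⟩
  · have hr' : N.ln t k ∈ range n \ ω := (N.mem_co ht hk).mpr hr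
    obtain ⟨j, -, hj, hbi, e⟩ := N.bi_up hs (N.ev_co E) ht hk ch hr'
    exact ⟨N.F t j, N.bi_of_co hbi, fin hj (N.cell_small hs (N.ev_co E) (N.isFace_F ht hkn) ch
      (N.isFace_F ht hj.le) e)⟩

end Net

end PLA
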