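import Pool.Agent.PLA.Basic

/-!
# Counting colourings
-/

namespace PLA

open Finset

variable {n : ℕ} (N : Net n)

namespace Net

private theorem count_sup {D : Finset ℕ} (hD : D ⊆ range n) :
    (((range n).powerset.filter (fun ω => D ⊆ ω)).card : ℝ) ≤ 2 ^ n / 2 ^ D.card := by
  classical
  have h1 : ((range n).powerset.filter (fun ω => D ⊆ ω)).card ≤ ((range n) \ D).powerset.card := by
    refine Finset.card_le_card_of_injOn (fun ω => ω \ D) ?_ ?_
    · intro ω hω
      simp only [coe_filter, mem_powerset, Set.mem_ofPred_eq] at hω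
      simp only [coe_powerset, Set.mem_preimage, Set.mem_powerset_iff, coe_subset]
      exact Finset.sdiff_subset_sdiff hω.1 le_rfl
    · intro ω hω ω' hω' h
      simp only [coe_filter, mem_powerset, Set.mem_ofPred_eq] at hω hω'
      have h2 : ω = (ω \ D) ∪ D := (Finset.sdiff_union_of_subset hω.2).symm
      have h3 : ω' = (ω' \ D) ∪ D := (Finset.sdiff_union_of_subset hω'.2).symm
      simp only at h
      rw [h2, h3, h]
  have h2 : ((range n) \ D).powerset.card * 2 ^ D.card = 2 ^ n := by
    rw [Finset.card_powerset, ← pow_add, Finset.card_sdiff_of_subset hD, card_range]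
    have := Finset.card_le_card hD
    rw [card_range] at this
    congr 1
    omega
  rw [le_div_iff₀ (by positivity)]
  calc (((range n).powerset.filter (fun ω => D ⊆ ω)).card : ℝ) * 2 ^ D.card
      ≤ (((range n) \ D).powerset.card : ℝ) * 2 ^ D.card := by gcongr
    _ = 2 ^ n := by exact_mod_cast h2

private theorem count_disj {D : Finset ℕ} (hD : D ⊆ range n) :
    (((range n).powerset.filter (fun ω => Disjoint D ω)).card : ℝ) ≤ 2 ^ n / 2 ^ D.card := by
  classical
  have h1 : ((range n).powerset.filter (fun ω => Disjoint D ω)).card ≤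
      ((range n) \ D).powerset.card := by
    refine Finset.card_le_card ?_
    intro ω hω
    simp only [mem_filter, mem_powerset] at hω ⊢
    intro a ha
    rw [mem_sdiff]
    exact ⟨hω.1 ha, fun h => (Finset.disjoint_left.mp hω.2) h ha⟩
  have h2 : ((range n) \ D).powerset.card * 2 ^ D.card = 2 ^ n := by
    rw [Finset.card_powerset, ← pow_add, Finset.card_sdiff_of_subset hD, card_range]
    have := Finset.card_le_card hD
    rw [card_range] at this
    congr 1
    omega
  rw [le_div_iff₀ (by positivity)]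
  calc (((range n).powerset.filter (fun ω => Disjoint D ω)).card : ℝ) * 2 ^ D.card
      ≤ (((range n) \ D).powerset.card : ℝ) * 2 ^ D.card := by gcongr
    _ = 2 ^ n := by exact_mod_cast h2

open Classical in
/-- Number of colourings violating the event: at most fc^2 * 2 * 2^(n-s) and at most 2^n, hence
at most the geometric mean. -/
theorem fail_le (m : ℕ) (S : Set (ℕ × ℕ)) (s : ℕ) :
    (((range n).powerset.filter (fun ω => ¬ N.Ev m S s ω)).card : ℝ) ≤
      2 ^ n * N.fc m S * (2 / 2 ^ (s / 2)) := by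
  set A := N.allF.filter (fun X => cd m X ∈ S) with hA
  have hfc : (N.fc m S : ℝ) = A.card := by rw [hA]; unfold fc; norm_cast
  set P := (A ×ˢ A).filter (fun p => (symmDiff p.1 p.2).card = s) with hP
  have hface : ∀ X ∈ A, X ⊆ range n := by
    intro X hX
    rw [hA, mem_filter, N.mem_allF] at hX
    obtain ⟨⟨t, k, ht, hk, rfl⟩, _⟩ := hX
    exact N.F_subset_range ht hk
  have hsub : (range n).powerset.filter (fun ω => ¬ N.Ev m S s ω) ⊆
      P.biUnion (fun p => (range n).powerset.filter (fun ω => symmDiff p.1 p.2 ⊆ ω) ∪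
        (range n).powerset.filter (fun ω => Disjoint (symmDiff p.1 p.2) ω)) := by
    intro ω hω
    rw [mem_filter] at hω
    obtain ⟨h1, h2⟩ := hω
    unfold Ev at h2
    push Not at h2
    obtain ⟨X, Y, hX, hY, cX, cY, hs, h3⟩ := h2
    rw [mem_biUnion]
    refine ⟨(X, Y), ?_, ?_⟩
    · rw [hP, mem_filter, mem_product, hA, mem_filter, mem_filter, N.mem_allF, N.mem_allF]
      exact ⟨⟨⟨hX, cX⟩, hY, cY⟩, hs⟩
    · rw [mem_union, mem_filter, mem_filter]
      by_cases h4 : symmDiff X Y ⊆ ω
      · exact Or.inl ⟨h1, h4⟩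
      · exact Or.inr ⟨h1, h3 h4⟩
  have hPcard : (P.card : ℝ) ≤ (A.card : ℝ) ^ 2 := by
    have h1 : P.card ≤ (A ×ˢ A).card := Finset.card_filter_le _ _
    rw [Finset.card_product] at h1
    have h2 : (P.card : ℝ) ≤ (A.card : ℝ) * A.card := by exact_mod_cast h1
    nlinarith
  set c : ℝ := (((range n).powerset.filter (fun ω => ¬ N.Ev m S s ω)).card : ℝ) with hc
  have hc1 : c ≤ 2 ^ n := by
    have h1 : ((range n).powerset.filter (fun ω => ¬ N.Ev m S s ω)).card ≤
        (range n).powerset.card := Finset.card_filter_le _ _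
    rw [Finset.card_powerset, card_range] at h1
    rw [hc]
    exact_mod_cast h1
  have hc2 : c ≤ (A.card : ℝ) ^ 2 * (2 * (2 ^ n / 2 ^ s)) := by
    have h1 : c ≤ ∑ p ∈ P, (2 * (2 ^ n / 2 ^ s) : ℝ) := by
      calc c ≤ ((P.biUnion (fun p =>
            (range n).powerset.filter (fun ω => symmDiff p.1 p.2 ⊆ ω) ∪
            (range n).powerset.filter (fun ω => Disjoint (symmDiff p.1 p.2) ω))).card : ℝ) := by
            rw [hc]; exact_mod_cast Finset.card_le_card hsub
        _ ≤ ∑ p ∈ P, (((range n).powerset.filter (fun ω => symmDiff p.1 p.2 ⊆ ω) ∪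
            (range n).powerset.filter (fun ω => Disjoint (symmDiff p.1 p.2) ω)).card : ℝ) := by
            exact_mod_cast Finset.card_biUnion_le
        _ ≤ ∑ p ∈ P, (2 * (2 ^ n / 2 ^ s) : ℝ) := by
            refine Finset.sum_le_sum fun p hp => ?_
            rw [hP, mem_filter, mem_product] at hp
            have hD : symmDiff p.1 p.2 ⊆ range n := by
              intro a ha
              rw [Finset.mem_symmDiff] at ha
              rcases ha with ha | ha
              · exact hface _ hp.1.1 ha.1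
              · exact hface _ hp.1.2 ha.1
            have h2 := count_sup hD
            have h3 := count_disj hD
            rw [hp.2] at h2 h3
            have h4 : (((range n).powerset.filter (fun ω => symmDiff p.1 p.2 ⊆ ω) ∪
                (range n).powerset.filter (fun ω => Disjoint (symmDiff p.1 p.2) ω)).card : ℝ) ≤
                (((range n).powerset.filter (fun ω => symmDiff p.1 p.2 ⊆ ω)).card : ℝ) +
                (((range n).powerset.filter (fun ω => Disjoint (symmDiff p.1 p.2) ω)).card : ℝ) := by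
              exact_mod_cast Finset.card_union_le _ _
            linarith
    calc c ≤ ∑ p ∈ P, (2 * (2 ^ n / 2 ^ s) : ℝ) := h1
      _ = P.card * (2 * (2 ^ n / 2 ^ s)) := by rw [Finset.sum_const, nsmul_eq_mul]
      _ ≤ (A.card : ℝ) ^ 2 * (2 * (2 ^ n / 2 ^ s)) := by gcongr
  rw [hfc]
  set x : ℝ := (A.card : ℝ) * (2 / 2 ^ (s / 2)) with hx
  have hx0 : 0 ≤ x := by positivity
  have h2s : (2 : ℝ) ^ (s / 2) * 2 ^ (s / 2) ≤ 2 ^ s := by
    rw [← pow_add]
    exact pow_le_pow_right₀ (by norm_num) (by omega)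
  have hgoal : c ≤ 2 ^ n * x := by
    rcases le_or_gt 1 x with h | h
    · nlinarith [pow_pos (two_pos : (0:ℝ) < 2) n]
    · have h3 : (A.card : ℝ) ^ 2 * (2 * (2 ^ n / 2 ^ s)) ≤ 2 ^ n * x ^ 2 := by
        have h4 : (2 : ℝ) ^ n * x ^ 2 =
            (A.card : ℝ) ^ 2 * (2 * (2 ^ n / (2 ^ (s / 2) * 2 ^ (s / 2)))) * 2 := by
          rw [hx]
          field_simp
        rw [h4]
        have h5 : (2 : ℝ) ^ n / 2 ^ s ≤ 2 ^ n / (2 ^ (s / 2) * 2 ^ (s / 2)) := by
          gcongr
        have h6 : (0 : ℝ) ≤ (A.card : ℝ) ^ 2 * (2 * (2 ^ n / (2 ^ (s / 2) * 2 ^ (s / 2)))) := by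
          positivity
        calc (A.card : ℝ) ^ 2 * (2 * (2 ^ n / 2 ^ s))
            ≤ (A.card : ℝ) ^ 2 * (2 * (2 ^ n / (2 ^ (s / 2) * 2 ^ (s / 2)))) := by gcongr
          _ ≤ (A.card : ℝ) ^ 2 * (2 * (2 ^ n / (2 ^ (s / 2) * 2 ^ (s / 2)))) * 2 := by linarith
      have h7 : (2 : ℝ) ^ n * x ^ 2 ≤ 2 ^ n * x := by
        have : x ^ 2 ≤ x := by nlinarith
        gcongr
      linarith
  calc c ≤ 2 ^ n * x := hgoal
    _ = 2 ^ n * (A.card : ℝ) * (2 / 2 ^ (s / 2)) := by rw [hx]; ring

end Net

end PLA
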