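import Mathlib

/-!
# Long alternating dual paths in pseudoline arrangements: combinatorial model

A simple arrangement of n pseudolines is modelled by a sorting network: the lines are labelled
0, ..., n-1 from bottom to top at x = -infinity, ln t j is the line at position j (from the
bottom) after t crossings, the crossing number t exchanges positions kp t and kp t + 1.
A face is the set of lines below it, i.e. one of the sets F t k of the k lowest lines at time t.
-/

namespace PLA

open Finset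

/-- Sorting networks (reduced words of the reversal), in which every pair of lines crosses
exactly once. -/
structure Net (n : ℕ) where
  T : ℕ
  ln : ℕ → ℕ → ℕ
  kp : ℕ → ℕ
  kp_lt : ∀ t, t < T → kp t + 1 < n
  ln_zero : ∀ j, ln 0 j = j
  ln_lo : ∀ t, t < T → ln (t + 1) (kp t) = ln t (kp t + 1)
  ln_hi : ∀ t, t < T → ln (t + 1) (kp t + 1) = ln t (kp t)
  ln_ne : ∀ t, t < T → ∀ j, j ≠ kp t → j ≠ kp t + 1 → ln (t + 1) j = ln t j
  asc : ∀ t, t < T → ln t (kp t) < ln t (kp t + 1)
  ln_top : ∀ j, j < n → ln T j = n - 1 - j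

variable {n : ℕ}

/-- the k lowest lines at time t -/
def Net.F (N : Net n) (t k : ℕ) : Finset ℕ := (range k).image (N.ln t)

/-- faces, as sets of lines below them -/
def Net.IsFace (N : Net n) (X : Finset ℕ) : Prop := ∃ t k, t ≤ N.T ∧ k ≤ n ∧ X = N.F t k

/-- Directed dual edges for the colouring in which the lines of ω are red and the others blue:
faces with an even number of lines below are left through blue edges, the others through red
edges. -/
def Net.Arc (N : Net n) (ω : Finset ℕ) (X Y : Finset ℕ) : Prop :=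
  ∃ t k, t ≤ N.T ∧ k < n ∧
    ((X = N.F t k ∧ Y = N.F t (k + 1) ∧ (Even k ↔ N.ln t k ∉ ω)) ∨
     (X = N.F t (k + 1) ∧ Y = N.F t k ∧ (Even k ↔ N.ln t k ∈ ω)))

/-- first coordinate: number of lines with label at least m below the face -/
def ca (m : ℕ) (X : Finset ℕ) : ℕ := (X.filter (fun i => m ≤ i)).card

/-- second coordinate: number of lines with label less than m above the face -/
def cb (m : ℕ) (X : Finset ℕ) : ℕ := (range m \ X).card

/-- the coordinates of a face -/
def cd (m : ℕ) (X : Finset ℕ) : ℕ × ℕ := (ca m X, cb m X)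

/-- half-open rectangles of lattice points -/
def Rc (a1 a2 b1 b2 : ℕ) : Set (ℕ × ℕ) := {p | a1 ≤ p.1 ∧ p.1 < a2 ∧ b1 ≤ p.2 ∧ p.2 < b2}

/-- The event: no two faces with coordinates in S are separated by exactly s lines all of one
colour. -/
def Net.Ev (N : Net n) (m : ℕ) (S : Set (ℕ × ℕ)) (s : ℕ) (ω : Finset ℕ) : Prop :=
  ∀ X Y, N.IsFace X → N.IsFace Y → cd m X ∈ S → cd m Y ∈ S → (symmDiff X Y).card = s →
    ¬ symmDiff X Y ⊆ ω ∧ ¬ Disjoint (symmDiff X Y) ω

/-- X is a face with an edge on a line satisfying P -/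
def Net.HasEdge (N : Net n) (P : ℕ → Prop) (X : Finset ℕ) : Prop :=
  ∃ t k, t ≤ N.T ∧ k ≤ n ∧ X = N.F t k ∧
    ((k < n ∧ P (N.ln t k)) ∨ (0 < k ∧ P (N.ln t (k - 1))))

/-- bicoloured faces -/
def Net.Bi (N : Net n) (ω : Finset ℕ) (X : Finset ℕ) : Prop :=
  N.HasEdge (fun i => i ∈ ω) X ∧ N.HasEdge (fun i => i ∉ ω) X

/-- directed dual edges inside a region -/
def Net.RA (N : Net n) (m : ℕ) (ω : Finset ℕ) (S : Set (ℕ × ℕ)) (X Y : Finset ℕ) : Prop :=
  N.Arc ω X Y ∧ cd m X ∈ S ∧ cd m Y ∈ S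

/-- directed reachability inside a region -/
def Net.Reach (N : Net n) (m : ℕ) (ω : Finset ℕ) (S : Set (ℕ × ℕ)) :
    Finset ℕ → Finset ℕ → Prop :=
  Relation.ReflTransGen (N.RA m ω S)

/-- directed dual edges inside a region which change the potential h by at most one -/
def Net.RP (N : Net n) (m : ℕ) (ω : Finset ℕ) (S : Set (ℕ × ℕ)) (h : ℕ × ℕ → ℕ)
    (X Y : Finset ℕ) : Prop :=
  N.Arc ω X Y ∧ cd m X ∈ S ∧ cd m Y ∈ S ∧ h (cd m X) ≤ h (cd m Y) + 1 ∧
    h (cd m Y) ≤ h (cd m X) + 1

/-- directed reachability inside a region along such edges -/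
def Net.ReachP (N : Net n) (m : ℕ) (ω : Finset ℕ) (S : Set (ℕ × ℕ)) (h : ℕ × ℕ → ℕ) :
    Finset ℕ → Finset ℕ → Prop :=
  Relation.ReflTransGen (N.RP m ω S h)

/-- thresholds -/
def sk (s0 k : ℕ) : ℕ := s0 * 4 ^ k

/-- frame widths -/
def ph (s0 k : ℕ) : ℕ := 8 * sk s0 k

/-- block sizes -/
def RR (s0 : ℕ) : ℕ → ℕ
  | 0 => 16 * s0
  | k + 1 => 8 * RR s0 k + 2 * ph s0 (k + 1)

/-- the square block of scale k with lower left corner (x, y) -/
def Sq (s0 k x y : ℕ) : Set (ℕ × ℕ) := Rc x (x + RR s0 k) y (y + RR s0 k)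

open Classical in
/-- number of basic blocks passed by the multiscale path -/
noncomputable def Net.V (N : Net n) (m s0 : ℕ) : ℕ → Finset ℕ → ℕ → ℕ → ℕ
  | 0, _, _, _ => 1
  | k + 1, ω, x, y =>
    if N.Ev m (Sq s0 (k + 1) x y) (sk s0 k) ω then
      ∑ i ∈ range 8, ∑ j ∈ range 8,
        N.V m s0 k ω (x + ph s0 (k + 1) + i * RR s0 k) (y + ph s0 (k + 1) + j * RR s0 k)
    else 1

/-- all faces -/
def Net.allF (N : Net n) : Finset (Finset ℕ) :=
  ((range (N.T + 1)) ×ˢ (range (n + 1))).image (fun p => N.F p.1 p.2)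

open Classical in
/-- number of faces with coordinates in S -/
noncomputable def Net.fc (N : Net n) (m : ℕ) (S : Set (ℕ × ℕ)) : ℕ :=
  (N.allF.filter (fun X => cd m X ∈ S)).card

end PLA
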