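import Pool.Agent.PLA.Count

/-!
# A good colouring exists
-/

namespace PLA

open Finset

variable {n : ℕ} (N : Net n)

/-- the error terms -/
noncomputable def eps (s0 : ℕ) : ℕ → ℝ
  | 0 => 0
  | k + 1 => eps s0 k + 64 ^ (k + 1) * (2 / 2 ^ (sk s0 k / 2))

theorem eps_nonneg (s0 k : ℕ) : 0 ≤ eps s0 k := by
  induction k with
  | zero => exact le_rfl
  | succ k ih => rw [eps]; positivity

namespace Net

theorem V_le (m s0 k : ℕ) (ω : Finset ℕ) (x y : ℕ) : N.V m s0 k ω x y ≤ 64 ^ k := by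
  classical
  induction k generalizing x y with
  | zero => simp [V]
  | succ k ih =>
    rw [V]
    split_ifs with h
    · calc _ ≤ ∑ _i ∈ range 8, ∑ _j ∈ range 8, 64 ^ k :=
            Finset.sum_le_sum fun i _ => Finset.sum_le_sum fun j _ => ih _ _
        _ = 64 ^ (k + 1) := by
            simp only [Finset.sum_const, card_range, smul_eq_mul]
            ring
    · exact Nat.one_le_pow _ _ (by norm_num)

/-- The 64 subblocks are disjoint subsets of the block. -/
theorem fc_sub (m s0 k x y : ℕ) :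
    ∑ i ∈ range 8, ∑ j ∈ range 8, N.fc m
      (Sq s0 k (x + ph s0 (k + 1) + i * RR s0 k) (y + ph s0 (k + 1) + j * RR s0 k)) ≤
      N.fc m (Sq s0 (k + 1) x y) := by
  classical
  rw [← Finset.sum_product']
  unfold fc
  have key : ∀ {i i' r a : ℕ}, x + ph s0 (k + 1) + i * r ≤ a → a < x + ph s0 (k + 1) + i * r + r →
      x + ph s0 (k + 1) + i' * r ≤ a → a < x + ph s0 (k + 1) + i' * r + r → i = i' := by
    intro i i' r a h1 h2 h3 h4
    rcases lt_trichotomy i i' with h | h | h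
    · have : (i + 1) * r ≤ i' * r := Nat.mul_le_mul_right r h
      rw [Nat.succ_mul] at this
      omega
    · exact h
    · have : (i' + 1) * r ≤ i * r := Nat.mul_le_mul_right r h
      rw [Nat.succ_mul] at this
      omega
  have key' : ∀ {i i' r a : ℕ}, y + ph s0 (k + 1) + i * r ≤ a → a < y + ph s0 (k + 1) + i * r + r →
      y + ph s0 (k + 1) + i' * r ≤ a → a < y + ph s0 (k + 1) + i' * r + r → i = i' := by
    intro i i' r a h1 h2 h3 h4
    rcases lt_trichotomy i i' with h | h | h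
    · have : (i + 1) * r ≤ i' * r := Nat.mul_le_mul_right r h
      rw [Nat.succ_mul] at this
      omega
    · exact h
    · have : (i' + 1) * r ≤ i * r := Nat.mul_le_mul_right r h
      rw [Nat.succ_mul] at this
      omega
  rw [← Finset.card_biUnion]
  · refine Finset.card_le_card ?_
    intro X hX
    simp only [mem_biUnion, mem_product, mem_range, mem_filter] at hX ⊢
    obtain ⟨⟨i, j⟩, ⟨hi, hj⟩, hXF, hX1, hX2, hX3, hX4⟩ := hX
    try simp only at hi hj
    try simp only at hX1 hX2 hX3 hX4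
    refine ⟨hXF, ?_⟩
    have hR : RR s0 (k + 1) = 8 * RR s0 k + 2 * ph s0 (k + 1) := rfl
    have h1 : (i + 1) * RR s0 k ≤ 8 * RR s0 k := Nat.mul_le_mul_right _ (by omega)
    have h2 : (j + 1) * RR s0 k ≤ 8 * RR s0 k := Nat.mul_le_mul_right _ (by omega)
    rw [Nat.succ_mul] at h1 h2
    refine ⟨?_, ?_, ?_, ?_⟩ <;> omega
  · rintro ⟨i, j⟩ _ ⟨i', j'⟩ _ hne
    rw [Function.onFun, Finset.disjoint_left]
    intro X hX hX'
    simp only [mem_filter] at hX hX'
    obtain ⟨-, h1, h2, h3, h4⟩ := hX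
    obtain ⟨-, h1', h2', h3', h4'⟩ := hX'
    try simp only at h1 h2 h3 h4 h1' h2' h3' h4'
    exact hne (Prod.ext (key h1 h2 h1' h2') (key' h3 h4 h3' h4'))

theorem deficit_le (m s0 k x y : ℕ) :
    ∑ ω ∈ (range n).powerset, ((64 : ℝ) ^ k - N.V m s0 k ω x y) ≤
      2 ^ n * N.fc m (Sq s0 k x y) * eps s0 k := by
  classical
  induction k generalizing x y with
  | zero => simp [V, eps]
  | succ k ih =>
    set S := Sq s0 (k + 1) x y with hS
    have hpt : ∀ ω ∈ (range n).powerset, ((64 : ℝ) ^ (k + 1) - N.V m s0 (k + 1) ω x y) ≤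
        (if ¬ N.Ev m S (sk s0 k) ω then (64 : ℝ) ^ (k + 1) else 0) +
        ∑ p ∈ range 8 ×ˢ range 8, ((64 : ℝ) ^ k - N.V m s0 k ω
          (x + ph s0 (k + 1) + p.1 * RR s0 k) (y + ph s0 (k + 1) + p.2 * RR s0 k)) := by
      intro ω _
      have hnn : 0 ≤ ∑ p ∈ range 8 ×ˢ range 8, ((64 : ℝ) ^ k - N.V m s0 k ω
          (x + ph s0 (k + 1) + p.1 * RR s0 k) (y + ph s0 (k + 1) + p.2 * RR s0 k)) := by
        refine Finset.sum_nonneg fun p _ => ?_
        have := N.V_le m s0 k ω (x + ph s0 (k + 1) + p.1 * RR s0 k)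
          (y + ph s0 (k + 1) + p.2 * RR s0 k)
        have h' : (N.V m s0 k ω (x + ph s0 (k + 1) + p.1 * RR s0 k)
          (y + ph s0 (k + 1) + p.2 * RR s0 k) : ℝ) ≤ 64 ^ k := by exact_mod_cast this
        linarith
      by_cases hE : N.Ev m S (sk s0 k) ω
      · rw [if_neg (not_not.2 hE), zero_add, V, if_pos hE]
        rw [Finset.sum_sub_distrib, Finset.sum_product, Finset.sum_product]
        push_cast
        simp only [Finset.sum_const, card_range, nsmul_eq_mul]
        refine le_of_eq ?_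
        congr 1
        push_cast
        ring
      · rw [if_pos hE]
        have : (0 : ℝ) ≤ N.V m s0 (k + 1) ω x y := Nat.cast_nonneg _
        linarith
    refine (Finset.sum_le_sum hpt).trans ?_
    rw [Finset.sum_add_distrib, Finset.sum_comm, ← Finset.sum_filter, Finset.sum_const,
      nsmul_eq_mul]
    have h1 := N.fail_le m S (sk s0 k)
    have h2 : ∑ p ∈ range 8 ×ˢ range 8, ∑ ω ∈ (range n).powerset, ((64 : ℝ) ^ k - N.V m s0 k ω
          (x + ph s0 (k + 1) + p.1 * RR s0 k) (y + ph s0 (k + 1) + p.2 * RR s0 k)) ≤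
        2 ^ n * N.fc m S * eps s0 k := by
      calc _ ≤ ∑ p ∈ range 8 ×ˢ range 8, 2 ^ n * (N.fc m
            (Sq s0 k (x + ph s0 (k + 1) + p.1 * RR s0 k) (y + ph s0 (k + 1) + p.2 * RR s0 k)) : ℝ)
              * eps s0 k := Finset.sum_le_sum fun p _ => ih _ _
        _ = 2 ^ n * (∑ p ∈ range 8 ×ˢ range 8, (N.fc m
            (Sq s0 k (x + ph s0 (k + 1) + p.1 * RR s0 k) (y + ph s0 (k + 1) + p.2 * RR s0 k)) : ℝ))
              * eps s0 k := by
            rw [← Finset.sum_mul, ← Finset.mul_sum]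
        _ ≤ 2 ^ n * N.fc m S * eps s0 k := by
            have h3 := N.fc_sub m s0 k x y
            rw [← Finset.sum_product'] at h3
            have h4 : (∑ p ∈ range 8 ×ˢ range 8, (N.fc m
              (Sq s0 k (x + ph s0 (k + 1) + p.1 * RR s0 k) (y + ph s0 (k + 1) + p.2 * RR s0 k)) : ℝ))
                ≤ N.fc m S := by exact_mod_cast h3
            have h5 := eps_nonneg s0 k
            gcongr
    have h3 : (((range n).powerset.filter (fun ω => ¬ N.Ev m S (sk s0 k) ω)).card : ℝ) *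
        64 ^ (k + 1) ≤ 2 ^ n * N.fc m S * (2 / 2 ^ (sk s0 k / 2)) * 64 ^ (k + 1) := by
      gcongr
    rw [eps]
    calc _ ≤ 2 ^ n * N.fc m S * (2 / 2 ^ (sk s0 k / 2)) * 64 ^ (k + 1) +
          2 ^ n * N.fc m S * eps s0 k := add_le_add h3 h2
      _ = _ := by ring

theorem eps_le (K : ℕ) : eps 128 K ≤ 1 / 2 ^ 56 - 1 / 2 ^ (56 + K) := by
  induction K with
  | zero => simp [eps]
  | succ K ih =>
    rw [eps]
    have h1 : (64 : ℝ) ^ (K + 1) * (2 / 2 ^ (sk 128 K / 2)) ≤ 1 / 2 ^ (56 + (K + 1)) := by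
      have h2 : sk 128 K / 2 = 64 * 4 ^ K := by
        unfold sk; omega
      have h3 : 7 * K + 64 ≤ 64 * 4 ^ K := by
        induction K with
        | zero => norm_num
        | succ K _ =>
          have h4 : ∀ K : ℕ, 7 * K + 64 ≤ 64 * 4 ^ K := by
            intro K
            induction K with
            | zero => norm_num
            | succ K ih => rw [pow_succ]; omega
          exact h4 _
      rw [h2]
      have h5 : (64 : ℝ) ^ (K + 1) = 2 ^ (6 * (K + 1)) := by
        rw [pow_mul]; norm_num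
      rw [h5]
      rw [← mul_div_assoc, div_le_div_iff₀ (by positivity) (by positivity), one_mul, ← pow_succ,
        ← pow_add]
      exact pow_le_pow_right₀ (by norm_num) (by omega)
    have h6 : (1 : ℝ) / 2 ^ (56 + K) = 1 / 2 ^ (56 + (K + 1)) + 1 / 2 ^ (56 + (K + 1)) := by
      rw [show 56 + (K + 1) = (56 + K) + 1 by ring, pow_succ]
      field_simp
      norm_num
    linarith

theorem exists_good (m K x y : ℕ) (hn : n * n + n + 1 ≤ 2 ^ 33 * 64 ^ K) :
    ∃ ω ⊆ range n, N.Ev m (Sq 128 K x y) (sk 128 K) ω ∧ 64 ^ K ≤ 2 * N.V m 128 K ω x y := by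
  classical
  by_contra hno
  push Not at hno
  set S := Sq 128 K x y with hS
  have hfc : (N.fc m S : ℝ) ≤ 2 ^ 33 * 64 ^ K := by
    have h1 : N.fc m S ≤ n * n + n + 1 := (Finset.card_filter_le _ _).trans N.card_allF_le
    exact_mod_cast h1.trans hn
  have hfc0 : (0 : ℝ) ≤ N.fc m S := Nat.cast_nonneg _
  have h1 := N.fail_le m S (sk 128 K)
  have h2 := N.deficit_le m 128 K x y
  -- every colouring is bad in one of the two ways
  have hpt : ∀ ω ∈ (range n).powerset, (1 : ℝ) ≤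
      (if ¬ N.Ev m S (sk 128 K) ω then (1 : ℝ) else 0) +
        2 / 64 ^ K * ((64 : ℝ) ^ K - N.V m 128 K ω x y) := by
    intro ω hω
    have hV := N.V_le m 128 K ω x y
    have hV' : (N.V m 128 K ω x y : ℝ) ≤ 64 ^ K := by exact_mod_cast hV
    by_cases hE : N.Ev m S (sk 128 K) ω
    · rw [if_neg (not_not.2 hE), zero_add]
      have h3 := hno ω (mem_powerset.1 hω) hE
      have h4 : 2 * (N.V m 128 K ω x y : ℝ) < 64 ^ K := by exact_mod_cast h3
      rw [div_mul_eq_mul_div, le_div_iff₀ (by positivity)]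
      linarith
    · rw [if_pos hE]
      have : 0 ≤ 2 / (64 : ℝ) ^ K * ((64 : ℝ) ^ K - N.V m 128 K ω x y) :=
        mul_nonneg (by positivity) (by linarith)
      linarith
  have hsum := Finset.sum_le_sum hpt
  rw [Finset.sum_add_distrib, ← Finset.mul_sum, ← Finset.sum_filter, Finset.sum_const,
    Finset.sum_const, nsmul_eq_mul, nsmul_eq_mul, mul_one, mul_one, card_powerset, card_range]
    at hsum
  push_cast at hsum
  have h3 : (2 : ℝ) / 64 ^ K * ∑ ω ∈ (range n).powerset, ((64 : ℝ) ^ K - N.V m 128 K ω x y) ≤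
      2 / 64 ^ K * (2 ^ n * N.fc m S * eps 128 K) := by gcongr
  have heps := eps_le K
  have heps' : eps 128 K ≤ 1 / 2 ^ 56 := by
    have : (0 : ℝ) ≤ 1 / 2 ^ (56 + K) := by positivity
    linarith
  have heps0 := eps_nonneg 128 K
  have h4 : (2 : ℝ) / 64 ^ K * (2 ^ n * N.fc m S * eps 128 K) ≤
      2 / 64 ^ K * (2 ^ n * (2 ^ 33 * 64 ^ K) * (1 / 2 ^ 56)) := by gcongr
  have h5 : (2 : ℝ) / 64 ^ K * (2 ^ n * (2 ^ 33 * 64 ^ K) * (1 / 2 ^ 56)) = 2 ^ n * (1 / 2 ^ 22) := by
    field_simp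
  have h6 : (2 : ℝ) ^ n * N.fc m S * (2 / 2 ^ (sk 128 K / 2)) ≤ 2 ^ n * (1 / 2 ^ 30) := by
    have h7 : sk 128 K / 2 = 64 * 4 ^ K := by unfold sk; omega
    have h8 : ∀ K : ℕ, 6 * K + 64 ≤ 64 * 4 ^ K := by
      intro K
      induction K with
      | zero => norm_num
      | succ K ih => rw [pow_succ]; omega
    have h9 : (64 : ℝ) ^ K = 2 ^ (6 * K) := by rw [pow_mul]; norm_num
    have h10 : (N.fc m S : ℝ) * (2 / 2 ^ (sk 128 K / 2)) ≤ 1 / 2 ^ 30 := by
      calc (N.fc m S : ℝ) * (2 / 2 ^ (sk 128 K / 2)) ≤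
            (2 ^ 33 * 64 ^ K) * (2 / 2 ^ (sk 128 K / 2)) := by gcongr
        _ ≤ 1 / 2 ^ 30 := by
          rw [h7, h9, ← pow_add, ← mul_div_assoc, ← pow_succ,
            div_le_div_iff₀ (by positivity) (by positivity), one_mul, ← pow_add]
          refine pow_le_pow_right₀ (by norm_num) ?_
          have := h8 K
          omega
    rw [mul_assoc]
    gcongr
  have h11 : (0 : ℝ) < 2 ^ n := by positivity
  have h12 : (2 : ℝ) ^ n ≤ 2 ^ n * (1 / 2 ^ 30) + 2 ^ n * (1 / 2 ^ 22) := by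
    linarith
  nlinarith

end Net

end PLA
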