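import Pool.Agent.PLA.Defs

/-!
# From reachability with a potential to long simple paths
-/

namespace PLA

/-- a chain contains a duplicate-free chain with the same ends -/
theorem exists_nodup_of_chain {α : Type*} {R : α → α → Prop} :
    ∀ (m : ℕ) (l : List α), l.length ≤ m → l.IsChain R → ∀ a b, l.head? = some a →
      l.getLast? = some b →
      ∃ l' : List α, l'.Nodup ∧ l'.IsChain R ∧ l'.head? = some a ∧ l'.getLast? = some b := by
  classical
  intro m
  induction m with
  | zero =>
    intro l hl _ a b ha _
    have : l = [] := List.length_eq_zero_iff.1 (by omega)
    rw [this] at ha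
    simp at ha
  | succ m ih =>
    intro l hl hc a b ha hb
    cases l with
    | nil => simp at ha
    | cons x t =>
      rw [List.head?_cons, Option.some.injEq] at ha
      subst ha
      by_cases hx : x ∈ t
      · -- cut the loop at x
        obtain ⟨u, v, huv⟩ := List.append_of_mem hx
        subst huv
        have h1 : (x :: v).IsChain R := by
          have h2 : (x :: u) ++ (x :: v) = x :: (u ++ x :: v) := rfl
          rw [← h2] at hc
          exact hc.right_of_append
        refine ih (x :: v) ?_ h1 x b rfl ?_
        · simp only [List.length_cons, List.length_append] at hl ⊢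
          omega
        · rw [← hb]
          have h2 : x :: (u ++ x :: v) = (x :: u) ++ (x :: v) := rfl
          rw [h2, List.getLast?_append, List.getLast?_cons]
          rfl
      · cases t with
        | nil => 
          refine ⟨[x], by simp, by simp, rfl, hb⟩
        | cons y t =>
          have h1 : (y :: t).IsChain R := (List.isChain_cons_cons.1 hc).2
          have h0 : R x y := (List.isChain_cons_cons.1 hc).1
          -- recursive call gives a chain from y; it may contain x
          obtain ⟨l', hn, hc', hh, hlast⟩ := ih (y :: t) (by simp at hl ⊢; omega) h1 y b rfl
            (by rw [← hb]; simp)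
          by_cases hx' : x ∈ l'
          · obtain ⟨u, v, huv⟩ := List.append_of_mem hx'
            subst huv
            refine ⟨x :: v, (List.nodup_append.1 hn).2.1, hc'.right_of_append, rfl, ?_⟩
            rw [← hlast, List.getLast?_append, List.getLast?_cons]
            rfl
          · cases l' with
            | nil => simp at hh
            | cons z w =>
              rw [List.head?_cons, Option.some.injEq] at hh
              subst hh
              refine ⟨x :: z :: w, List.nodup_cons.2 ⟨hx', hn⟩, List.isChain_cons_cons.2 ⟨h0, hc'⟩,
                rfl, ?_⟩
              rw [← hlast]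
              simp

theorem exists_nodup_chain {α : Type*} {R : α → α → Prop} {a b : α}
    (h : Relation.ReflTransGen R a b) :
    ∃ l : List α, l.Nodup ∧ l.IsChain R ∧ l.head? = some a ∧ l.getLast? = some b := by
  have key : ∃ l : List α, l.IsChain R ∧ l.head? = some a ∧ l.getLast? = some b := by
    induction h using Relation.ReflTransGen.head_induction_on with
    | refl => exact ⟨[b], by simp, rfl, rfl⟩
    | head h1 _ ih =>
      obtain ⟨l, hc, hh, hl⟩ := ih
      cases l with
      | nil => simp at hh
      | cons z w =>
        rw [List.head?_cons, Option.some.injEq] at hh
        subst hh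
        exact ⟨_ :: z :: w, List.isChain_cons_cons.2 ⟨h1, hc⟩, rfl, by rw [← hl]; simp⟩
  obtain ⟨l, hc, hh, hl⟩ := key
  exact exists_nodup_of_chain l.length l le_rfl hc a b hh hl

theorem length_of_potential {α : Type*} {R : α → α → Prop} (g : α → ℕ)
    (hR : ∀ x y, R x y → g y ≤ g x + 1) {l : List α} (hl : l.IsChain R) {a b : α}
    (ha : l.head? = some a) (hb : l.getLast? = some b) : g b ≤ g a + l.length := by
  induction l generalizing a with
  | nil => simp at ha
  | cons x t ih =>
    rw [List.head?_cons, Option.some.injEq] at ha
    subst ha
    cases t with
    | nil =>
      simp only [List.getLast?_singleton, Option.some.injEq] at hb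
      subst hb
      simp
    | cons y t =>
      have h1 := (List.isChain_cons_cons.1 hl)
      have h2 := ih h1.2 rfl (by rw [← hb]; simp)
      have h3 := hR _ _ h1.1
      simp only [List.length_cons] at h2 ⊢
      omega

end PLA
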