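import Pool.Agent.PLA.Geo
import Pool.Agent.PLA.Good
import Pool.Agent.PLA.Path

/-!
# Long directed paths in sorting networks
-/

namespace PLA

open Finset

theorem RR_eq (s0 k : ℕ) : RR s0 k + 16 * (s0 * 4 ^ k) = 32 * (s0 * 8 ^ k) := by
  induction k with
  | zero => simp [RR]; omega
  | succ k ih =>
    have h : RR s0 (k + 1) = 8 * RR s0 k + 2 * (8 * (s0 * 4 ^ (k + 1))) := rfl
    have h1 : s0 * 4 ^ (k + 1) = 4 * (s0 * 4 ^ k) := by rw [pow_succ]; ring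
    have h2 : s0 * 8 ^ (k + 1) = 8 * (s0 * 8 ^ k) := by rw [pow_succ]; ring
    rw [h, h1, h2]
    omega

theorem le_RR (k : ℕ) : k ≤ RR 128 k := by
  induction k with
  | zero => exact Nat.zero_le _
  | succ k ih =>
    have h : RR 128 (k + 1) = 8 * RR 128 k + 2 * (8 * (128 * 4 ^ (k + 1))) := rfl
    have h1 : 1 ≤ 4 ^ (k + 1) := Nat.one_le_pow _ _ (by norm_num)
    omega

/-- a long path under a good colouring -/
theorem Net.path_of_good {n : ℕ} (N : Net n) {m K : ℕ} (hm : m ≤ n) (h1 : 1 + RR 128 K ≤ n - m)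
    (h2 : 1 + RR 128 K ≤ m) {ω : Finset ℕ} (E : N.Ev m (Sq 128 K 1 1) (sk 128 K) ω) :
    ∃ l : List (Finset ℕ), l.Nodup ∧ l.IsChain (N.Arc ω) ∧ N.V m 128 K ω 1 1 ≤ l.length := by
  have hR := RR_ge 128 K
  have hs : 1 ≤ sk 128 K := by
    unfold sk
    have := Nat.one_le_pow K 4 (by norm_num)
    omega
  have hs128 : 128 ≤ sk 128 K := by
    unfold sk
    have := Nat.one_le_pow K 4 (by norm_num)
    omega
  obtain ⟨h, hbot, htop, hreach⟩ := N.traverse hm (s0 := 128) (by norm_num) ω K 1 1 le_rfl le_rfl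
    h1 h2 E
  have E' : N.Ev m (Rc 1 (1 + RR 128 K) 1 (1 + RR 128 K)) (sk 128 K) ω := E
  obtain ⟨z, hz, cz⟩ := N.anchor hm hs le_rfl le_rfl E' (p := 1 + 4 * sk 128 K)
    (q := 1 + 4 * sk 128 K) (by omega) (by omega) (by omega) (by omega) (by omega) (by omega)
  obtain ⟨z', hz', cz'⟩ := N.anchor hm hs le_rfl le_rfl E' (p := 1 + 4 * sk 128 K)
    (q := 1 + RR 128 K - 4 * sk 128 K) (by omega) (by omega) (by omega) (by omega) (by omega)
    (by omega)
  obtain ⟨c1, c2, c3, c4⟩ := cz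
  obtain ⟨c1', c2', c3', c4'⟩ := cz'
  have hph : ph 128 K = 8 * sk 128 K := rfl
  have hr := hreach z z' hz hz' ⟨by omega, by omega, by omega, by omega⟩
    ⟨by omega, by omega, by omega, by omega⟩
  obtain ⟨l, hn, hc, hh, hl⟩ := exists_nodup_chain hr
  refine ⟨l, hn, hc.imp fun _ _ hxy => hxy.1, ?_⟩
  have hlen := length_of_potential (fun X => h (cd m X)) (fun X Y hXY => hXY.2.2.2.2) hc hh hl
  have e1 : h (cd m z) = 0 := hbot _ ⟨by omega, by omega, by omega, by omega⟩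
  have e2 : h (cd m z') = N.V m 128 K ω 1 1 := htop _ ⟨by omega, by omega, by omega, by omega⟩
  simp only [e1, e2] at hlen
  omega

theorem net_main : ∃ c : ℝ, 0 < c ∧ ∃ n0 : ℕ, ∀ n ≥ n0, ∀ N : Net n,
    ∃ ω : Finset ℕ, ∃ l : List (Finset ℕ), l.Nodup ∧ l.IsChain (N.Arc ω) ∧
      c * (n : ℝ) ^ 2 ≤ l.length := by
  classical
  refine ⟨1 / 2 ^ 34, by positivity, 5000, fun n hn N => ?_⟩
  set m := n / 2 with hm
  have hex : ∃ K, m < RR 128 (K + 1) + 1 := ⟨m, by have := le_RR (m + 1); omega⟩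
  set K := Nat.find hex with hK
  have hK1 : m < RR 128 (K + 1) + 1 := Nat.find_spec hex
  have hK2 : 1 + RR 128 K ≤ m := by
    rcases Nat.eq_zero_or_pos K with h0 | h0
    · rw [h0]
      have : RR 128 0 = 2048 := rfl
      omega
    · have h1 := Nat.find_min hex (m := K - 1) (by omega)
      rw [show K - 1 + 1 = K by omega] at h1
      omega
  have hRR := RR_eq 128 (K + 1)
  have h8 : 128 * 8 ^ (K + 1) = 1024 * 8 ^ K := by rw [pow_succ]; ring
  have hmK : m ≤ 32768 * 8 ^ K := by omega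
  have hnK : n ≤ 65536 * 8 ^ K + 1 := by omega
  have h64 : (8 ^ K) * (8 ^ K) = 64 ^ K := by
    rw [← mul_pow]
    norm_num
  have h81 : 1 ≤ 8 ^ K := Nat.one_le_pow _ _ (by norm_num)
  have hbig : n * n + n + 1 ≤ 2 ^ 33 * 64 ^ K := by
    have h1 : n * n ≤ (65536 * 8 ^ K + 1) * (65536 * 8 ^ K + 1) := Nat.mul_le_mul hnK hnK
    have h2 : 8 ^ K ≤ (8 ^ K) * (8 ^ K) := Nat.le_mul_of_pos_left _ (by omega)
    rw [← h64]
    nlinarith
  obtain ⟨ω, -, E, hV⟩ := N.exists_good m K 1 1 hbig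
  obtain ⟨l, hl1, hl2, hl3⟩ := N.path_of_good (m := m) (K := K) (by omega) (by omega) hK2 E
  refine ⟨ω, l, hl1, hl2, ?_⟩
  have h1 : 64 ^ K ≤ 2 * l.length := hV.trans (Nat.mul_le_mul_left _ hl3)
  have h2 : n * n ≤ 2 ^ 34 * l.length := by
    calc n * n ≤ 2 ^ 33 * 64 ^ K := by omega
      _ ≤ 2 ^ 33 * (2 * l.length) := Nat.mul_le_mul_left _ h1
      _ = 2 ^ 34 * l.length := by ring
  have h3 : (n : ℝ) ^ 2 ≤ 2 ^ 34 * l.length := by
    rw [sq]
    exact_mod_cast h2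
  rw [one_div, inv_mul_le_iff₀ (by positivity)]
  exact h3

end PLA
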