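import Pool.Agent.PLA.Arr

/-!
# Faces of an arrangement as sets of pseudolines below them
-/

namespace PLA

open Set

variable {n : ℕ}

/-- the region of the points with exactly the pseudolines of X below them -/
def Arrangement.reg (A : Arrangement n) (X : Set (Fin n)) : Set (ℝ × ℝ) :=
  {p | (∀ i ∈ X, A.f i p.1 < p.2) ∧ (∀ i ∉ X, p.2 < A.f i p.1)}

/-- the set of the pseudolines below a point -/
def Arrangement.bel (A : Arrangement n) (p : ℝ × ℝ) : Set (Fin n) := {i | A.f i p.1 < p.2}

theorem Arrangement.reg_open (A : Arrangement n) (X : Set (Fin n)) : IsOpen (A.reg X) := by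
  have h : A.reg X = (⋂ i : Fin n, {p : ℝ × ℝ | i ∈ X → A.f i p.1 < p.2}) ∩
      (⋂ i : Fin n, {p : ℝ × ℝ | i ∉ X → p.2 < A.f i p.1}) := by
    ext p; simp [Arrangement.reg]
  rw [h]
  refine (isOpen_iInter_of_finite fun i => ?_).inter (isOpen_iInter_of_finite fun i => ?_)
  · by_cases hi : i ∈ X
    · simp only [hi, true_imp_iff]
      exact isOpen_lt ((A.cont i).comp continuous_fst) continuous_snd
    · simp [hi]
  · by_cases hi : i ∈ X
    · simp [hi]
    · simp only [hi, not_false_eq_true, true_imp_iff]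
      exact isOpen_lt continuous_snd ((A.cont i).comp continuous_fst)

theorem Arrangement.reg_sub (A : Arrangement n) (X : Set (Fin n)) : A.reg X ⊆ A.linesᶜ := by
  rintro p hp ⟨i, hi⟩
  by_cases hiX : i ∈ X
  · exact (hp.1 i hiX).ne hi
  · exact (hp.2 i hiX).ne' hi

theorem Arrangement.mem_reg_bel (A : Arrangement n) {p : ℝ × ℝ} (hp : p ∉ A.lines) :
    p ∈ A.reg (A.bel p) := by
  refine ⟨fun i hi => hi, fun i hi => ?_⟩
  have h1 : ¬ A.f i p.1 < p.2 := hi
  exact lt_of_le_of_ne (not_lt.1 h1) (fun h => hp ⟨i, h.symm⟩)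

theorem Arrangement.bel_of_mem_reg (A : Arrangement n) {X : Set (Fin n)} {p : ℝ × ℝ}
    (hp : p ∈ A.reg X) : A.bel p = X := by
  ext i
  constructor
  · intro h
    by_contra hi
    exact lt_asymm (show A.f i p.1 < p.2 from h) (hp.2 i hi)
  · exact fun h => hp.1 i h

theorem Arrangement.reg_disj (A : Arrangement n) {X Y : Set (Fin n)} (h : X ≠ Y) :
    Disjoint (A.reg X) (A.reg Y) := by
  rw [Set.disjoint_left]
  intro p hp hq
  exact h ((A.bel_of_mem_reg hp).symm.trans (A.bel_of_mem_reg hq))

/-- the abscissas where `X` lies below its complement -/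
def Arrangement.ivl (A : Arrangement n) (X : Set (Fin n)) : Set ℝ :=
  {x | ∀ i, i ∈ X → ∀ j, j ∉ X → A.f i x < A.f j x}

theorem ordConnected_of_cross {g h : ℝ → ℝ} (H : ∃ x₀, g x₀ = h x₀ ∧
    (((∀ x < x₀, g x < h x) ∧ (∀ x > x₀, h x < g x)) ∨
      ((∀ x < x₀, h x < g x) ∧ (∀ x > x₀, g x < h x)))) :
    OrdConnected {x | g x < h x} := by
  obtain ⟨x₀, h0, h1 | h1⟩ := H
  · have : {x | g x < h x} = Iio x₀ := by
      ext x
      simp only [mem_ofPred_eq, mem_Iio]
      constructor
      · intro hx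
        by_contra hc
        rcases eq_or_lt_of_le (not_lt.1 hc) with h2 | h2
        · rw [← h2, h0] at hx; exact lt_irrefl _ hx
        · exact lt_asymm hx (h1.2 x h2)
      · exact fun hx => h1.1 x hx
    rw [this]; exact ordConnected_Iio
  · have : {x | g x < h x} = Ioi x₀ := by
      ext x
      simp only [mem_ofPred_eq, mem_Ioi]
      constructor
      · intro hx
        by_contra hc
        rcases eq_or_lt_of_le (not_lt.1 hc) with h2 | h2
        · rw [h2, h0] at hx; exact lt_irrefl _ hx
        · exact lt_asymm hx (h1.1 x h2)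
      · exact fun hx => h1.2 x hx
    rw [this]; exact ordConnected_Ioi

theorem Arrangement.ivl_ordConnected (A : Arrangement n) (X : Set (Fin n)) :
    OrdConnected (A.ivl X) := by
  constructor
  intro x hx y hy z hz i hi j hj
  have hij : i ≠ j := fun h => hj (h ▸ hi)
  exact (ordConnected_of_cross (A.cross i j hij)).out (hx i hi j hj) (hy i hi j hj) hz

theorem Arrangement.fst_mem_ivl (A : Arrangement n) {X : Set (Fin n)} {p : ℝ × ℝ}
    (hp : p ∈ A.reg X) : p.1 ∈ A.ivl X := fun i hi j hj => (hp.1 i hi).trans (hp.2 j hj)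

/-- a continuous section of the region over its interval -/
theorem Arrangement.exists_section (A : Arrangement n) (X : Set (Fin n)) :
    ∃ m : ℝ → ℝ, Continuous m ∧ ∀ x ∈ A.ivl X, (x, m x) ∈ A.reg X := by
  classical
  set S : Finset (Fin n) := Finset.univ.filter (fun i => i ∈ X) with hSd
  have hmem : ∀ i, i ∈ S ↔ i ∈ X := by intro i; simp [hSd]
  by_cases hS : S.Nonempty
  · by_cases hT : (Finset.univ \ S).Nonempty
    · let L : ℝ → ℝ := fun x => S.sup' hS (fun i => A.f i x)
      let U : ℝ → ℝ := fun x => (Finset.univ \ S).inf' hT (fun i => A.f i x)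
      have hL : Continuous L := Continuous.finset_sup'_apply hS (fun i _ => A.cont i)
      have hU : Continuous U := Continuous.finset_inf'_apply hT (fun i _ => A.cont i)
      refine ⟨fun x => (L x + U x) / 2, (hL.add hU).div_const 2, fun x hx => ?_⟩
      have hLU : L x < U x := by
        obtain ⟨i, hi, hi'⟩ := Finset.exists_mem_eq_sup' hS (fun i => A.f i x)
        obtain ⟨j, hj, hj'⟩ := Finset.exists_mem_eq_inf' hT (fun i => A.f i x)
        show S.sup' hS (fun i => A.f i x) < (Finset.univ \ S).inf' hT (fun i => A.f i x)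
        rw [hi', hj']
        exact hx i ((hmem i).1 hi) j (fun h => (Finset.mem_sdiff.1 hj).2 ((hmem j).2 h))
      refine ⟨fun i hi => ?_, fun i hi => ?_⟩
      · have : A.f i x ≤ L x := Finset.le_sup' (fun i => A.f i x) ((hmem i).2 hi)
        show A.f i x < (L x + U x) / 2
        linarith
      · have : U x ≤ A.f i x := Finset.inf'_le (fun i => A.f i x)
          (Finset.mem_sdiff.2 ⟨Finset.mem_univ i, fun h => hi ((hmem i).1 h)⟩)
        show (L x + U x) / 2 < A.f i x
        linarith
    · let L : ℝ → ℝ := fun x => S.sup' hS (fun i => A.f i x)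
      have hL : Continuous L := Continuous.finset_sup'_apply hS (fun i _ => A.cont i)
      refine ⟨fun x => L x + 1, hL.add continuous_const, fun x _ => ?_⟩
      refine ⟨fun i hi => ?_, fun i hi => ?_⟩
      · have : A.f i x ≤ L x := Finset.le_sup' (fun i => A.f i x) ((hmem i).2 hi)
        show A.f i x < L x + 1
        linarith
      · exact absurd ⟨i, Finset.mem_sdiff.2 ⟨Finset.mem_univ i, fun h => hi ((hmem i).1 h)⟩⟩ hT
  · by_cases hT : (Finset.univ \ S).Nonempty
    · let U : ℝ → ℝ := fun x => (Finset.univ \ S).inf' hT (fun i => A.f i x)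
      have hU : Continuous U := Continuous.finset_inf'_apply hT (fun i _ => A.cont i)
      refine ⟨fun x => U x - 1, hU.sub continuous_const, fun x _ => ?_⟩
      refine ⟨fun i hi => absurd ⟨i, (hmem i).2 hi⟩ hS, fun i hi => ?_⟩
      have : U x ≤ A.f i x := Finset.inf'_le (fun i => A.f i x)
          (Finset.mem_sdiff.2 ⟨Finset.mem_univ i, fun h => hi ((hmem i).1 h)⟩)
      show U x - 1 < A.f i x
      linarith
    · refine ⟨fun _ => 0, continuous_const, fun x _ => ?_⟩
      refine ⟨fun i hi => absurd ⟨i, (hmem i).2 hi⟩ hS, fun i hi => absurd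
        ⟨i, Finset.mem_sdiff.2 ⟨Finset.mem_univ i, fun h => hi ((hmem i).1 h)⟩⟩ hT⟩

theorem Arrangement.reg_preconnected (A : Arrangement n) (X : Set (Fin n)) :
    IsPreconnected (A.reg X) := by
  obtain ⟨m, hm, hsec⟩ := A.exists_section X
  rcases (A.reg X).eq_empty_or_nonempty with h | ⟨p, hp⟩
  · rw [h]; exact isPreconnected_empty
  have hG : IsPreconnected ((fun x => (x, m x)) '' A.ivl X) :=
    (A.ivl_ordConnected X).isPreconnected.image _
      (continuous_id.prodMk hm).continuousOn
  have hV : ∀ q ∈ A.reg X, IsPreconnected ((fun y : ℝ => (q.1, y)) '' uIcc q.2 (m q.1)) :=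
    fun q _ => isPreconnected_uIcc.image _ (by fun_prop)
  have hVs : ∀ q ∈ A.reg X, ((fun y : ℝ => (q.1, y)) '' uIcc q.2 (m q.1)) ⊆ A.reg X := by
    rintro q hq _ ⟨y, hy, rfl⟩
    have h1 := hsec q.1 (A.fst_mem_ivl hq)
    rw [mem_uIcc] at hy
    refine ⟨fun i hi => ?_, fun i hi => ?_⟩
    · have e1 := hq.1 i hi
      have e2 := h1.1 i hi
      show A.f i q.1 < y
      rcases hy with hy | hy
      · exact e1.trans_le hy.1
      · exact e2.trans_le hy.1
    · have e1 := hq.2 i hi
      have e2 := h1.2 i hi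
      show y < A.f i q.1
      rcases hy with hy | hy
      · exact hy.2.trans_lt e2
      · exact hy.2.trans_lt e1
  have hW : ∀ q ∈ A.reg X, IsPreconnected (((fun x => (x, m x)) '' A.ivl X) ∪
      ((fun y : ℝ => (q.1, y)) '' uIcc q.2 (m q.1))) := by
    intro q hq
    have h1 : (q.1, m q.1) ∈ (fun x => (x, m x)) '' A.ivl X := ⟨q.1, A.fst_mem_ivl hq, rfl⟩
    have h2 : (q.1, m q.1) ∈ (fun y : ℝ => (q.1, y)) '' uIcc q.2 (m q.1) :=
      ⟨m q.1, right_mem_uIcc, rfl⟩
    exact IsPreconnected.union _ h1 h2 hG (hV q hq)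
  refine isPreconnected_of_forall (p.1, m p.1) fun q hq => ?_
  have k1 : ((fun x => (x, m x)) '' A.ivl X) ⊆ A.reg X := by
    rintro _ ⟨x, hx, rfl⟩
    exact hsec x hx
  have k2 : (p.1, m p.1) ∈ ((fun x => (x, m x)) '' A.ivl X) ∪
      ((fun y : ℝ => (q.1, y)) '' uIcc q.2 (m q.1)) := Or.inl ⟨p.1, A.fst_mem_ivl hp, rfl⟩
  have k3 : q ∈ ((fun x => (x, m x)) '' A.ivl X) ∪
      ((fun y : ℝ => (q.1, y)) '' uIcc q.2 (m q.1)) := Or.inr ⟨q.2, left_mem_uIcc, rfl⟩
  exact ⟨_, union_subset k1 (hVs q hq), k2, k3, hW q hq⟩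

theorem Arrangement.component (A : Arrangement n) {X : Set (Fin n)} {p : ℝ × ℝ}
    (hp : p ∈ A.reg X) : connectedComponentIn A.linesᶜ p = A.reg X := by
  apply Subset.antisymm
  · have h1 : IsPreconnected (connectedComponentIn A.linesᶜ p) :=
      isPreconnected_connectedComponentIn
    have hU : IsOpen (⋃ T ∈ {T : Set (Fin n) | T ≠ X}, A.reg T) :=
      isOpen_biUnion fun T _ => A.reg_open T
    refine h1.subset_left_of_subset_union (A.reg_open X) hU ?_ ?_
      ⟨p, mem_connectedComponentIn (A.reg_sub X hp), hp⟩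
    · rw [Set.disjoint_iUnion₂_right]
      exact fun T hT => A.reg_disj (Ne.symm hT)
    · intro q hq
      have hq' : q ∈ A.linesᶜ := connectedComponentIn_subset _ _ hq
      have hq2 := A.mem_reg_bel hq'
      by_cases h : A.bel q = X
      · left; rw [← h]; exact hq2
      · right
        exact mem_biUnion (show A.bel q ∈ {T : Set (Fin n) | T ≠ X} from h) hq2
  · exact (A.reg_preconnected X).subset_connectedComponentIn hp (A.reg_sub X)

/-- Nonempty regions are faces. -/
theorem Arrangement.isFace_reg (A : Arrangement n) {X : Set (Fin n)} (h : (A.reg X).Nonempty) :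
    A.IsFace (A.reg X) := by
  obtain ⟨p, hp⟩ := h
  exact ⟨p, A.reg_sub X hp, (A.component hp).symm⟩

theorem Arrangement.reg_inj (A : Arrangement n) {X Y : Set (Fin n)} (h : (A.reg X).Nonempty)
    (e : A.reg X = A.reg Y) : X = Y := by
  obtain ⟨p, hp⟩ := h
  have hq : p ∈ A.reg Y := e ▸ hp
  exact (A.bel_of_mem_reg hp).symm.trans (A.bel_of_mem_reg hq)

/-- If at x the pseudoline l has exactly the pseudolines of X strictly below it and all the others
strictly above it then the regions of X and X ∪ {l} are nonempty and share an edge of l. -/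
theorem Arrangement.sharesEdge_reg (A : Arrangement n) {X : Set (Fin n)} {l : Fin n} (_ : l ∉ X)
    {x : ℝ} (h1 : ∀ i ∈ X, A.f i x < A.f l x) (h2 : ∀ i, i ∉ X → i ≠ l → A.f l x < A.f i x) :
    (A.reg X).Nonempty ∧ (A.reg (insert l X)).Nonempty ∧
      A.SharesEdge l (A.reg X) (A.reg (insert l X)) := by
  classical
  have hev : ∀ᶠ y in nhds (A.f l x), (∀ j, j ∈ X → A.f j x < y) ∧
      (∀ j, j ∉ X → j ≠ l → y < A.f j x) := by
    refine Filter.Eventually.and ?_ ?_
    · rw [Filter.eventually_all]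
      intro j
      by_cases hj : j ∈ X
      · filter_upwards [lt_mem_nhds (h1 j hj)] with y hy _ using hy
      · exact Filter.Eventually.of_forall fun y h => absurd h hj
    · rw [Filter.eventually_all]
      intro j
      by_cases hj : j ∉ X ∧ j ≠ l
      · filter_upwards [gt_mem_nhds (h2 j hj.1 hj.2)] with y hy _ _ using hy
      · exact Filter.Eventually.of_forall fun y h1 h2 => absurd ⟨h1, h2⟩ hj
  have hc : Continuous (fun y : ℝ => (x, y)) := by fun_prop
  have c1 : (x, A.f l x) ∈ closure (A.reg X) := by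
    have h1 : A.f l x ∈ closure (Iio (A.f l x)) := by rw [closure_Iio]; exact Set.self_mem_Iic
    have h2 : A.f l x ∈ closure {y | (x, y) ∈ A.reg X} := by
      rw [mem_closure_iff_frequently] at h1 ⊢
      refine (h1.and_eventually hev).mono fun y hy => ?_
      refine ⟨fun j hj => hy.2.1 j hj, fun j hj => ?_⟩
      by_cases hji : j = l
      · rw [hji]; exact hy.1
      · exact hy.2.2 j hj hji
    exact map_mem_closure hc h2 (fun y hy => hy)
  have c2 : (x, A.f l x) ∈ closure (A.reg (insert l X)) := by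
    have h1 : A.f l x ∈ closure (Ioi (A.f l x)) := by rw [closure_Ioi]; exact Set.self_mem_Ici
    have h2 : A.f l x ∈ closure {y | (x, y) ∈ A.reg (insert l X)} := by
      rw [mem_closure_iff_frequently] at h1 ⊢
      refine (h1.and_eventually hev).mono fun y hy => ?_
      refine ⟨fun j hj => ?_, fun j hj => ?_⟩
      · rcases Set.mem_insert_iff.1 hj with hj | hj
        · rw [hj]; exact hy.1
        · exact hy.2.1 j hj
      · have hj' : j ≠ l ∧ j ∉ X := by simpa [Set.mem_insert_iff, not_or] using hj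
        exact hy.2.2 j hj'.2 hj'.1
    exact map_mem_closure hc h2 (fun y hy => hy)
  refine ⟨closure_nonempty_iff.1 ⟨_, c1⟩, closure_nonempty_iff.1 ⟨_, c2⟩, x, fun j hj => ?_, c1, c2⟩
  by_cases hjX : j ∈ X
  · exact (h1 j hjX).ne
  · exact (h2 j hjX hj).ne'

theorem Arrangement.SharesEdge.symm {A : Arrangement n} {i : Fin n} {F G : Set (ℝ × ℝ)}
    (h : A.SharesEdge i F G) : A.SharesEdge i G F := by
  obtain ⟨x, h1, h2, h3⟩ := h
  exact ⟨x, h1, h3, h2⟩

end PLA
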