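import Pool.Agent.PLA.Bridge
import Pool.Agent.PLA.Top
import Pool.Agent.PLA.Main

/-!
# Long alternating dual paths
-/

namespace PLA

open Finset

namespace Final

variable {n : ℕ}

/-- the set of pseudolines whose labels are in X -/
def lab (e : Fin n ≃ Fin n) (X : Finset ℕ) : Set (Fin n) := {j | ((e.symm j : Fin n) : ℕ) ∈ X}

theorem mem_lab {e : Fin n ≃ Fin n} {X : Finset ℕ} {j : Fin n} :
    j ∈ lab e X ↔ ((e.symm j : Fin n) : ℕ) ∈ X := Iff.rfl

theorem lab_inj {e : Fin n ≃ Fin n} {X Y : Finset ℕ} (hX : X ⊆ range n) (hY : Y ⊆ range n)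
    (h : lab e X = lab e Y) : X = Y := by
  have key : ∀ a, a < n → (a ∈ X ↔ a ∈ Y) := by
    intro a ha
    have h1 : e ⟨a, ha⟩ ∈ lab e X ↔ e ⟨a, ha⟩ ∈ lab e Y := by rw [h]
    simpa [mem_lab] using h1
  ext a
  constructor
  · intro ha
    exact (key a (mem_range.mp (hX ha))).mp ha
  · intro ha
    exact (key a (mem_range.mp (hY ha))).mpr ha

/-- one vertical step between two faces of the same time -/
theorem step (A : Arrangement n) (N : Net n) (e : Fin n ≃ Fin n)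
    (H : ∀ t k, t ≤ N.T → k < n → ∀ l : Fin n, (l : ℕ) = N.ln t k →
      ∃ x, ∀ i : Fin n, ((i : ℕ) ∈ N.F t k → A.f (e i) x < A.f (e l) x) ∧
        ((i : ℕ) ∉ N.F t (k + 1) → A.f (e l) x < A.f (e i) x))
    {t k : ℕ} (ht : t ≤ N.T) (hk : k < n) (l : Fin n) (hl : (l : ℕ) = N.ln t k) :
    (A.reg (lab e (N.F t k))).Nonempty ∧ (A.reg (lab e (N.F t (k + 1)))).Nonempty ∧
      A.SharesEdge (e l) (A.reg (lab e (N.F t k))) (A.reg (lab e (N.F t (k + 1)))) := by
  obtain ⟨x, hx⟩ := H t k ht hk l hl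
  have hins : lab e (N.F t (k + 1)) = insert (e l) (lab e (N.F t k)) := by
    ext j
    rw [mem_lab, N.F_succ, Finset.mem_insert, Set.mem_insert_iff, mem_lab, ← hl]
    constructor
    · rintro (h | h)
      · left
        have : e.symm j = l := Fin.ext h
        rw [← this, Equiv.apply_symm_apply]
      · exact Or.inr h
    · rintro (h | h)
      · left
        rw [h, Equiv.symm_apply_apply]
      · exact Or.inr h
  have hnot : e l ∉ lab e (N.F t k) := by
    rw [mem_lab, Equiv.symm_apply_apply, hl]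
    exact N.ln_notMem_F ht le_rfl
  rw [hins]
  refine A.sharesEdge_reg hnot (x := x) ?_ ?_
  · intro j hj
    have := (hx (e.symm j)).1 (mem_lab.mp hj)
    rwa [Equiv.apply_symm_apply] at this
  · intro j hj hne
    have h1 : ((e.symm j : Fin n) : ℕ) ∉ N.F t (k + 1) := by
      rw [N.F_succ, Finset.mem_insert, ← hl]
      rintro (h | h)
      · apply hne
        have : e.symm j = l := Fin.ext h
        rw [← this, Equiv.apply_symm_apply]
      · exact hj h
    have := (hx (e.symm j)).2 h1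
    rwa [Equiv.apply_symm_apply] at this

/-- one arc -/
theorem arc_step (A : Arrangement n) (N : Net n) (e : Fin n ≃ Fin n)
    (H : ∀ t k, t ≤ N.T → k < n → ∀ l : Fin n, (l : ℕ) = N.ln t k →
      ∃ x, ∀ i : Fin n, ((i : ℕ) ∈ N.F t k → A.f (e i) x < A.f (e l) x) ∧
        ((i : ℕ) ∉ N.F t (k + 1) → A.f (e l) x < A.f (e i) x))
    (ω : Finset ℕ) {X Y : Finset ℕ} (h : N.Arc ω X Y) :
    ∃ l : Fin n, (A.reg (lab e X)).Nonempty ∧ (A.reg (lab e Y)).Nonempty ∧
      A.SharesEdge (e l) (A.reg (lab e X)) (A.reg (lab e Y)) ∧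
      ((l : ℕ) ∈ ω ↔ ¬ Even X.card) ∧ (Even Y.card ↔ ¬ Even X.card) ∧
      X ⊆ range n ∧ Y ⊆ range n := by
  obtain ⟨t, k, ht, hk, h⟩ := h
  refine ⟨⟨N.ln t k, N.ln_lt ht hk⟩, ?_⟩
  obtain ⟨h1, h2, h3⟩ := step A N e H ht hk ⟨N.ln t k, N.ln_lt ht hk⟩ rfl
  have c1 := N.card_F ht k
  have c2 := N.card_F ht (k + 1)
  have s1 := N.F_subset_range ht (k := k) (by omega)
  have s2 := N.F_subset_range ht (k := k + 1) (by omega)
  rcases h with ⟨rfl, rfl, h⟩ | ⟨rfl, rfl, h⟩
  · refine ⟨h1, h2, h3, ?_, ?_, s1, s2⟩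
    · rw [c1, h]; simp
    · rw [c1, c2, Nat.even_add_one]
  · refine ⟨h2, h1, h3.symm, ?_, ?_, s2, s1⟩
    · rw [c2, Nat.even_add_one, not_not, h]
    · rw [c1, c2, Nat.even_add_one, not_not]

end Final

theorem long_alternating : ∃ c : ℝ, 0 < c ∧ ∃ n0 : ℕ, ∀ n ≥ n0, ∀ A : Arrangement n, A.Simple →
    ∃ col : Fin n → Bool, (∃ i, col i = true) ∧ (∃ i, col i = false) ∧
      ∃ (M : ℕ) (F : ℕ → Set (ℝ × ℝ)) (e : ℕ → Fin n),
        A.IsAlternatingPath col M F e ∧ c * (n : ℝ) ^ 2 ≤ M := by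
  classical
  obtain ⟨c, hc, n0, hmain⟩ := net_main
  refine ⟨c, hc, max n0 (⌈3 / c⌉₊ + 1), ?_⟩
  intro n hn A hA
  have hn0 : n0 ≤ n := le_trans (le_max_left _ _) hn
  have hn1 : ⌈3 / c⌉₊ + 1 ≤ n := le_trans (le_max_right _ _) hn
  obtain ⟨N, e, H⟩ := bridge A hA
  obtain ⟨ω, l, hnd, hch, hlen⟩ := hmain n hn0 N
  have hnpos : 0 < n := by omega
  -- the path has at least three faces
  have h3 : 3 ≤ l.length := by
    have h1 : 3 / c ≤ (n : ℝ) := by
      have h2 : 3 / c ≤ ((⌈3 / c⌉₊ : ℕ) : ℝ) := Nat.le_ceil _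
      have h3 : ((⌈3 / c⌉₊ : ℕ) : ℝ) ≤ (n : ℝ) := by exact_mod_cast (by omega : ⌈3 / c⌉₊ ≤ n)
      linarith
    have h2 : 3 ≤ c * (n : ℝ) := by
      rw [div_le_iff₀ hc] at h1
      linarith
    have h4 : (1 : ℝ) ≤ n := by exact_mod_cast hnpos
    have h5 : c * (n : ℝ) ≤ c * (n : ℝ) ^ 2 := by
      have : (n : ℝ) ≤ (n : ℝ) ^ 2 := by nlinarith
      exact mul_le_mul_of_nonneg_left this hc.le
    have h6 : (3 : ℝ) ≤ l.length := by linarith
    exact_mod_cast h6
  rw [List.isChain_iff_getElem] at hch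
  have hstep : ∀ a, ∀ h : a + 1 < l.length, ∃ p : Fin n,
      (A.reg (Final.lab e (l[a]'(by omega)))).Nonempty ∧ (A.reg (Final.lab e l[a + 1])).Nonempty ∧
      A.SharesEdge (e p) (A.reg (Final.lab e (l[a]'(by omega)))) (A.reg (Final.lab e l[a + 1])) ∧
      ((p : ℕ) ∈ ω ↔ ¬ Even (l[a]'(by omega)).card) ∧
      (Even (l[a + 1]).card ↔ ¬ Even (l[a]'(by omega)).card) ∧
      (l[a]'(by omega)) ⊆ range n ∧ l[a + 1] ⊆ range n := by
    intro a h
    exact Final.arc_step A N e H ω (hch a h)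
  choose p hp1 hp2 hp3 hp4 hp5 hp6 hp7 using hstep
  let F : ℕ → Set (ℝ × ℝ) := fun a => A.reg (Final.lab e (l.getD a ∅))
  let E : ℕ → Fin n := fun a => if h : a + 1 < l.length then e (p a h) else ⟨0, hnpos⟩
  have hF : ∀ a (h : a < l.length), F a = A.reg (Final.lab e l[a]) := by
    intro a h
    simp only [F]
    rw [List.getD_eq_getElem _ _ h]
  have hE : ∀ a (h : a + 1 < l.length), E a = e (p a h) := by
    intro a h
    simp only [E]
    rw [dif_pos h]
  have hne : ∀ a (h : a < l.length), (A.reg (Final.lab e l[a])).Nonempty ∧ l[a] ⊆ range n := by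
    intro a h
    rcases Nat.lt_or_ge (a + 1) l.length with h1 | h1
    · exact ⟨hp1 a h1, hp6 a h1⟩
    · obtain ⟨b, rfl⟩ : ∃ b, a = b + 1 := ⟨a - 1, by omega⟩
      exact ⟨hp2 b h, hp7 b h⟩
  let col : Fin n → Bool := fun j => decide (((e.symm j : Fin n) : ℕ) ∈ ω)
  have hcol : ∀ a (h : a + 1 < l.length), col (E a) = decide (¬ Even (l[a]'(by omega)).card) := by
    intro a h
    simp only [col]
    rw [hE a h, Equiv.symm_apply_apply]
    exact decide_eq_decide.mpr (hp4 a h)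
  have halt : ∀ a, a + 2 < l.length → col (E a) ≠ col (E (a + 1)) := by
    intro a h
    rw [hcol a (by omega), hcol (a + 1) (by omega)]
    have := hp5 a (by omega)
    intro h'
    rw [decide_eq_decide] at h'
    tauto
  refine ⟨col, ?_, ?_, l.length, F, E, ⟨?_, ?_, ?_, ?_⟩, hlen⟩
  · have h01 := halt 0 (by omega)
    rcases h : col (E 0) with _ | _
    · refine ⟨E (0 + 1), ?_⟩
      rw [h] at h01
      cases h' : col (E (0 + 1))
      · exact absurd h'.symm h01
      · rfl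
    · exact ⟨E 0, h⟩
  · have h01 := halt 0 (by omega)
    rcases h : col (E 0) with _ | _
    · exact ⟨E 0, h⟩
    · refine ⟨E (0 + 1), ?_⟩
      rw [h] at h01
      cases h' : col (E (0 + 1))
      · rfl
      · exact absurd h'.symm h01
  · intro a ha
    rw [hF a ha]
    exact A.isFace_reg (hne a ha).1
  · intro a ha b hb hab heq
    rw [hF a ha, hF b hb] at heq
    have h1 := A.reg_inj (hne a ha).1 heq
    have h2 := Final.lab_inj (hne a ha).2 (hne b hb).2 h1
    exact hab ((hnd.getElem_inj_iff).mp h2)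
  · intro a ha
    rw [hF a (by omega), hF (a + 1) ha, hE a ha]
    exact hp3 a ha
  · intro a ha
    exact halt a ha

end PLA
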