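import Pool.Agent.PLA.Conn

/-!
# The multiscale passage through a block
-/

namespace PLA

open Finset

variable {n : ℕ} (N : Net n)

/-! ### The potential of a refined block -/

namespace Geo

/-- the potential of a refined block -/
def HH (x y P r f W : ℕ) (off : ℕ → ℕ → ℕ) (h : ℕ → ℕ → ℕ × ℕ → ℕ) (p : ℕ × ℕ) : ℕ :=
  if p.2 < y + P then 0 else
  if y + P + 8 * r ≤ p.2 then W else
  if (p.1 - (x + P)) % r < r - f then
    off ((p.1 - (x + P)) / r) ((p.2 - (y + P)) / r) +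
      h ((p.1 - (x + P)) / r) ((p.2 - (y + P)) / r) p
  else off ((p.1 - (x + P)) / r + 1) 0

variable {x y P r f W : ℕ} {off : ℕ → ℕ → ℕ} {h : ℕ → ℕ → ℕ × ℕ → ℕ}

theorem HH_bot {p : ℕ × ℕ} (hp : p.2 < y + P) : HH x y P r f W off h p = 0 := by
  simp [HH, hp]

theorem HH_top {p : ℕ × ℕ} (hp : y + P + 8 * r ≤ p.2) : HH x y P r f W off h p = W := by
  have : ¬ p.2 < y + P := by omega
  simp [HH, this, hp]

theorem div_aux {r i c : ℕ} (hc : c < r) : (c + i * r) / r = i := by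
  rw [Nat.add_mul_div_right _ _ (by omega), Nat.div_eq_of_lt hc, zero_add]

theorem mod_aux {r i c : ℕ} (hc : c < r) : (c + i * r) % r = c := by
  rw [Nat.add_mul_mod_self_right, Nat.mod_eq_of_lt hc]

theorem HH_in {i j : ℕ} (hj : j < 8) {p : ℕ × ℕ} (h1 : x + P + i * r ≤ p.1)
    (h2 : p.1 < x + P + i * r + (r - f)) (h3 : y + P + j * r ≤ p.2)
    (h4 : p.2 < y + P + j * r + r) :
    HH x y P r f W off h p = off i j + h i j p := by
  obtain ⟨c, hc⟩ := Nat.exists_eq_add_of_le h1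
  obtain ⟨d, hd⟩ := Nat.exists_eq_add_of_le h3
  have hj8 : j * r ≤ 7 * r := Nat.mul_le_mul_right r (by omega)
  have hcr : c < r := by omega
  have hdr : d < r := by omega
  have e1 : p.1 - (x + P) = c + i * r := by omega
  have e2 : p.2 - (y + P) = d + j * r := by omega
  have g1 : ¬ p.2 < y + P := by omega
  have g2 : ¬ y + P + 8 * r ≤ p.2 := by omega
  have g3 : c < r - f := by omega
  simp only [HH, g1, g2, if_false, e1, e2, div_aux hcr, div_aux hdr, mod_aux hcr, g3, if_true]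

theorem HH_strip {i : ℕ} {p : ℕ × ℕ} (h1 : x + P + i * r + (r - f) ≤ p.1)
    (h2 : p.1 < x + P + i * r + r) (h3 : y + P ≤ p.2) (h4 : p.2 < y + P + 8 * r) :
    HH x y P r f W off h p = off (i + 1) 0 := by
  obtain ⟨c, hc⟩ := Nat.exists_eq_add_of_le (show x + P + i * r ≤ p.1 by omega)
  have hcr : c < r := by omega
  have e1 : p.1 - (x + P) = c + i * r := by omega
  have g1 : ¬ p.2 < y + P := by omega
  have g2 : ¬ y + P + 8 * r ≤ p.2 := by omega
  have g3 : ¬ c < r - f := by omega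
  simp only [HH, g1, g2, if_false, e1, div_aux hcr, mod_aux hcr, g3]

end Geo

theorem sk_succ (s0 k : ℕ) : sk s0 (k + 1) = 4 * sk s0 k := by
  unfold sk; ring

theorem sk_pos {s0 : ℕ} (h : 16 ≤ s0) (k : ℕ) : 16 ≤ sk s0 k := by
  unfold sk
  calc 16 = 16 * 1 := by norm_num
    _ ≤ s0 * 4 ^ k := Nat.mul_le_mul h (Nat.one_le_pow _ _ (by norm_num))

theorem RR_ge (s0 k : ℕ) : 16 * sk s0 k ≤ RR s0 k := by
  induction k with
  | zero => simp [RR, sk]
  | succ k ih =>
    have : RR s0 (k + 1) = 8 * RR s0 k + 2 * ph s0 (k + 1) := rfl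
    rw [this, sk_succ]
    unfold ph
    rw [sk_succ]
    omega

namespace Net

theorem Ev_mono {m s : ℕ} {ω : Finset ℕ} {S S' : Set (ℕ × ℕ)} (h : S ⊆ S')
    (E : N.Ev m S' s ω) : N.Ev m S s ω :=
  fun X Y hX hY cX cY hc => E X Y hX hY (h cX) (h cY) hc

theorem reachP_of_reach {m : ℕ} {ω : Finset ℕ} {S S' : Set (ℕ × ℕ)} {h : ℕ × ℕ → ℕ}
    (hS : S ⊆ S') (hh : ∀ p ∈ S, ∀ q ∈ S, h p ≤ h q + 1) {z z' : Finset ℕ}
    (H : N.Reach m ω S z z') : N.ReachP m ω S' h z z' := by
  have key : N.RA m ω S ≤ N.RP m ω S' h := by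
    rintro X Y ⟨h1, h2, h3⟩
    exact ⟨h1, hS h2, hS h3, hh _ h2 _ h3, hh _ h3 _ h2⟩
  exact Relation.ReflTransGen.mono key z z' H

theorem reachP_mono {m : ℕ} {ω : Finset ℕ} {S S' : Set (ℕ × ℕ)} {h h' : ℕ × ℕ → ℕ}
    (hS : S ⊆ S') (c : ℕ) (hh : ∀ p ∈ S, h' p = c + h p) {z z' : Finset ℕ}
    (H : N.ReachP m ω S h z z') : N.ReachP m ω S' h' z z' := by
  have key : N.RP m ω S h ≤ N.RP m ω S' h' := by
    rintro X Y ⟨h1, h2, h3, h4, h5⟩
    refine ⟨h1, hS h2, hS h3, ?_, ?_⟩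
    · rw [hh _ h2, hh _ h3]; omega
    · rw [hh _ h2, hh _ h3]; omega
  exact Relation.ReflTransGen.mono key z z' H

/-- passage through a tube -/
theorem tube {m : ℕ} {ω : Finset ℕ} {S S' : Set (ℕ × ℕ)} {h : ℕ × ℕ → ℕ} {s : ℕ} (hs : 1 ≤ s)
    (E : N.Ev m S' s ω) (a1 a2 b1 b2 : ℕ) (ha1 : 1 ≤ a1) (hb1 : 1 ≤ b1)
    (ha : a1 + 2 * s + 6 ≤ a2) (hb : b1 + 2 * s + 6 ≤ b2)
    (h1 : Rc a1 a2 b1 b2 ⊆ S') (h2 : Rc a1 a2 b1 b2 ⊆ S)
    (hh : ∀ p ∈ Rc a1 a2 b1 b2, ∀ q ∈ Rc a1 a2 b1 b2, h p ≤ h q + 1)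
    {z z' : Finset ℕ} (hz : N.Bi ω z) (hz' : N.Bi ω z') {c1 c2 d1 d2 c1' c2' d1' d2' : ℕ}
    (cz : cd m z ∈ Rc c1 c2 d1 d2) (cz' : cd m z' ∈ Rc c1' c2' d1' d2')
    (g1 : a1 + s + 2 ≤ c1) (g2 : c2 ≤ a2 - s - 2) (g3 : b1 + s + 2 ≤ d1) (g4 : d2 ≤ b2 - s - 2)
    (g1' : a1 + s + 2 ≤ c1') (g2' : c2' ≤ a2 - s - 2) (g3' : b1 + s + 2 ≤ d1')
    (g4' : d2' ≤ b2 - s - 2) :
    N.ReachP m ω S h z z' := by
  apply N.reachP_of_reach h2 hh
  apply N.conn_rect hs ha1 hb1 (N.Ev_mono h1 E) ha hb hz hz'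
  · obtain ⟨u1, u2, u3, u4⟩ := cz
    exact ⟨by omega, by omega, by omega, by omega⟩
  · obtain ⟨u1, u2, u3, u4⟩ := cz'
    exact ⟨by omega, by omega, by omega, by omega⟩

/-- the plain passage -/
theorem plain {m : ℕ} {ω : Finset ℕ} {x y R s : ℕ} (hs : 16 ≤ s) (hx : 1 ≤ x) (hy : 1 ≤ y)
    (hR : 16 * s ≤ R) (E : N.Ev m (Rc x (x + R) y (y + R)) s ω) :
    ∃ h : ℕ × ℕ → ℕ,
      (∀ p ∈ Rc x (x + R - 8 * s) y (y + 8 * s), h p = 0) ∧
      (∀ p ∈ Rc x (x + R - 8 * s) (y + R - 8 * s) (y + R), h p = 1) ∧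
      ∀ z z', N.Bi ω z → N.Bi ω z' →
        cd m z ∈ Rc (x + 3 * s) (x + 5 * s + 1) (y + 3 * s) (y + 5 * s + 1) →
        cd m z' ∈ Rc (x + 3 * s) (x + 5 * s + 1) (y + R - 5 * s) (y + R - 3 * s + 1) →
        N.ReachP m ω (Rc x (x + R - 8 * s) y (y + R)) h z z' := by
  refine ⟨fun p => if p.2 < y + R - 8 * s then 0 else 1, ?_, ?_, ?_⟩
  · rintro p ⟨h1, h2, h3, h4⟩
    simp only [ite_eq_left_iff]
    omega
  · rintro p ⟨h1, h2, h3, h4⟩
    simp only [ite_eq_right_iff]
    omega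
  · intro z z' hz hz' cz cz'
    apply N.tube (by omega) E x (x + 8 * s) y (y + R) hx hy (by omega) (by omega) _ _ _
      hz hz' cz cz' <;> try omega
    · rintro p ⟨h1, h2, h3, h4⟩; exact ⟨h1, by omega, h3, h4⟩
    · rintro p ⟨h1, h2, h3, h4⟩; exact ⟨h1, by omega, h3, h4⟩
    · intro p _ q _
      split_ifs <;> omega


/-- anchors: bicoloured faces near a lattice point -/
theorem anchorR {m : ℕ} (hm : m ≤ n) {ω : Finset ℕ} {x y R s : ℕ} (hs : 1 ≤ s)
    (hx : 1 ≤ x) (hy : 1 ≤ y) (hxn : x + R ≤ n - m) (hym : y + R ≤ m)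
    (E : N.Ev m (Rc x (x + R) y (y + R)) s ω) (p q : ℕ)
    (hp1 : x + s + 2 ≤ p) (hp2 : p + s + 2 < x + R) (hq1 : y + s + 2 ≤ q)
    (hq2 : q + s + 2 < y + R) :
    ∃ z, N.Bi ω z ∧ cd m z ∈ Rc (p - s) (p + s + 1) (q - s) (q + s + 1) :=
  N.anchor hm hs hx hy E hp1 hp2 hq1 hq2 (by omega) (by omega)

/-- The refined passage through a block of side 8 r + 64 s whose 64 subblocks have side r. -/
theorem refined {m : ℕ} (hm : m ≤ n) {ω : Finset ℕ} {x y r s : ℕ} (hs : 16 ≤ s)
    (hr : 16 * s ≤ r) (hx : 1 ≤ x) (hy : 1 ≤ y)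
    (hxn : x + (8 * r + 64 * s) ≤ n - m) (hym : y + (8 * r + 64 * s) ≤ m)
    (E : N.Ev m (Rc x (x + (8 * r + 64 * s)) y (y + (8 * r + 64 * s))) s ω) (W : ℕ → ℕ → ℕ)
    (IH : ∀ i < 8, ∀ j < 8, ∃ h : ℕ × ℕ → ℕ,
      (∀ p ∈ Rc (x + 32 * s + i * r) (x + 32 * s + i * r + r - 8 * s) (y + 32 * s + j * r)
        (y + 32 * s + j * r + 8 * s), h p = 0) ∧
      (∀ p ∈ Rc (x + 32 * s + i * r) (x + 32 * s + i * r + r - 8 * s)
        (y + 32 * s + j * r + r - 8 * s) (y + 32 * s + j * r + r), h p = W i j) ∧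
      ∀ z z', N.Bi ω z → N.Bi ω z' →
        cd m z ∈ Rc (x + 32 * s + i * r + 3 * s) (x + 32 * s + i * r + 5 * s + 1)
          (y + 32 * s + j * r + 3 * s) (y + 32 * s + j * r + 5 * s + 1) →
        cd m z' ∈ Rc (x + 32 * s + i * r + 3 * s) (x + 32 * s + i * r + 5 * s + 1)
          (y + 32 * s + j * r + r - 5 * s) (y + 32 * s + j * r + r - 3 * s + 1) →
        N.ReachP m ω (Rc (x + 32 * s + i * r) (x + 32 * s + i * r + r - 8 * s)
          (y + 32 * s + j * r) (y + 32 * s + j * r + r)) h z z') :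
    ∃ h : ℕ × ℕ → ℕ,
      (∀ p ∈ Rc x (x + (8 * r + 64 * s) - 8 * (4 * s)) y (y + 8 * (4 * s)), h p = 0) ∧
      (∀ p ∈ Rc x (x + (8 * r + 64 * s) - 8 * (4 * s)) (y + (8 * r + 64 * s) - 8 * (4 * s))
        (y + (8 * r + 64 * s)), h p = ∑ i ∈ range 8, ∑ j ∈ range 8, W i j) ∧
      ∀ z z', N.Bi ω z → N.Bi ω z' →
        cd m z ∈ Rc (x + 3 * (4 * s)) (x + 5 * (4 * s) + 1) (y + 3 * (4 * s))
          (y + 5 * (4 * s) + 1) →
        cd m z' ∈ Rc (x + 3 * (4 * s)) (x + 5 * (4 * s) + 1)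
          (y + (8 * r + 64 * s) - 5 * (4 * s)) (y + (8 * r + 64 * s) - 3 * (4 * s) + 1) →
        N.ReachP m ω (Rc x (x + (8 * r + 64 * s) - 8 * (4 * s)) y (y + (8 * r + 64 * s)))
          h z z' := by
  classical
  choose! h hb ht hp using IH
  -- products
  have hmul : ∀ i, i < 8 → i * r ≤ 7 * r := fun i hi => Nat.mul_le_mul_right r (by omega)
  have hmul6 : ∀ i, i < 7 → i * r ≤ 6 * r := fun i hi => Nat.mul_le_mul_right r (by omega)
  have hsucc : ∀ i, (i + 1) * r = i * r + r := fun i => by ring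
  set off : ℕ → ℕ → ℕ := fun i j =>
    (∑ i' ∈ range i, ∑ j' ∈ range 8, W i' j') + ∑ j' ∈ range j, W i j' with hoff
  have off_s : ∀ i j, off i (j + 1) = off i j + W i j := by
    intro i j; simp only [hoff, Finset.sum_range_succ]; ring
  have off_c : ∀ i, off (i + 1) 0 = off i 8 := by
    intro i; simp only [hoff]; rw [Finset.sum_range_succ (n := i)]; simp
  have off_0 : off 0 0 = 0 := by simp [hoff]
  have off_t : off 7 7 + W 7 7 = ∑ i ∈ range 8, ∑ j ∈ range 8, W i j := by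
    rw [← off_s, Finset.sum_range_succ (n := 7)]
  set H : ℕ × ℕ → ℕ :=
    Geo.HH x y (32 * s) r (8 * s) (∑ i ∈ range 8, ∑ j ∈ range 8, W i j) off h with hH
  -- evaluation of H
  have H_bot : ∀ p : ℕ × ℕ, p.2 < y + 32 * s → H p = 0 := fun p hp => Geo.HH_bot hp
  have H_top : ∀ p : ℕ × ℕ, y + 32 * s + 8 * r ≤ p.2 →
      H p = ∑ i ∈ range 8, ∑ j ∈ range 8, W i j := fun p hp => Geo.HH_top hp
  have H_in : ∀ i < 8, ∀ j < 8, ∀ p : ℕ × ℕ, x + 32 * s + i * r ≤ p.1 →
      p.1 < x + 32 * s + i * r + r - 8 * s → y + 32 * s + j * r ≤ p.2 →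
      p.2 < y + 32 * s + j * r + r → H p = off i j + h i j p := by
    intro i _ j hj p h1 h2 h3 h4
    exact Geo.HH_in hj h1 (by omega) h3 h4
  have H_in0 : ∀ i < 8, ∀ j < 8, ∀ p : ℕ × ℕ, x + 32 * s + i * r ≤ p.1 →
      p.1 < x + 32 * s + i * r + r - 8 * s → y + 32 * s + j * r ≤ p.2 →
      p.2 < y + 32 * s + j * r + 8 * s → H p = off i j := by
    intro i hi j hj p h1 h2 h3 h4
    rw [H_in i hi j hj p h1 h2 h3 (by omega), hb i hi j hj p ⟨h1, h2, h3, h4⟩, add_zero]
  have H_in1 : ∀ i < 8, ∀ j < 8, ∀ p : ℕ × ℕ, x + 32 * s + i * r ≤ p.1 →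
      p.1 < x + 32 * s + i * r + r - 8 * s → y + 32 * s + j * r + r - 8 * s ≤ p.2 →
      p.2 < y + 32 * s + j * r + r → H p = off i (j + 1) := by
    intro i hi j hj p h1 h2 h3 h4
    rw [H_in i hi j hj p h1 h2 (by omega) h4, ht i hi j hj p ⟨h1, h2, h3, h4⟩, off_s]
  have H_st : ∀ i < 8, ∀ p : ℕ × ℕ, x + 32 * s + i * r + r - 8 * s ≤ p.1 →
      p.1 < x + 32 * s + i * r + r → y + 32 * s ≤ p.2 → p.2 < y + 32 * s + 8 * r →
      H p = off (i + 1) 0 := by
    intro i _ p h1 h2 h3 h4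
    exact Geo.HH_strip (by omega) h2 h3 h4
  set Z : Set (ℕ × ℕ) := Rc x (x + (8 * r + 64 * s) - 8 * (4 * s)) y (y + (8 * r + 64 * s))
    with hZ
  -- anchors
  have A : ∀ p q : ℕ, x + s + 2 ≤ p → p + s + 2 < x + (8 * r + 64 * s) → y + s + 2 ≤ q →
      q + s + 2 < y + (8 * r + 64 * s) →
      ∃ z, N.Bi ω z ∧ cd m z ∈ Rc (p - s) (p + s + 1) (q - s) (q + s + 1) :=
    fun p q h1 h2 h3 h4 => N.anchorR hm (by omega) hx hy hxn hym E p q h1 h2 h3 h4
  have hin : ∀ i < 8, ∀ j < 8, ∃ z, N.Bi ω z ∧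
      cd m z ∈ Rc (x + 32 * s + i * r + 3 * s) (x + 32 * s + i * r + 5 * s + 1)
          (y + 32 * s + j * r + 3 * s) (y + 32 * s + j * r + 5 * s + 1) := by
    intro i hi j hj
    have := hmul i hi
    have := hmul j hj
    obtain ⟨z, hz, c1, c2, c3, c4⟩ := A (x + 32 * s + i * r + 4 * s) (y + 32 * s + j * r + 4 * s)
      (by omega) (by omega) (by omega) (by omega)
    exact ⟨z, hz, by omega, by omega, by omega, by omega⟩
  have hout : ∀ i < 8, ∀ j < 8, ∃ z, N.Bi ω z ∧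
      cd m z ∈ Rc (x + 32 * s + i * r + 3 * s) (x + 32 * s + i * r + 5 * s + 1)
          (y + 32 * s + j * r + r - 5 * s) (y + 32 * s + j * r + r - 3 * s + 1) := by
    intro i hi j hj
    have := hmul i hi
    have := hmul j hj
    obtain ⟨z, hz, c1, c2, c3, c4⟩ := A (x + 32 * s + i * r + 4 * s)
      (y + 32 * s + j * r + r - 4 * s) (by omega) (by omega) (by omega) (by omega)
    exact ⟨z, hz, by omega, by omega, by omega, by omega⟩
  choose! ain ainB ainC using hin
  choose! aout aoutB aoutC using hout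
  -- up moves
  have up : ∀ i < 8, ∀ j < 7, N.ReachP m ω Z H (aout i j) (ain i (j + 1)) := by
    intro i hi j hj
    have h1 := hmul i hi
    have h2 := hmul6 j hj
    have c1 := aoutC i hi j (by omega)
    have c2 := ainC i hi (j + 1) (by omega)
    rw [hsucc] at c2
    apply N.tube (by omega) E (x + 32 * s + i * r) (x + 32 * s + i * r + 8 * s)
      (y + 32 * s + j * r + r - 8 * s) (y + 32 * s + j * r + r + 8 * s) (by omega) (by omega)
      (by omega) (by omega) _ _ _ (aoutB i hi j (by omega)) (ainB i hi (j + 1) (by omega)) c1 c2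
      <;> try omega
    · rintro p ⟨u1, u2, u3, u4⟩; exact ⟨by omega, by omega, by omega, by omega⟩
    · rintro p ⟨u1, u2, u3, u4⟩; exact ⟨by omega, by omega, by omega, by omega⟩
    · have key : ∀ p ∈ Rc (x + 32 * s + i * r) (x + 32 * s + i * r + 8 * s)
          (y + 32 * s + j * r + r - 8 * s) (y + 32 * s + j * r + r + 8 * s),
          H p = off i (j + 1) := by
        rintro p ⟨u1, u2, u3, u4⟩
        by_cases hc : p.2 < y + 32 * s + j * r + r
        · exact H_in1 i hi j (by omega) p u1 (by omega) u3 hc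
        · exact H_in0 i hi (j + 1) (by omega) p u1 (by omega) (by rw [hsucc]; omega)
            (by rw [hsucc]; omega)
      intro p hp q hq
      rw [key p hp, key q hq]; omega
  -- subblocks
  have sub : ∀ i < 8, ∀ j < 8, N.ReachP m ω Z H (ain i j) (aout i j) := by
    intro i hi j hj
    have h1 := hmul i hi
    have h2 := hmul j hj
    refine N.reachP_mono (S' := Z) (h' := H) ?_ (off i j) ?_
      (hp i hi j hj _ _ (ainB i hi j hj) (aoutB i hi j hj) (ainC i hi j hj) (aoutC i hi j hj))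
    · rintro p ⟨u1, u2, u3, u4⟩; exact ⟨by omega, by omega, by omega, by omega⟩
    · rintro p ⟨u1, u2, u3, u4⟩; exact H_in i hi j hj p u1 u2 u3 u4
  -- columns
  have col : ∀ i < 8, ∀ j < 8, N.ReachP m ω Z H (ain i 0) (aout i j) := by
    intro i hi j
    induction j with
    | zero => intro _; exact sub i hi 0 (by omega)
    | succ j ih =>
      intro hj
      exact ((ih (by omega)).trans (up i hi j (by omega))).trans (sub i hi (j + 1) hj)
  -- return moves
  have ret : ∀ i < 7, N.ReachP m ω Z H (aout i 7) (ain (i + 1) 0) := by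
    intro i hi
    have h1 := hmul6 i hi
    have c1 := aoutC i (by omega) 7 (by omega)
    have c2 := ainC (i + 1) (by omega) 0 (by omega)
    rw [hsucc] at c2
    obtain ⟨z1, z1B, z1C⟩ := A (x + 32 * s + i * r + r - 4 * s) (y + 32 * s + 8 * r - 4 * s)
      (by omega) (by omega) (by omega) (by omega)
    obtain ⟨z2, z2B, z2C⟩ := A (x + 32 * s + i * r + r - 4 * s) (y + 32 * s + 4 * s)
      (by omega) (by omega) (by omega) (by omega)
    have t1 : N.ReachP m ω Z H (aout i 7) z1 := by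
      apply N.tube (by omega) E (x + 32 * s + i * r) (x + 32 * s + i * r + r)
        (y + 32 * s + 8 * r - 8 * s) (y + 32 * s + 8 * r) (by omega) (by omega)
        (by omega) (by omega) _ _ _ (aoutB i (by omega) 7 (by omega)) z1B c1 z1C
        <;> try omega
      · rintro p ⟨u1, u2, u3, u4⟩; exact ⟨by omega, by omega, by omega, by omega⟩
      · rintro p ⟨u1, u2, u3, u4⟩; exact ⟨by omega, by omega, by omega, by omega⟩
      · have key : ∀ p ∈ Rc (x + 32 * s + i * r) (x + 32 * s + i * r + r)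
            (y + 32 * s + 8 * r - 8 * s) (y + 32 * s + 8 * r), H p = off (i + 1) 0 := by
          rintro p ⟨u1, u2, u3, u4⟩
          by_cases hc : p.1 < x + 32 * s + i * r + r - 8 * s
          · rw [off_c]
            exact H_in1 i (by omega) 7 (by omega) p u1 hc (by omega) (by omega)
          · exact H_st i (by omega) p (by omega) u2 (by omega) u4
        intro p hp q hq
        rw [key p hp, key q hq]; omega
    have t2 : N.ReachP m ω Z H z1 z2 := by
      apply N.tube (by omega) E (x + 32 * s + i * r + r - 8 * s) (x + 32 * s + i * r + r)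
        (y + 32 * s) (y + 32 * s + 8 * r) (by omega) (by omega)
        (by omega) (by omega) _ _ _ z1B z2B z1C z2C
        <;> try omega
      · rintro p ⟨u1, u2, u3, u4⟩; exact ⟨by omega, by omega, by omega, by omega⟩
      · rintro p ⟨u1, u2, u3, u4⟩; exact ⟨by omega, by omega, by omega, by omega⟩
      · have key : ∀ p ∈ Rc (x + 32 * s + i * r + r - 8 * s) (x + 32 * s + i * r + r)
            (y + 32 * s) (y + 32 * s + 8 * r), H p = off (i + 1) 0 := by
          rintro p ⟨u1, u2, u3, u4⟩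
          exact H_st i (by omega) p u1 u2 u3 u4
        intro p hp q hq
        rw [key p hp, key q hq]; omega
    have t3 : N.ReachP m ω Z H z2 (ain (i + 1) 0) := by
      apply N.tube (by omega) E (x + 32 * s + i * r + r - 8 * s)
        (x + 32 * s + i * r + r + 8 * s)
        (y + 32 * s) (y + 32 * s + 8 * s) (by omega) (by omega)
        (by omega) (by omega) _ _ _ z2B (ainB (i + 1) (by omega) 0 (by omega)) z2C c2
        <;> try omega
      · rintro p ⟨u1, u2, u3, u4⟩; exact ⟨by omega, by omega, by omega, by omega⟩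
      · rintro p ⟨u1, u2, u3, u4⟩; exact ⟨by omega, by omega, by omega, by omega⟩
      · have key : ∀ p ∈ Rc (x + 32 * s + i * r + r - 8 * s) (x + 32 * s + i * r + r + 8 * s)
            (y + 32 * s) (y + 32 * s + 8 * s), H p = off (i + 1) 0 := by
          rintro p ⟨u1, u2, u3, u4⟩
          by_cases hc : p.1 < x + 32 * s + i * r + r
          · exact H_st i (by omega) p u1 hc u3 (by omega)
          · exact H_in0 (i + 1) (by omega) 0 (by omega) p (by rw [hsucc]; omega)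
              (by rw [hsucc]; omega) (by omega) (by omega)
        intro p hp q hq
        rw [key p hp, key q hq]; omega
    exact (t1.trans t2).trans t3
  have all : ∀ i < 8, N.ReachP m ω Z H (ain 0 0) (aout i 7) := by
    intro i
    induction i with
    | zero => intro _; exact col 0 (by omega) 7 (by omega)
    | succ i ih =>
      intro hi
      exact ((ih (by omega)).trans (ret i (by omega))).trans (col (i + 1) hi 7 (by omega))
  refine ⟨H, ?_, ?_, ?_⟩
  · rintro p ⟨h1, h2, h3, h4⟩; exact H_bot p (by omega)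
  · rintro p ⟨h1, h2, h3, h4⟩; exact H_top p (by omega)
  intro z z' hz hz' cz cz'
  -- entrance
  obtain ⟨z1, z1B, z1C⟩ := A (x + 32 * s + 4 * s) (y + 16 * s)
    (by omega) (by omega) (by omega) (by omega)
  obtain ⟨z2, z2B, z2C⟩ := A (x + 32 * s + 7 * r + 4 * s) (y + 32 * s + 8 * r + 16 * s)
    (by omega) (by omega) (by omega) (by omega)
  have c00 := ainC 0 (by omega) 0 (by omega)
  have c77 := aoutC 7 (by omega) 7 (by omega)
  have t1 : N.ReachP m ω Z H z z1 := by
    apply N.tube (by omega) E x (x + (8 * r + 64 * s) - 8 * (4 * s)) y (y + 32 * s) hx hy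
      (by omega) (by omega) _ _ _ hz z1B cz z1C <;> try omega
    · rintro p ⟨u1, u2, u3, u4⟩; exact ⟨by omega, by omega, by omega, by omega⟩
    · rintro p ⟨u1, u2, u3, u4⟩; exact ⟨by omega, by omega, by omega, by omega⟩
    · rintro p ⟨_, _, _, u4⟩ q ⟨_, _, _, v4⟩
      rw [H_bot p u4, H_bot q v4]; omega
  have t2 : N.ReachP m ω Z H z1 (ain 0 0) := by
    apply N.tube (by omega) E (x + 32 * s) (x + 32 * s + 8 * s) y (y + 32 * s + 8 * s)
      (by omega) hy (by omega) (by omega) _ _ _ z1B (ainB 0 (by omega) 0 (by omega)) z1C c00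
      <;> try omega
    · rintro p ⟨u1, u2, u3, u4⟩; exact ⟨by omega, by omega, by omega, by omega⟩
    · rintro p ⟨u1, u2, u3, u4⟩; exact ⟨by omega, by omega, by omega, by omega⟩
    · have key : ∀ p ∈ Rc (x + 32 * s) (x + 32 * s + 8 * s) y (y + 32 * s + 8 * s),
          H p = 0 := by
        rintro p ⟨u1, u2, u3, u4⟩
        by_cases hc : p.2 < y + 32 * s
        · exact H_bot p hc
        · rw [← off_0]
          exact H_in0 0 (by omega) 0 (by omega) p (by omega) (by omega) (by omega) (by omega)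
      intro p hp q hq
      rw [key p hp, key q hq]; omega
  have t3 : N.ReachP m ω Z H (aout 7 7) z2 := by
    apply N.tube (by omega) E (x + 32 * s + 7 * r) (x + 32 * s + 7 * r + 8 * s)
      (y + 32 * s + 8 * r - 8 * s) (y + (8 * r + 64 * s))
      (by omega) (by omega) (by omega) (by omega) _ _ _ (aoutB 7 (by omega) 7 (by omega)) z2B
      c77 z2C <;> try omega
    · rintro p ⟨u1, u2, u3, u4⟩; exact ⟨by omega, by omega, by omega, by omega⟩
    · rintro p ⟨u1, u2, u3, u4⟩; exact ⟨by omega, by omega, by omega, by omega⟩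
    · have key : ∀ p ∈ Rc (x + 32 * s + 7 * r) (x + 32 * s + 7 * r + 8 * s)
          (y + 32 * s + 8 * r - 8 * s) (y + (8 * r + 64 * s)),
          H p = ∑ i ∈ range 8, ∑ j ∈ range 8, W i j := by
        rintro p ⟨u1, u2, u3, u4⟩
        by_cases hc : p.2 < y + 32 * s + 8 * r
        · rw [← off_t, ← off_s]
          exact H_in1 7 (by omega) 7 (by omega) p (by omega) (by omega) (by omega) (by omega)
        · exact H_top p (by omega)
      intro p hp q hq
      rw [key p hp, key q hq]; omega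
  have t4 : N.ReachP m ω Z H z2 z' := by
    apply N.tube (by omega) E x (x + (8 * r + 64 * s) - 8 * (4 * s)) (y + 32 * s + 8 * r)
      (y + (8 * r + 64 * s)) hx (by omega)
      (by omega) (by omega) _ _ _ z2B hz' z2C cz' <;> try omega
    · rintro p ⟨u1, u2, u3, u4⟩; exact ⟨by omega, by omega, by omega, by omega⟩
    · rintro p ⟨u1, u2, u3, u4⟩; exact ⟨by omega, by omega, by omega, by omega⟩
    · rintro p ⟨_, _, u3, _⟩ q ⟨_, _, v3, _⟩
      rw [H_top p u3, H_top q v3]; omega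
  exact (((t1.trans t2).trans (all 7 (by omega))).trans t3).trans t4

/-- Passage through a block of scale k from the in-port (bottom left corner) to the out-port (top
left corner), inside the block without its right strip, with a potential which is 0 on the bottom
strip and V on the top strip. -/
theorem traverse {m : ℕ} (hm : m ≤ n) {s0 : ℕ} (hs0 : 16 ≤ s0) (ω : Finset ℕ) :
    ∀ k x y, 1 ≤ x → 1 ≤ y → x + RR s0 k ≤ n - m → y + RR s0 k ≤ m →
      N.Ev m (Sq s0 k x y) (sk s0 k) ω →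
      ∃ h : ℕ × ℕ → ℕ,
        (∀ p ∈ Rc x (x + RR s0 k - ph s0 k) y (y + ph s0 k), h p = 0) ∧
        (∀ p ∈ Rc x (x + RR s0 k - ph s0 k) (y + RR s0 k - ph s0 k) (y + RR s0 k),
          h p = N.V m s0 k ω x y) ∧
        ∀ z z', N.Bi ω z → N.Bi ω z' →
          cd m z ∈ Rc (x + 3 * sk s0 k) (x + 5 * sk s0 k + 1) (y + 3 * sk s0 k)
            (y + 5 * sk s0 k + 1) →
          cd m z' ∈ Rc (x + 3 * sk s0 k) (x + 5 * sk s0 k + 1) (y + RR s0 k - 5 * sk s0 k)
            (y + RR s0 k - 3 * sk s0 k + 1) →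
          N.ReachP m ω (Rc x (x + RR s0 k - ph s0 k) y (y + RR s0 k)) h z z' := by
  intro k
  induction k with
  | zero =>
    intro x y hx hy _ _ E
    have := N.plain (sk_pos hs0 0) hx hy (RR_ge s0 0) E
    simpa [ph, V] using this
  | succ k ih =>
    intro x y hx hy hxn hym E
    have hsk := sk_pos hs0 k
    have hRk := RR_ge s0 k
    have hR : RR s0 (k + 1) = 8 * RR s0 k + 64 * sk s0 k := by
      show 8 * RR s0 k + 2 * ph s0 (k + 1) = _
      unfold ph; rw [sk_succ]; ring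
    have hph : ph s0 (k + 1) = 32 * sk s0 k := by unfold ph; rw [sk_succ]; ring
    have hph' : ph s0 k = 8 * sk s0 k := rfl
    by_cases hE : N.Ev m (Sq s0 (k + 1) x y) (sk s0 k) ω
    · have hV : N.V m s0 (k + 1) ω x y = ∑ i ∈ range 8, ∑ j ∈ range 8,
          N.V m s0 k ω (x + 32 * sk s0 k + i * RR s0 k) (y + 32 * sk s0 k + j * RR s0 k) := by
        rw [V, if_pos hE, hph]
      have := N.refined hm hsk hRk hx hy (by omega) (by omega) (s := sk s0 k) (r := RR s0 k)
        (by unfold Sq at hE; rw [hR] at hE; exact hE)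
        (fun i j => N.V m s0 k ω (x + 32 * sk s0 k + i * RR s0 k) (y + 32 * sk s0 k + j * RR s0 k))
        (by
          intro i hi j hj
          have h1 : i * RR s0 k ≤ 7 * RR s0 k := Nat.mul_le_mul_right _ (by omega)
          have h2 : j * RR s0 k ≤ 7 * RR s0 k := Nat.mul_le_mul_right _ (by omega)
          exact ih _ _ (by omega) (by omega) (by omega) (by omega)
            (N.Ev_mono (by
              unfold Sq
              rintro p ⟨u1, u2, u3, u4⟩
              exact ⟨by omega, by omega, by omega, by omega⟩) hE))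
      rw [hV]
      simp only [hR, sk_succ]
      have hph2 : ph s0 (k + 1) = 8 * (4 * sk s0 k) := by unfold ph; rw [sk_succ]
      rw [hph2]
      exact this
    · have hV : N.V m s0 (k + 1) ω x y = 1 := by rw [V, if_neg hE]
      rw [hV]
      exact N.plain (sk_pos hs0 (k + 1)) hx hy (RR_ge s0 (k + 1)) E

end Net

end PLA
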